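import Mathlib

/-! Sets on few parallel lines: real inequalities. -/

set_option autoImplicit false

namespace Pool.Agent.Work.MP_916cc8_co.FL

theorem real3 {s t r n f b C D m : ℝ} (hs : 1 ≤ s) (ht : 1 ≤ t) (hts : t ^ 3 ≤ 2 * s ^ 3)
    (hr : 1 ≤ r) (hrt : r ≤ 2 * t ^ 3) (hn : s ^ 6 ≤ n) (hf : 0 ≤ f) (hf1 : f * r ≤ n ^ 2)
    (hf2 : f * r ^ 2 ≤ D * t ^ 2 * n ^ 2) (hb : 0 ≤ b) (hbt : b * t ^ 3 ≤ 2 * s ^ 3 * n)
    (hC : 0 < C) (hD : 1 ≤ D) (hm : 0 < m) (hm1 : m ≤ t ^ 2) (hm2 : m ≤ r)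
    (hm3 : m = r ∨ m = t ^ 2) :
    (2 * s * r / m) * f + (s ^ 2 / m) * (C * (n ^ 2 / (2 * s * r / m))) +
      (1 / (s ^ 2 / m)) * ((2 + m * s ^ 3 * r / t ^ 6) * f + C * (b ^ 2 / (2 + m * s ^ 3 * r / t ^ 6)) +
        s ^ 3 * (2 * b)) ≤ (40 + 3 * D + 5 * C) * (s * n ^ 2 / r) := by
  have hs0 : 0 < s := by linarith
  have ht0 : 0 < t := by linarith
  have hr0 : 0 < r := by linarith
  have hn0 : 0 < n := lt_of_lt_of_le (by positivity) hn
  -- basic: r^2 * f / m ≤ D n^2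
  have hA : r ^ 2 * f / m ≤ D * n ^ 2 := by
    rcases hm3 with h | h
    · rw [h]
      have : r ^ 2 * f / r = f * r := by field_simp
      rw [this]
      nlinarith [sq_nonneg n]
    · rw [h, div_le_iff₀ (by positivity)]
      nlinarith
  -- term 1
  have h1 : (2 * s * r / m) * f ≤ 2 * D * (s * n ^ 2 / r) := by
    have e : (2 * s * r / m) * f = 2 * s / r * (r ^ 2 * f / m) := by field_simp
    have e' : 2 * D * (s * n ^ 2 / r) = 2 * s / r * (D * n ^ 2) := by field_simp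
    rw [e, e']
    exact mul_le_mul_of_nonneg_left hA (by positivity)
  -- term 2
  have h2 : (s ^ 2 / m) * (C * (n ^ 2 / (2 * s * r / m))) ≤ C * (s * n ^ 2 / r) := by
    have e : (s ^ 2 / m) * (C * (n ^ 2 / (2 * s * r / m))) = C * (s * n ^ 2 / r) / 2 := by
      field_simp
    rw [e]
    have : 0 ≤ C * (s * n ^ 2 / r) := by positivity
    linarith
  have hts' : t ≤ 2 * s := by
    by_contra hc
    push Not at hc
    have : (2 * s) ^ 3 < t ^ 3 := pow_lt_pow_left₀ hc (by positivity) (by norm_num)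
    have h8 : (2 * s) ^ 3 = 8 * s ^ 3 := by ring
    have : 0 < s ^ 3 := by positivity
    linarith
  have ht2s : t ^ 2 ≤ 4 * s ^ 2 := by nlinarith
  -- f ≤ s n^2 / r
  have hfs : f ≤ s * n ^ 2 / r := by
    rw [le_div_iff₀ hr0]
    nlinarith [sq_nonneg n]
  -- term 3a
  have h3a : (1 / (s ^ 2 / m)) * (2 * f) ≤ 8 * (s * n ^ 2 / r) := by
    have e : (1 / (s ^ 2 / m)) * (2 * f) = (m / s ^ 2) * (2 * f) := by field_simp
    rw [e]
    have e2 : m / s ^ 2 ≤ 4 := by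
      rw [div_le_iff₀ (by positivity)]
      linarith
    have e3 : (m / s ^ 2) * (2 * f) ≤ 4 * (2 * f) := mul_le_mul_of_nonneg_right e2 (by positivity)
    linarith
  -- term 3b
  have h3b : (1 / (s ^ 2 / m)) * (m * s ^ 3 * r / t ^ 6 * f) ≤ D * (s * n ^ 2 / r) := by
    have e : (1 / (s ^ 2 / m)) * (m * s ^ 3 * r / t ^ 6 * f) =
        (m ^ 3 / t ^ 6) * (s / r) * (r ^ 2 * f / m) := by field_simp
    rw [e]
    have e2 : m ^ 3 / t ^ 6 ≤ 1 := by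
      rw [div_le_one (by positivity)]
      calc m ^ 3 ≤ (t ^ 2) ^ 3 := pow_le_pow_left₀ hm.le hm1 3
        _ = t ^ 6 := by ring
    have e3 : (m ^ 3 / t ^ 6) * (s / r) ≤ s / r := mul_le_of_le_one_left (by positivity) e2
    have e4 : 0 ≤ r ^ 2 * f / m := by positivity
    calc (m ^ 3 / t ^ 6) * (s / r) * (r ^ 2 * f / m) ≤ (s / r) * (r ^ 2 * f / m) :=
          mul_le_mul_of_nonneg_right e3 e4
      _ ≤ (s / r) * (D * n ^ 2) := mul_le_mul_of_nonneg_left hA (by positivity)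
      _ = _ := by field_simp
  -- term 4
  have h4 : (1 / (s ^ 2 / m)) * (C * (b ^ 2 / (2 + m * s ^ 3 * r / t ^ 6))) ≤
      4 * C * (s * n ^ 2 / r) := by
    have e1 : b ^ 2 / (2 + m * s ^ 3 * r / t ^ 6) ≤ b ^ 2 / (m * s ^ 3 * r / t ^ 6) := by
      refine div_le_div_of_nonneg_left (by positivity) (by positivity) (by linarith)
    have e2 : (1 / (s ^ 2 / m)) * (C * (b ^ 2 / (m * s ^ 3 * r / t ^ 6))) =
        C / (s ^ 5 * r) * (b * t ^ 3) ^ 2 := by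
      field_simp
    have e3 : (b * t ^ 3) ^ 2 ≤ (2 * s ^ 3 * n) ^ 2 := pow_le_pow_left₀ (by positivity) hbt 2
    have e4 : C / (s ^ 5 * r) * (2 * s ^ 3 * n) ^ 2 = 4 * C * (s * n ^ 2 / r) := by
      field_simp
      ring
    have e5 : (1 / (s ^ 2 / m)) * (C * (b ^ 2 / (2 + m * s ^ 3 * r / t ^ 6))) ≤
        (1 / (s ^ 2 / m)) * (C * (b ^ 2 / (m * s ^ 3 * r / t ^ 6))) :=
      mul_le_mul_of_nonneg_left (mul_le_mul_of_nonneg_left e1 hC.le) (by positivity)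
    rw [e2] at e5
    refine le_trans e5 ?_
    rw [← e4]
    exact mul_le_mul_of_nonneg_left e3 (by positivity)
  -- term 5
  have h5 : (1 / (s ^ 2 / m)) * (s ^ 3 * (2 * b)) ≤ 32 * (s * n ^ 2 / r) := by
    have e1 : (1 / (s ^ 2 / m)) * (s ^ 3 * (2 * b)) = 2 * s * m * (b * t ^ 3) / t ^ 3 := by
      field_simp
    rw [e1, ← mul_div_assoc, div_le_div_iff₀ (by positivity) hr0]
    have e2 : 2 * s * m * (b * t ^ 3) * r ≤ 2 * s * t ^ 2 * (2 * s ^ 3 * n) * (2 * t ^ 3) := by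
      have a1 : 2 * s * m ≤ 2 * s * t ^ 2 := mul_le_mul_of_nonneg_left hm1 (by positivity)
      have a2 : 2 * s * m * (b * t ^ 3) ≤ 2 * s * t ^ 2 * (2 * s ^ 3 * n) :=
        mul_le_mul a1 hbt (by positivity) (by positivity)
      exact mul_le_mul a2 hrt hr0.le (by positivity)
    refine le_trans e2 ?_
    have e3 : 2 * s * t ^ 2 * (2 * s ^ 3 * n) * (2 * t ^ 3) = (8 * s * n * t ^ 3) * (s ^ 3 * t ^ 2) := by
      ring
    have e4 : 32 * (s * n ^ 2) * t ^ 3 = (8 * s * n * t ^ 3) * (4 * n) := by ring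
    rw [e3, e4]
    refine mul_le_mul_of_nonneg_left ?_ (by positivity)
    have e5 : s ^ 3 * t ^ 2 ≤ s ^ 3 * (4 * s ^ 2) := mul_le_mul_of_nonneg_left ht2s (by positivity)
    have e6 : s ^ 5 ≤ s ^ 6 := pow_le_pow_right₀ hs (by norm_num)
    calc s ^ 3 * t ^ 2 ≤ s ^ 3 * (4 * s ^ 2) := e5
      _ = 4 * s ^ 5 := by ring
      _ ≤ 4 * s ^ 6 := by linarith
      _ ≤ 4 * n := by linarith
  have e : (1 / (s ^ 2 / m)) * ((2 + m * s ^ 3 * r / t ^ 6) * f + C * (b ^ 2 / (2 + m * s ^ 3 * r / t ^ 6)) +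
        s ^ 3 * (2 * b)) = (1 / (s ^ 2 / m)) * (2 * f) + (1 / (s ^ 2 / m)) * (m * s ^ 3 * r / t ^ 6 * f) +
        (1 / (s ^ 2 / m)) * (C * (b ^ 2 / (2 + m * s ^ 3 * r / t ^ 6))) +
        (1 / (s ^ 2 / m)) * (s ^ 3 * (2 * b)) := by ring
  rw [e]
  have e' : (40 + 3 * D + 5 * C) * (s * n ^ 2 / r) = 2 * D * (s * n ^ 2 / r) + C * (s * n ^ 2 / r) +
      8 * (s * n ^ 2 / r) + D * (s * n ^ 2 / r) + 4 * C * (s * n ^ 2 / r) + 32 * (s * n ^ 2 / r) := by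
    ring
  rw [e']
  linarith

end Pool.Agent.Work.MP_916cc8_co.FL
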