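import Pool.Agent.Work.MP_916cc8_co.FL.Main

/-! Sets on few parallel lines: final form. -/

set_option autoImplicit false

namespace Pool.Agent.Work.MP_916cc8_co.FL

open Pool.Agent.Work.MP_916cc8_co

open scoped Classical in
theorem uTri_le_tri (S : Finset Pt) : uTri S ≤ tri S S := by
  have h := Tri_proof S S (Finset.Subset.refl _)
  rw [Finset.sdiff_self] at h
  have h0 : tri ∅ S = 0 := by
    unfold tri
    simp
  omega

open scoped Classical in
theorem tri_eq (S : Finset Pt) : (tri S S : ℝ) ≤ (S.card : ℝ) ^ 2 +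
    ∑ g ∈ FF S, (dd S g : ℝ) * (rich S g.2 : ℝ) := by
  have h1 : tri S S ≤ ((S ×ˢ S ×ˢ S).filter (fun z => cr (z.2.1 - z.1) (z.2.2 - z.1) = 2 ∧
      z.1.2 = z.2.1.2)).card + ((S ×ˢ S ×ˢ S).filter (fun z =>
      cr (z.2.1 - z.1) (z.2.2 - z.1) = 2 ∧ ¬ z.1.2 = z.2.1.2)).card := by
    unfold tri
    rw [← Finset.filter_filter, ← Finset.filter_filter]
    exact (Finset.card_filter_add_card_filter_not _).ge
  have h2 := hor_le S
  rw [nonhor_eq] at h1
  have h3 : tri S S ≤ S.card ^ 2 + ∑ g ∈ FF S, dd S g * rich S g.2 := by omega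
  exact_mod_cast h3

/-- bound for triples, few rows -/
theorem rows_tri : ∃ C : ℝ, 0 < C ∧ ∀ S : Finset Pt, 0 < S.card →
    ((Yy S).card : ℝ) ^ 2 ≤ S.card → (tri S S : ℝ) ≤ C * ((S.card : ℝ) ^ 2 *
      (((Yy S).card : ℝ) ^ ((1 : ℝ) / 3) * (1 + Real.log ((Yy S).card : ℝ)) ^ 2)) := by
  obtain ⟨C, hC, h⟩ := nonhor_le
  refine ⟨C + 1, by linarith, fun S hS hh2 => ?_⟩
  have hh1 : (1 : ℝ) ≤ ((Yy S).card : ℝ) := by
    have : 0 < (Yy S).card := by
      rw [Finset.card_pos]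
      unfold Yy
      exact (Finset.card_pos.1 hS).image _
    exact_mod_cast this
  obtain ⟨s, hs⟩ : ∃ s : ℝ, s = ((Yy S).card : ℝ) ^ ((1 : ℝ) / 3) := ⟨_, rfl⟩
  have hs1 : 1 ≤ s := by
    rw [hs]
    exact Real.one_le_rpow hh1 (by norm_num)
  have hs3 : s ^ 3 = ((Yy S).card : ℝ) := by
    rw [hs, ← Real.rpow_natCast, ← Real.rpow_mul (by linarith)]
    norm_num
  have h1 := h S s hS (by linarith) hs3 hh2
  have h2 := tri_eq S
  have hl : 0 ≤ Real.log ((Yy S).card : ℝ) := Real.log_nonneg hh1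
  have h3 : 1 ≤ s * (1 + Real.log ((Yy S).card : ℝ)) ^ 2 := by
    have : 1 ≤ (1 + Real.log ((Yy S).card : ℝ)) ^ 2 := by nlinarith
    nlinarith
  have h4 : (S.card : ℝ) ^ 2 ≤ (S.card : ℝ) ^ 2 * (s * (1 + Real.log ((Yy S).card : ℝ)) ^ 2) :=
    le_mul_of_one_le_right (by positivity) h3
  rw [← hs]
  have e : C * (s * (S.card : ℝ) ^ 2 * (1 + Real.log ((Yy S).card : ℝ)) ^ 2) =
    C * ((S.card : ℝ) ^ 2 * (s * (1 + Real.log ((Yy S).card : ℝ)) ^ 2)) := by ring
  rw [e] at h1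
  linarith

open scoped Classical in
theorem tri_image (S : Finset Pt) (M : Pt → Pt) (hM : Function.Injective M)
    (hcr : ∀ p q r, cr (M q - M p) (M r - M p) = cr (q - p) (r - p)) :
    tri S S ≤ tri (S.image M) (S.image M) := by
  unfold tri
  refine Finset.card_le_card_of_injOn (fun z => (M z.1, M z.2.1, M z.2.2)) ?_ ?_
  · intro z hz
    have hz' := Finset.mem_filter.1 (Finset.mem_coe.1 hz)
    simp only [Finset.mem_product] at hz'
    rw [Finset.mem_coe, Finset.mem_filter]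
    simp only [Finset.mem_product]
    exact ⟨⟨Finset.mem_image_of_mem _ hz'.1.1, Finset.mem_image_of_mem _ hz'.1.2.1,
      Finset.mem_image_of_mem _ hz'.1.2.2⟩, by rw [hcr]; exact hz'.2⟩
  · intro z _ w _ he
    simp only [Prod.mk.injEq] at he
    exact Prod.ext (hM he.1) (Prod.ext (hM he.2.1) (hM he.2.2))

theorem exists_map (α β : ℝ) (h : α ≠ 0 ∨ β ≠ 0) : ∃ M : Pt → Pt, Function.Injective M ∧
    (∀ p q r, cr (M q - M p) (M r - M p) = cr (q - p) (r - p)) ∧
    ∀ p, (M p).2 = α * p.1 + β * p.2 := by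
  obtain ⟨γ, δ, hd⟩ : ∃ γ δ : ℝ, γ * β - δ * α = 1 := by
    rcases h with h | h
    · exact ⟨0, -1 / α, by field_simp; ring⟩
    · exact ⟨1 / β, 0, by field_simp; ring⟩
  refine ⟨fun p => (γ * p.1 + δ * p.2, α * p.1 + β * p.2), ?_, ?_, fun p => rfl⟩
  · intro p q he
    simp only [Prod.mk.injEq] at he
    obtain ⟨e1, e2⟩ := he
    have h1 : (γ * β - δ * α) * (p.1 - q.1) = 0 := by linear_combination β * e1 - δ * e2
    have h2 : (γ * β - δ * α) * (p.2 - q.2) = 0 := by linear_combination γ * e2 - α * e1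
    rw [hd, one_mul] at h1 h2
    exact Prod.ext (by linarith) (by linarith)
  · intro p q r
    unfold cr
    simp only [Prod.fst_sub, Prod.snd_sub]
    linear_combination ((q.1 - p.1) * (r.2 - p.2) - (q.2 - p.2) * (r.1 - p.1)) * hd

open scoped Classical in
/-- number of values of a linear functional on `S` = number of parallel lines of this direction
needed to cover `S` -/
theorem few_lines : ∃ C : ℝ, ∀ (S : Finset Pt) (α β : ℝ), (α ≠ 0 ∨ β ≠ 0) →
    (uTri S : ℝ) ≤ C * ((S.card : ℝ) ^ 2 * min ((S.card : ℝ) ^ ((1 : ℝ) / 6))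
      (((S.image (fun x => α * x.1 + β * x.2)).card : ℝ) ^ ((1 : ℝ) / 3) *
        (1 + Real.log ((S.image (fun x => α * x.1 + β * x.2)).card : ℝ)) ^ 2)) := by
  obtain ⟨C₁, hC₁, h1⟩ := rows_tri
  obtain ⟨C₂, h2⟩ := main13_all
  refine ⟨max C₁ C₂, fun S α β hαβ => ?_⟩
  have hC0 : 0 < max C₁ C₂ := lt_max_of_lt_left hC₁
  rcases Nat.eq_zero_or_pos S.card with hS | hS
  · have h3 := uTri_le S
    rw [hS] at h3
    have h4 : uTri S = 0 := by simpa using h3
    rw [h4]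
    have hS' : S = ∅ := Finset.card_eq_zero.1 hS
    rw [hS']
    simp
  obtain ⟨M, hM, hcr, hM2⟩ := exists_map α β hαβ
  have hY : Yy (S.image M) = S.image (fun x => α * x.1 + β * x.2) := by
    unfold Yy
    rw [Finset.image_image]
    refine Finset.image_congr fun x _ => ?_
    exact hM2 x
  have hcard : (S.image M).card = S.card := Finset.card_image_of_injective _ hM
  obtain ⟨h, hh⟩ : ∃ h : ℕ, h = (S.image (fun x => α * x.1 + β * x.2)).card := ⟨_, rfl⟩
  rw [← hh]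
  have hh1 : (1 : ℝ) ≤ (h : ℝ) := by
    have : 0 < h := by
      rw [hh, Finset.card_pos]
      exact (Finset.card_pos.1 hS).image _
    exact_mod_cast this
  have hn1 : (1 : ℝ) ≤ (S.card : ℝ) := by exact_mod_cast hS
  have hn0 : (0 : ℝ) < (S.card : ℝ) := by linarith
  have hl : 0 ≤ Real.log (h : ℝ) := Real.log_nonneg hh1
  have hl2 : 1 ≤ (1 + Real.log (h : ℝ)) ^ 2 := by nlinarith
  -- the general bound
  have hgen : (uTri S : ℝ) ≤ max C₁ C₂ * ((S.card : ℝ) ^ 2 * (S.card : ℝ) ^ ((1 : ℝ) / 6)) := by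
    have h3 := h2 S
    have e : (S.card : ℝ) ^ ((13 : ℝ) / 6) = (S.card : ℝ) ^ 2 * (S.card : ℝ) ^ ((1 : ℝ) / 6) := by
      rw [← Real.rpow_natCast (S.card : ℝ) 2, ← Real.rpow_add hn0]
      norm_num
    rw [e] at h3
    refine le_trans h3 ?_
    exact mul_le_mul_of_nonneg_right (le_max_right _ _) (by positivity)
  rw [mul_min_of_nonneg _ _ (by positivity), mul_min_of_nonneg _ _ hC0.le]
  refine le_min hgen ?_
  by_cases hc : (h : ℝ) ^ 2 ≤ S.card
  · have h3 := h1 (S.image M) (by rw [hcard]; exact hS) (by rw [hY, ← hh, hcard]; exact hc)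
    rw [hY, ← hh, hcard] at h3
    have h4 : uTri S ≤ tri (S.image M) (S.image M) := le_trans (uTri_le_tri S) (tri_image S M hM hcr)
    have h4' : (uTri S : ℝ) ≤ (tri (S.image M) (S.image M) : ℝ) := by exact_mod_cast h4
    refine le_trans h4' (le_trans h3 ?_)
    exact mul_le_mul_of_nonneg_right (le_max_left _ _) (by positivity)
  · push Not at hc
    refine le_trans hgen ?_
    refine mul_le_mul_of_nonneg_left ?_ hC0.le
    refine mul_le_mul_of_nonneg_left ?_ (by positivity)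
    have h5 : (S.card : ℝ) ^ ((1 : ℝ) / 6) ≤ (h : ℝ) ^ ((1 : ℝ) / 3) := by
      have h6 : (S.card : ℝ) ^ ((1 : ℝ) / 6) ≤ ((h : ℝ) ^ 2) ^ ((1 : ℝ) / 6) :=
        Real.rpow_le_rpow hn0.le hc.le (by norm_num)
      have h7 : ((h : ℝ) ^ 2) ^ ((1 : ℝ) / 6) = (h : ℝ) ^ ((1 : ℝ) / 3) := by
        rw [← Real.rpow_natCast (h : ℝ) 2, ← Real.rpow_mul (by linarith)]
        norm_num
      rw [h7] at h6
      exact h6
    exact le_trans h5 (le_mul_of_one_le_right (by positivity) hl2)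

end Pool.Agent.Work.MP_916cc8_co.FL
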