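import Pool.Agent.Work.MP_916cc8_co.FL.GMom2
import Pool.Agent.Work.MP_916cc8_co.FL.Real

/-! Sets on few lines: one class of flags. -/

set_option autoImplicit false

namespace Pool.Agent.Work.MP_916cc8_co.FL.Gen

open Pool.Agent.Work.MP_916cc8_co Pool.Agent.Work.MP_916cc8_co.FL

theorem real4 {s t r n b : ℝ} (hs : 1 ≤ s) (ht : 1 ≤ t) (hr : 1 ≤ r) (hrt : r ≤ 2 * t ^ 3)
    (hn : s ^ 6 ≤ n) (hbt : b * t ^ 3 ≤ 2 * s ^ 3 * n) :
    s ^ 3 * (2 * b) ≤ 8 * (s * n ^ 2 / r) := by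
  have hs0 : 0 < s := by linarith
  have ht0 : 0 < t := by linarith
  have hr0 : 0 < r := by linarith
  have hn0 : 0 < n := lt_of_lt_of_le (by positivity) hn
  have ht3 : 0 < t ^ 3 := by positivity
  have e1 : s ^ 3 * (2 * b) ≤ 4 * n ^ 2 / t ^ 3 := by
    rw [le_div_iff₀ ht3]
    calc s ^ 3 * (2 * b) * t ^ 3 = 2 * s ^ 3 * (b * t ^ 3) := by ring
      _ ≤ 2 * s ^ 3 * (2 * s ^ 3 * n) := mul_le_mul_of_nonneg_left hbt (by positivity)
      _ = 4 * n * s ^ 6 := by ring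
      _ ≤ 4 * n * n := mul_le_mul_of_nonneg_left hn (by positivity)
      _ = 4 * n ^ 2 := by ring
  have e2 : 4 * n ^ 2 / t ^ 3 ≤ 8 * n ^ 2 / r := by
    rw [div_le_div_iff₀ ht3 hr0]
    calc 4 * n ^ 2 * r ≤ 4 * n ^ 2 * (2 * t ^ 3) := mul_le_mul_of_nonneg_left hrt (by positivity)
      _ = 8 * n ^ 2 * t ^ 3 := by ring
  have e3 : 8 * n ^ 2 / r ≤ 8 * (s * n ^ 2 / r) := by
    have : 8 * (s * n ^ 2 / r) = s * (8 * n ^ 2 / r) := by ring
    rw [this]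
    exact le_mul_of_one_le_left (by positivity) hs
  linarith

section
open scoped Classical

noncomputable def GG (S : Finset Pt) (L : Finset (ℝ × ℝ)) (c : Pt → ℝ × ℝ) (a r : ℕ) :
    Finset (Pt × Set Pt) :=
  (FF S L c).filter (fun g => (2 : ℝ) ^ a ≤ W S L c g.1 ∧ W S L c g.1 < 2 ^ (a + 1) ∧
    r ≤ dd S L c g)

theorem classK : ∃ C : ℝ, 0 < C ∧ ∀ (S : Finset Pt) (L : Finset (ℝ × ℝ)) (c : Pt → ℝ × ℝ)
    (a r : ℕ) (s : ℝ), Cov S L c → 0 < S.card → 0 < s →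
    s ^ 3 = (L.card : ℝ) → (L.card : ℝ) ^ 2 ≤ S.card → 1 ≤ r →
    (∑ g ∈ GG S L c a r, (rich S g.2 : ℝ)) ≤ C * (s * (S.card : ℝ) ^ 2 / r) := by
  obtain ⟨C, hC, hfl⟩ := flag_sum'
  obtain ⟨D, hD, hmom⟩ := mom_le
  refine ⟨48 + 3 * (D + 1) + 5 * C, by positivity, fun S L c a r s hc hS hs hsh hh2 hr => ?_⟩
  have hn0 : (0 : ℝ) < (S.card : ℝ) := by exact_mod_cast hS
  have hr1 : (1 : ℝ) ≤ (r : ℝ) := by exact_mod_cast hr
  rcases (GG S L c a r).eq_empty_or_nonempty with hE | ⟨g₀, hg₀⟩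
  · rw [hE, Finset.sum_empty]
    positivity
  have hh1 : (1 : ℝ) ≤ (L.card : ℝ) := by exact_mod_cast card_L_pos hc hS
  have hs1 : 1 ≤ s := by
    by_contra hc
    push Not at hc
    have : s ^ 3 < 1 := pow_lt_one₀ hs.le hc (by norm_num)
    linarith
  obtain ⟨t, ht⟩ : ∃ t : ℝ, t = (2 : ℝ) ^ ((a : ℝ) / 3) := ⟨_, rfl⟩
  have ht1 : 1 ≤ t := by
    rw [ht]
    exact Real.one_le_rpow (by norm_num) (by positivity)
  have ht0 : 0 < t := by linarith
  have ht3 : t ^ 3 = (2 : ℝ) ^ a := by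
    rw [ht, ← Real.rpow_natCast ((2 : ℝ) ^ ((a : ℝ) / 3)) 3, ← Real.rpow_mul (by norm_num)]
    rw [show (a : ℝ) / 3 * ((3 : ℕ) : ℝ) = (a : ℝ) by push_cast; ring, Real.rpow_natCast]
  have h2a : (2 : ℝ) ^ (a + 1) = 2 * t ^ 3 := by rw [ht3, pow_succ]; ring
  have hg₀' := hg₀
  unfold GG at hg₀'
  rw [Finset.mem_filter] at hg₀'
  have hts : t ^ 3 ≤ 2 * (L.card : ℝ) := by
    rw [ht3]
    exact le_trans hg₀'.2.1 (W_le hc _)
  have hrt : (r : ℝ) ≤ 2 * t ^ 3 := by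
    have h1 : (r : ℝ) ≤ (dd S L c g₀ : ℝ) := by exact_mod_cast hg₀'.2.2.2
    have h2 : (dd S L c g₀ : ℝ) ≤ ((Jz S L g₀.1).card : ℝ) := by exact_mod_cast dd_le hc g₀
    have h3 := card_le_W (S := S) (L := L) (c := c) g₀.1
    have h4 := hg₀'.2.2.1
    rw [h2a] at h4
    linarith
  set Z : Finset Pt := (ZZ S L c).filter (fun z => (2 : ℝ) ^ a ≤ W S L c z ∧
    W S L c z < 2 ^ (a + 1)) with hZ
  have hZW : ∀ z ∈ Z, W S L c z ≤ 2 * t ^ 3 := by
    intro z hz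
    rw [hZ, Finset.mem_filter] at hz
    rw [← h2a]
    exact hz.2.2.le
  have hbt : (Z.card : ℝ) * t ^ 3 ≤ 2 * s ^ 3 * S.card := by
    have h1 := sum_W_le hc Z
    have h2 : (Z.card : ℝ) * t ^ 3 ≤ ∑ z ∈ Z, W S L c z := by
      rw [← nsmul_eq_mul, ← Finset.sum_const]
      refine Finset.sum_le_sum fun z hz => ?_
      rw [hZ, Finset.mem_filter] at hz
      rw [ht3]
      exact hz.2.1
    rw [hsh]
    linarith
  have hf1 : ((GG S L c a r).card : ℝ) * r ≤ (S.card : ℝ) ^ 2 := by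
    have h1 : (GG S L c a r).card * r ≤ ∑ g ∈ FF S L c, dd S L c g := by
      have h2 : (GG S L c a r).card * r ≤ ∑ g ∈ GG S L c a r, dd S L c g := by
        rw [← smul_eq_mul, ← Finset.sum_const]
        refine Finset.sum_le_sum fun g hg => ?_
        unfold GG at hg
        rw [Finset.mem_filter] at hg
        exact hg.2.2.2
      refine le_trans h2 ?_
      unfold GG
      exact Finset.sum_le_sum_of_subset (Finset.filter_subset _ _)
    rw [sum_dd] at h1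
    have h3 : ((GG S L c a r).card : ℝ) * r ≤ ((BB S L c).card : ℝ) := by exact_mod_cast h1
    exact le_trans h3 card_BB_le
  have hf2 : ((GG S L c a r).card : ℝ) * (r : ℝ) ^ 2 ≤ (D + 1) * t ^ 2 * (S.card : ℝ) ^ 2 := by
    have h1 := hmom S L c Z t hc ht1 hS hts hh2 hZW
    have h2 : ((GG S L c a r).card : ℝ) * (r : ℝ) ^ 2 ≤
        ∑ g ∈ (FF S L c).filter (fun g => g.1 ∈ Z), ((dd S L c g : ℝ)) ^ 2 := by
      have h3 : ((GG S L c a r).card : ℝ) * (r : ℝ) ^ 2 ≤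
          ∑ g ∈ GG S L c a r, ((dd S L c g : ℝ)) ^ 2 := by
        rw [← nsmul_eq_mul, ← Finset.sum_const]
        refine Finset.sum_le_sum fun g hg => ?_
        unfold GG at hg
        rw [Finset.mem_filter] at hg
        have h4 : (r : ℝ) ≤ (dd S L c g : ℝ) := by exact_mod_cast hg.2.2.2
        exact pow_le_pow_left₀ (by positivity) h4 2
      refine le_trans h3 ?_
      refine Finset.sum_le_sum_of_subset_of_nonneg ?_ fun g _ _ => by positivity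
      intro g hg
      unfold GG at hg
      rw [Finset.mem_filter] at hg ⊢
      refine ⟨hg.1, ?_⟩
      rw [hZ, Finset.mem_filter]
      exact ⟨(FF_spec hc g hg.1).1, hg.2.1, hg.2.2.1⟩
    have h5 : D * t ^ 2 * (S.card : ℝ) ^ 2 ≤ (D + 1) * t ^ 2 * (S.card : ℝ) ^ 2 := by
      have : 0 ≤ t ^ 2 * (S.card : ℝ) ^ 2 := by positivity
      linarith
    linarith
  have hsn : s ^ 6 ≤ (S.card : ℝ) := by
    have : s ^ 6 = (s ^ 3) ^ 2 := by ring
    rw [this, hsh]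
    exact hh2
  obtain ⟨m, hm⟩ : ∃ m : ℝ, m = min (r : ℝ) (t ^ 2) := ⟨_, rfl⟩
  have hm0 : 0 < m := by
    rw [hm]
    exact lt_min (by linarith) (by positivity)
  have hm1 : m ≤ t ^ 2 := by rw [hm]; exact min_le_right _ _
  have hm2 : m ≤ r := by rw [hm]; exact min_le_left _ _
  have hm3 : m = r ∨ m = t ^ 2 := by
    rw [hm]
    exact min_choice _ _
  have hts' : t ^ 3 ≤ 2 * s ^ 3 := by rw [hsh]; exact hts
  have hkey := real3 hs1 ht1 hts' hr1 hrt hsn (Nat.cast_nonneg (GG S L c a r).card) hf1 hf2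
    (Nat.cast_nonneg Z.card) hbt hC (by linarith : (1 : ℝ) ≤ D + 1) hm0 hm1 hm2 hm3
  have hkey2 := real4 hs1 ht1 hr1 hrt hsn hbt
  have hflag := hfl S Z (GG S L c a r) (s ^ 3) (2 * s * r / m) (2 + m * s ^ 3 * r / t ^ 6) (s ^ 2 / m)
    (by positivity)
    (by
      rw [le_div_iff₀ hm0]
      nlinarith)
    (by
      have : 0 ≤ m * s ^ 3 * r / t ^ 6 := by positivity
      linarith)
    (by positivity)
    (by
      intro g hg
      unfold GG at hg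
      rw [Finset.mem_filter] at hg
      have h1 := FF_spec hc g hg.1
      refine ⟨?_, h1.2.1, h1.2.2.1⟩
      rw [hZ, Finset.mem_filter]
      exact ⟨h1.1, hg.2.1, hg.2.2.1⟩)
    (by
      intro g hg
      unfold GG at hg
      rw [Finset.mem_filter] at hg
      have h1 := (FF_spec hc g hg.1).2.2.2
      have h2 : (rich S g.2 : ℝ) ≤ (L.card : ℝ) := by exact_mod_cast h1
      have h3 : (L.card : ℝ) ≤ Real.sqrt S.card := Real.le_sqrt_of_sq_le hh2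
      have h4 : 0 ≤ Real.sqrt S.card := Real.sqrt_nonneg _
      linarith)
    (by
      intro g hg
      unfold GG at hg
      rw [Finset.mem_filter] at hg
      have h1 := (FF_spec hc g hg.1).2.2.2
      rw [hsh]
      exact_mod_cast h1)
  have hb0 : (0 : ℝ) ≤ (1 / (s ^ 2 / m)) * (s ^ 3 * (2 * (Z.card : ℝ))) := by positivity
  have e : (1 / (s ^ 2 / m)) * ((2 + m * s ^ 3 * r / t ^ 6) * ((GG S L c a r).card : ℝ) +
      C * ((Z.card : ℝ) ^ 2 / (2 + m * s ^ 3 * r / t ^ 6)) + s ^ 3 * (2 * (Z.card : ℝ))) =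
      (1 / (s ^ 2 / m)) * ((2 + m * s ^ 3 * r / t ^ 6) * ((GG S L c a r).card : ℝ) +
      C * ((Z.card : ℝ) ^ 2 / (2 + m * s ^ 3 * r / t ^ 6))) +
      (1 / (s ^ 2 / m)) * (s ^ 3 * (2 * (Z.card : ℝ))) := by ring
  rw [e] at hkey
  have e2 : (48 + 3 * (D + 1) + 5 * C) * (s * (S.card : ℝ) ^ 2 / r) =
      (40 + 3 * (D + 1) + 5 * C) * (s * (S.card : ℝ) ^ 2 / r) + 8 * (s * (S.card : ℝ) ^ 2 / r) := by
    ring
  rw [e2]
  linarith

end

end Pool.Agent.Work.MP_916cc8_co.FL.Gen
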