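import Pool.Agent.Work.MP_916cc8_co.FL.GInc

/-! Sets on few lines: the geometry. -/

set_option autoImplicit false

namespace Pool.Agent.Work.MP_916cc8_co.FL.Gen

open Pool.Agent.Work.MP_916cc8_co Pool.Agent.Work.MP_916cc8_co.FL

/-- the defining function of the line `y = l.1 * x + l.2` -/
def nu (l : ℝ × ℝ) (x : Pt) : ℝ := x.2 - l.1 * x.1 - l.2

/-- the line `y = l.1 * x + l.2` -/
def ln (l : ℝ × ℝ) : Set Pt := {x | nu l x = 0}

theorem mem_ln {l : ℝ × ℝ} {x : Pt} : x ∈ ln l ↔ nu l x = 0 := Iff.rfl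

theorem ln_isLine (l : ℝ × ℝ) : IsLine (ln l) := by
  refine ⟨-l.1, 1, l.2, Or.inr one_ne_zero, ?_⟩
  ext x
  rw [mem_ln, Set.mem_ofPred_eq]
  unfold nu
  constructor
  · intro h; linarith
  · intro h; linarith

theorem ln_inj {l l' : ℝ × ℝ} (h : ln l = ln l') : l = l' := by
  have h0 : ((0, l.2) : Pt) ∈ ln l' := by
    rw [← h, mem_ln]
    unfold nu
    simp
  have h1 : ((1, l.1 + l.2) : Pt) ∈ ln l' := by
    rw [← h, mem_ln]
    unfold nu
    simp
  rw [mem_ln] at h0 h1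
  unfold nu at h0 h1
  simp only at h0 h1
  exact Prod.ext (by linarith) (by linarith)

/-- the pole of the top lines of the pairs `(q, r)`, `r ∈ ln l` -/
noncomputable def zz (q : Pt) (l : ℝ × ℝ) : Pt := (q.1 + 2 / nu l q, q.2 + l.1 * (2 / nu l q))

/-- inverse of `zz` -/
noncomputable def src (z : Pt) (l : ℝ × ℝ) : Pt := (z.1 - 2 / nu l z, z.2 - l.1 * (2 / nu l z))

theorem nu_zz (q : Pt) (l : ℝ × ℝ) : nu l (zz q l) = nu l q := by
  unfold zz nu
  simp only
  ring

theorem nu_src (z : Pt) (l : ℝ × ℝ) : nu l (src z l) = nu l z := by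
  unfold src nu
  simp only
  ring

theorem zz_src (z : Pt) (l : ℝ × ℝ) : zz (src z l) l = z := by
  unfold zz
  rw [nu_src]
  unfold src
  ext <;> simp

theorem src_zz (q : Pt) (l : ℝ × ℝ) : src (zz q l) l = q := by
  unfold src
  rw [nu_zz]
  unfold zz
  ext <;> simp

theorem zz_mem_top {q r : Pt} {l : ℝ × ℝ} (hr : nu l r = 0) (hq : nu l q ≠ 0) :
    zz q l ∈ top q r := by
  show cr (r - q) (zz q l - q) = 2
  have h1 : cr (r - q) (zz q l - q) = (2 / nu l q) * (nu l q - nu l r) := by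
    unfold cr zz nu
    simp only [Prod.fst_sub, Prod.snd_sub]
    ring
  rw [h1, hr, sub_zero]
  field_simp

section
open scoped Classical

/-- `c` assigns to every point of `S` a line of `L` through it -/
def Cov (S : Finset Pt) (L : Finset (ℝ × ℝ)) (c : Pt → ℝ × ℝ) : Prop :=
  ∀ p ∈ S, c p ∈ L ∧ nu (c p) p = 0

/-- the points of a line -/
noncomputable def row (S : Finset Pt) (c : Pt → ℝ × ℝ) (l : ℝ × ℝ) : Finset Pt :=
  S.filter (fun p => c p = l)

/-- weight of a line -/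
noncomputable def om (S : Finset Pt) (L : Finset (ℝ × ℝ)) (c : Pt → ℝ × ℝ) (l : ℝ × ℝ) : ℝ :=
  1 + (L.card : ℝ) * ((row S c l).card : ℝ) / (S.card : ℝ)

/-- the targets of `z` -/
noncomputable def Jz (S : Finset Pt) (L : Finset (ℝ × ℝ)) (z : Pt) : Finset (ℝ × ℝ) :=
  L.filter (fun l => nu l z ≠ 0 ∧ src z l ∈ S)

noncomputable def W (S : Finset Pt) (L : Finset (ℝ × ℝ)) (c : Pt → ℝ × ℝ) (z : Pt) : ℝ :=
  ∑ l ∈ Jz S L z, om S L c l

/-- the top line is a covering line -/
def TopIn (L : Finset (ℝ × ℝ)) (x : Pt × Pt) : Prop := ∃ l ∈ L, top x.1 x.2 = ln l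

/-- regular base pair -/
def Reg (L : Finset (ℝ × ℝ)) (c : Pt → ℝ × ℝ) (x : Pt × Pt) : Prop :=
  nu (c x.2) x.1 ≠ 0 ∧ ¬ TopIn L x

/-- base pairs -/
noncomputable def BB (S : Finset Pt) (L : Finset (ℝ × ℝ)) (c : Pt → ℝ × ℝ) : Finset (Pt × Pt) :=
  (S ×ˢ S).filter (fun x => Reg L c x)

/-- flag of a pair -/
noncomputable def fl (c : Pt → ℝ × ℝ) (x : Pt × Pt) : Pt × Set Pt := (zz x.1 (c x.2), top x.1 x.2)

noncomputable def ZZ (S : Finset Pt) (L : Finset (ℝ × ℝ)) (c : Pt → ℝ × ℝ) : Finset Pt :=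
  (BB S L c).image (fun x => zz x.1 (c x.2))

noncomputable def FF (S : Finset Pt) (L : Finset (ℝ × ℝ)) (c : Pt → ℝ × ℝ) :
    Finset (Pt × Set Pt) := (BB S L c).image (fl c)

noncomputable def dd (S : Finset Pt) (L : Finset (ℝ × ℝ)) (c : Pt → ℝ × ℝ) (g : Pt × Set Pt) : ℕ :=
  ((BB S L c).filter (fun x => fl c x = g)).card

variable {S : Finset Pt} {L : Finset (ℝ × ℝ)} {c : Pt → ℝ × ℝ}

theorem mem_BB {x : Pt × Pt} :
    x ∈ BB S L c ↔ x.1 ∈ S ∧ x.2 ∈ S ∧ nu (c x.2) x.1 ≠ 0 ∧ ¬ TopIn L x := by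
  unfold BB
  rw [Finset.mem_filter, Finset.mem_product]
  unfold Reg
  tauto

theorem ne_of_BB (hc : Cov S L c) {x : Pt × Pt} (hx : x ∈ BB S L c) : x.1 ≠ x.2 := by
  intro h
  obtain ⟨_, h2, h3, _⟩ := mem_BB.1 hx
  apply h3
  rw [h]
  exact (hc x.2 h2).2

theorem mem_Jz_of_BB (hc : Cov S L c) {x : Pt × Pt} (hx : x ∈ BB S L c) :
    c x.2 ∈ Jz S L (zz x.1 (c x.2)) := by
  obtain ⟨h1, h2, h3, _⟩ := mem_BB.1 hx
  unfold Jz
  rw [Finset.mem_filter, src_zz, nu_zz]
  exact ⟨(hc x.2 h2).1, h3, h1⟩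

/-- a pair is determined by its flag and the line of its second point -/
theorem fl_inj {x y : Pt × Pt} (hx : x.1 ≠ x.2) (h : fl c x = fl c y) (hj : c x.2 = c y.2) :
    x = y := by
  unfold fl at h
  rw [Prod.mk.injEq] at h
  have h1 : x.1 = y.1 := by
    rw [← src_zz x.1 (c x.2), h.1, hj, src_zz]
  have h2 : x.2 = y.2 := by
    have h3 := h.2
    rw [← h1] at h3
    exact top_unique hx h3
  exact Prod.ext h1 h2

theorem dd_le (hc : Cov S L c) (g : Pt × Set Pt) : dd S L c g ≤ (Jz S L g.1).card := by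
  unfold dd
  refine Finset.card_le_card_of_injOn (fun x => c x.2) ?_ ?_
  · intro x hx
    have hx' := Finset.mem_filter.1 (Finset.mem_coe.1 hx)
    have h1 := mem_Jz_of_BB hc hx'.1
    rw [Finset.mem_coe, ← hx'.2]
    exact h1
  · intro x hx y hy hj
    have hx' := Finset.mem_filter.1 (Finset.mem_coe.1 hx)
    have hy' := Finset.mem_filter.1 (Finset.mem_coe.1 hy)
    exact fl_inj (ne_of_BB hc hx'.1) (hx'.2.trans hy'.2.symm) hj

theorem one_le_om (l : ℝ × ℝ) : 1 ≤ om S L c l := by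
  unfold om
  have : 0 ≤ (L.card : ℝ) * ((row S c l).card : ℝ) / (S.card : ℝ) := by positivity
  linarith

theorem card_le_W (z : Pt) : ((Jz S L z).card : ℝ) ≤ W S L c z := by
  unfold W
  calc ((Jz S L z).card : ℝ) = ∑ j ∈ Jz S L z, (1 : ℝ) := by simp
    _ ≤ _ := Finset.sum_le_sum fun j _ => one_le_om j

theorem sum_row (hc : Cov S L c) : (∑ j ∈ L, ((row S c j).card : ℝ)) = S.card := by
  have h := Finset.card_eq_sum_card_fiberwise (f := c) (s := S) (t := L)
    (fun p hp => (hc p (Finset.mem_coe.1 hp)).1)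
  rw [h]
  push_cast
  rfl

theorem sum_om_le (hc : Cov S L c) : (∑ j ∈ L, om S L c j) ≤ 2 * L.card := by
  unfold om
  rw [Finset.sum_add_distrib, Finset.sum_const, nsmul_eq_mul, mul_one, ← Finset.sum_div,
    ← Finset.mul_sum, sum_row hc]
  have h0 : (L.card : ℝ) * (S.card : ℝ) / (S.card : ℝ) ≤ L.card := by
    rcases Nat.eq_zero_or_pos S.card with h | h
    · rw [h]
      simp
    · have : (0 : ℝ) < S.card := by exact_mod_cast h
      rw [mul_div_assoc, div_self this.ne', mul_one]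
  linarith

theorem W_le (hc : Cov S L c) (z : Pt) : W S L c z ≤ 2 * L.card := by
  refine le_trans ?_ (sum_om_le hc)
  unfold W
  refine Finset.sum_le_sum_of_subset_of_nonneg (Finset.filter_subset _ _) fun j _ _ => ?_
  have := one_le_om (S := S) (L := L) (c := c) j
  linarith

theorem sum_W_le (hc : Cov S L c) (Z : Finset Pt) :
    (∑ z ∈ Z, W S L c z) ≤ 2 * L.card * S.card := by
  have h1 : (∑ z ∈ Z, W S L c z) = ∑ j ∈ L, om S L c j *
      ((Z.filter (fun z => nu j z ≠ 0 ∧ src z j ∈ S)).card : ℝ) := by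
    unfold W Jz
    simp only [Finset.sum_filter]
    rw [Finset.sum_comm]
    refine Finset.sum_congr rfl fun j _ => ?_
    rw [← Finset.sum_filter, Finset.sum_const, nsmul_eq_mul, mul_comm]
  have h2 : ∀ j ∈ L, om S L c j * ((Z.filter (fun z => nu j z ≠ 0 ∧ src z j ∈ S)).card : ℝ) ≤
      om S L c j * S.card := by
    intro j _
    have h3 : (Z.filter (fun z => nu j z ≠ 0 ∧ src z j ∈ S)).card ≤ S.card := by
      refine Finset.card_le_card_of_injOn (fun z => src z j) ?_ ?_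
      · intro z hz
        exact (Finset.mem_filter.1 (Finset.mem_coe.1 hz)).2.2
      · intro z _ w _ he
        have he' : src z j = src w j := he
        rw [← zz_src z j, he', zz_src]
    have := one_le_om (S := S) (L := L) (c := c) j
    refine mul_le_mul_of_nonneg_left ?_ (by linarith)
    exact_mod_cast h3
  rw [h1]
  refine le_trans (Finset.sum_le_sum h2) ?_
  rw [← Finset.sum_mul]
  exact mul_le_mul_of_nonneg_right (sum_om_le hc) (Nat.cast_nonneg _)

/-- a line outside `L` meets few points of `S` -/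
theorem rich_le (hc : Cov S L c) {ℓ : Set Pt} (hℓ : IsLine ℓ) (h : ¬ ∃ l ∈ L, ℓ = ln l) :
    rich S ℓ ≤ L.card := by
  unfold rich
  refine Finset.card_le_card_of_injOn c ?_ ?_
  · intro z hz
    exact (hc z (Finset.mem_filter.1 (Finset.mem_coe.1 hz)).1).1
  · intro z hz w hw he
    by_contra hzw
    obtain ⟨h1, h2⟩ := Finset.mem_filter.1 (Finset.mem_coe.1 hz)
    obtain ⟨h3, h4⟩ := Finset.mem_filter.1 (Finset.mem_coe.1 hw)
    have h5 := hc z h1
    have h6 := hc w h3
    have he' : c z = c w := he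
    rw [← he'] at h6
    exact h ⟨c z, h5.1, line_eq_of_two hℓ (ln_isLine _) hzw h2 h4 h5.2 h6.2⟩

theorem card_BB_le : ((BB S L c).card : ℝ) ≤ (S.card : ℝ) ^ 2 := by
  have : (BB S L c).card ≤ S.card ^ 2 := by
    unfold BB
    refine le_trans (Finset.card_filter_le _ _) ?_
    rw [Finset.card_product, pow_two]
  exact_mod_cast this

/-- incidences between `S` and the lines -/
theorem inc_ln_le (S : Finset Pt) (L : Finset (ℝ × ℝ)) :
    ∑ l ∈ L, rich S (ln l) ≤ S.card + L.card ^ 2 := by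
  have h := STw.union_ge S (L.image ln) (fun ℓ hℓ => by
    rw [Finset.mem_image] at hℓ
    obtain ⟨l, _, rfl⟩ := hℓ
    exact ln_isLine l)
  rw [Finset.sum_image (fun a _ b _ hab => ln_inj hab),
    Finset.card_image_of_injective _ (fun a b hab => ln_inj hab)] at h
  exact h

/-- triples whose base lies on a covering line -/
theorem E1_le (hc : Cov S L c) :
    ((S ×ˢ S ×ˢ S).filter (fun z => cr (z.2.1 - z.1) (z.2.2 - z.1) = 2 ∧
      nu (c z.2.1) z.1 = 0)).card ≤ (S.card + L.card ^ 2) * S.card := by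
  have h1 : ((S ×ˢ S ×ˢ S).filter (fun z => cr (z.2.1 - z.1) (z.2.2 - z.1) = 2 ∧
      nu (c z.2.1) z.1 = 0)).card ≤
      ((L ×ˢ S ×ˢ S).filter (fun w => w.2.1 ∈ ln w.1)).card := by
    refine Finset.card_le_card_of_injOn (fun z => (c z.2.1, z.1, z.2.2)) ?_ ?_
    · intro z hz
      have hz' := Finset.mem_filter.1 (Finset.mem_coe.1 hz)
      simp only [Finset.mem_product] at hz'
      rw [Finset.mem_coe, Finset.mem_filter, Finset.mem_product, Finset.mem_product]
      exact ⟨⟨(hc _ hz'.1.2.1).1, hz'.1.1, hz'.1.2.2⟩, hz'.2.2⟩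
    · intro z hz w hw he
      have hz' := Finset.mem_filter.1 (Finset.mem_coe.1 hz)
      have hw' := Finset.mem_filter.1 (Finset.mem_coe.1 hw)
      obtain ⟨p, q, r⟩ := z
      obtain ⟨p', q', r'⟩ := w
      simp only [Prod.mk.injEq] at he
      obtain ⟨hcq, rfl, rfl⟩ := he
      simp only [Finset.mem_product] at hz' hw'
      have k1 := (hc q hz'.1.2.1).2
      have k2 := (hc q' hw'.1.2.1).2
      have h2 := hz'.2.1
      have h3 := hz'.2.2
      have h4 := hw'.2.1
      rw [← hcq] at k2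
      generalize c q = l at *
      obtain ⟨m, b⟩ := l
      unfold nu at k1 k2 h3
      unfold cr at h2 h4
      simp only [Prod.fst_sub, Prod.snd_sub] at h2 h4 k1 k2 h3
      have e1 : q.2 - p.2 = m * (q.1 - p.1) := by linarith
      have e2 : q'.2 - p.2 = m * (q'.1 - p.1) := by linarith
      rw [e1] at h2
      rw [e2] at h4
      have h5 : (q.1 - q'.1) * ((r.2 - p.2) - m * (r.1 - p.1)) = 0 := by linarith
      have h6 : q.1 - q'.1 = 0 := by
        rcases mul_eq_zero.1 h5 with h | h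
        · exact h
        · exfalso
          have : (q.1 - p.1) * (r.2 - p.2) - m * (q.1 - p.1) * (r.1 - p.1) =
            (q.1 - p.1) * ((r.2 - p.2) - m * (r.1 - p.1)) := by ring
          rw [this, h, mul_zero] at h2
          norm_num at h2
      have h7 : q.1 = q'.1 := by linarith
      have h8 : q = q' := by
        refine Prod.ext h7 ?_
        rw [h7] at k1
        linarith
      rw [h8]
  refine le_trans h1 ?_
  have h2 : ((L ×ˢ S ×ˢ S).filter (fun w => w.2.1 ∈ ln w.1)).card =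
      (∑ l ∈ L, rich S (ln l)) * S.card := by
    rw [Finset.card_filter, Finset.sum_product, Finset.sum_mul]
    refine Finset.sum_congr rfl fun l _ => ?_
    unfold rich
    rw [Finset.sum_product, Finset.card_filter, Finset.sum_mul]
    refine Finset.sum_congr rfl fun p _ => ?_
    show (∑ y ∈ S, if p ∈ ln l then 1 else 0) = _
    rw [Finset.sum_const, smul_eq_mul, mul_comm]
  rw [h2]
  exact Nat.mul_le_mul_right _ (inc_ln_le S L)

/-- triples whose top line is a covering line -/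
theorem E2_le :
    ((S ×ˢ S ×ˢ S).filter (fun z => cr (z.2.1 - z.1) (z.2.2 - z.1) = 2 ∧
      TopIn L (z.1, z.2.1))).card ≤ (S.card + L.card ^ 2) * S.card := by
  have h1 : ((S ×ˢ S ×ˢ S).filter (fun z => cr (z.2.1 - z.1) (z.2.2 - z.1) = 2 ∧
      TopIn L (z.1, z.2.1))) ⊆ L.biUnion (fun l => (S ×ˢ S ×ˢ S).filter (fun z =>
        cr (z.2.1 - z.1) (z.2.2 - z.1) = 2 ∧ top z.1 z.2.1 = ln l)) := by
    intro z hz
    rw [Finset.mem_filter] at hz
    obtain ⟨h0, h1, l, hl, h2⟩ := hz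
    rw [Finset.mem_biUnion]
    exact ⟨l, hl, Finset.mem_filter.2 ⟨h0, h1, h2⟩⟩
  refine le_trans (Finset.card_le_card h1) (le_trans Finset.card_biUnion_le ?_)
  have h2 : ∀ l ∈ L, ((S ×ˢ S ×ˢ S).filter (fun z =>
        cr (z.2.1 - z.1) (z.2.2 - z.1) = 2 ∧ top z.1 z.2.1 = ln l)).card ≤
        rich S (ln l) * S.card := by
    intro l _
    unfold rich
    rw [← Finset.card_product]
    refine Finset.card_le_card_of_injOn (fun z => (z.2.2, z.1)) ?_ ?_
    · intro z hz
      have hz' := Finset.mem_filter.1 (Finset.mem_coe.1 hz)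
      simp only [Finset.mem_product] at hz'
      rw [Finset.mem_coe, Finset.mem_product, Finset.mem_filter]
      refine ⟨⟨hz'.1.2.2, ?_⟩, hz'.1.1⟩
      rw [← hz'.2.2]
      exact hz'.2.1
    · intro z hz w hw he
      have hz' := Finset.mem_filter.1 (Finset.mem_coe.1 hz)
      have hw' := Finset.mem_filter.1 (Finset.mem_coe.1 hw)
      obtain ⟨p, q, r⟩ := z
      obtain ⟨p', q', r'⟩ := w
      simp only [Prod.mk.injEq] at he
      obtain ⟨rfl, rfl⟩ := he
      have hpq : p ≠ q := by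
        intro h
        have h3 := hz'.2.1
        simp only at h3
        rw [← h, sub_self] at h3
        unfold cr at h3
        simp at h3
      have h3 := top_unique hpq (hz'.2.2.trans hw'.2.2.symm)
      simp only at h3
      rw [h3]
  refine le_trans (Finset.sum_le_sum h2) ?_
  rw [← Finset.sum_mul]
  exact Nat.mul_le_mul_right _ (inc_ln_le S L)

/-- the main triples -/
theorem main_eq :
    ((S ×ˢ S ×ˢ S).filter (fun z => cr (z.2.1 - z.1) (z.2.2 - z.1) = 2 ∧
      Reg L c (z.1, z.2.1))).card =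
      ∑ g ∈ FF S L c, dd S L c g * rich S g.2 := by
  have h1 : ((S ×ˢ S ×ˢ S).filter (fun z => cr (z.2.1 - z.1) (z.2.2 - z.1) = 2 ∧
      Reg L c (z.1, z.2.1))).card =
      ∑ x ∈ BB S L c, rich S (top x.1 x.2) := by
    have h2 : (S ×ˢ S ×ˢ S).filter (fun z => cr (z.2.1 - z.1) (z.2.2 - z.1) = 2 ∧
        Reg L c (z.1, z.2.1)) =
        (BB S L c).biUnion (fun x => (S.filter (fun r => r ∈ top x.1 x.2)).image
          (fun r => (x.1, x.2, r))) := by
      ext z
      obtain ⟨p, q, r⟩ := z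
      simp only [Finset.mem_filter, Finset.mem_product, Finset.mem_biUnion, Finset.mem_image,
        mem_BB, Prod.mk.injEq]
      constructor
      · rintro ⟨⟨a, b, c⟩, d, e, f⟩
        exact ⟨(p, q), ⟨a, b, e, f⟩, r, ⟨c, d⟩, rfl, rfl, rfl⟩
      · rintro ⟨⟨x1, x2⟩, ⟨a, b, e, f⟩, r', ⟨c, d⟩, h3, h4, h5⟩
        simp only at h3 h4
        subst h3 h4 h5
        exact ⟨⟨a, b, c⟩, d, e, f⟩
    rw [h2, Finset.card_biUnion]
    · refine Finset.sum_congr rfl fun x _ => ?_
      rw [Finset.card_image_of_injective]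
      · rfl
      · intro a b hab
        simp only [Prod.mk.injEq] at hab
        exact hab.2.2
    · intro x _ y _ hxy
      rw [Function.onFun, Finset.disjoint_left]
      intro z hz hz'
      rw [Finset.mem_image] at hz hz'
      obtain ⟨a, _, rfl⟩ := hz
      obtain ⟨b, _, hb⟩ := hz'
      simp only [Prod.mk.injEq] at hb
      exact hxy (Prod.ext hb.1.symm hb.2.1.symm)
  rw [h1]
  have h3 := Finset.sum_fiberwise_of_maps_to (s := BB S L c) (t := FF S L c) (g := fl c)
    (fun x hx => Finset.mem_image_of_mem _ hx) (fun x => rich S (top x.1 x.2))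
  rw [← h3]
  refine Finset.sum_congr rfl fun g _ => ?_
  unfold dd
  rw [Finset.card_eq_sum_ones, Finset.sum_mul]
  refine Finset.sum_congr rfl fun x hx => ?_
  rw [Finset.mem_filter] at hx
  rw [one_mul, ← hx.2]
  rfl

theorem sum_dd : ∑ g ∈ FF S L c, dd S L c g = (BB S L c).card := by
  unfold dd
  exact (Finset.card_eq_sum_card_image (fl c) (BB S L c)).symm

theorem FF_spec (hc : Cov S L c) : ∀ g ∈ FF S L c, g.1 ∈ ZZ S L c ∧ g.1 ∈ g.2 ∧ IsLine g.2 ∧
    rich S g.2 ≤ L.card := by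
  intro g hg
  unfold FF at hg
  rw [Finset.mem_image] at hg
  obtain ⟨x, hx, rfl⟩ := hg
  obtain ⟨h1, h2, h3, h4⟩ := mem_BB.1 hx
  have h5 := isLine_top (ne_of_BB hc hx)
  exact ⟨Finset.mem_image_of_mem _ hx, zz_mem_top (hc _ h2).2 h3, h5, rich_le hc h5 h4⟩

theorem tri_le (hc : Cov S L c) : (tri S S : ℝ) ≤ 2 * (((S.card : ℝ) + (L.card : ℝ) ^ 2) * S.card) +
    ∑ g ∈ FF S L c, (dd S L c g : ℝ) * (rich S g.2 : ℝ) := by
  have h0 : tri S S ≤ ((S ×ˢ S ×ˢ S).filter (fun z => cr (z.2.1 - z.1) (z.2.2 - z.1) = 2 ∧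
      nu (c z.2.1) z.1 = 0)).card + (((S ×ˢ S ×ˢ S).filter (fun z =>
      cr (z.2.1 - z.1) (z.2.2 - z.1) = 2 ∧ TopIn L (z.1, z.2.1))).card +
      ((S ×ˢ S ×ˢ S).filter (fun z => cr (z.2.1 - z.1) (z.2.2 - z.1) = 2 ∧
      Reg L c (z.1, z.2.1))).card) := by
    unfold tri
    refine le_trans (Finset.card_le_card ?_) (le_trans (Finset.card_union_le _ _)
      (Nat.add_le_add_left (Finset.card_union_le _ _) _))
    intro z hz
    rw [Finset.mem_filter] at hz
    rw [Finset.mem_union, Finset.mem_union, Finset.mem_filter, Finset.mem_filter, Finset.mem_filter]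
    by_cases a : nu (c z.2.1) z.1 = 0
    · exact Or.inl ⟨hz.1, hz.2, a⟩
    · by_cases b : TopIn L (z.1, z.2.1)
      · exact Or.inr (Or.inl ⟨hz.1, hz.2, b⟩)
      · exact Or.inr (Or.inr ⟨hz.1, hz.2, a, b⟩)
  have h1 := E1_le hc
  have h2 := E2_le (S := S) (L := L)
  rw [main_eq] at h0
  have h3 : tri S S ≤ 2 * ((S.card + L.card ^ 2) * S.card) +
      ∑ g ∈ FF S L c, dd S L c g * rich S g.2 := by omega
  exact_mod_cast h3

end

end Pool.Agent.Work.MP_916cc8_co.FL.Gen
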