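import Pool.Agent.Work.MP_916cc8_co.Assemble

/-! Sets on few parallel lines: incidence lemmas. -/

set_option autoImplicit false

namespace Pool.Agent.Work.MP_916cc8_co.FL

open Pool.Agent.Work.MP_916cc8_co

open scoped Classical in
/-- incidences between points and lines -/
theorem inc1 : ∃ C : ℝ, 0 < C ∧ ∀ (G : Finset Pt) (L : Finset (Set Pt)) (k : ℝ), 2 ≤ k →
    (∀ ℓ ∈ L, IsLine ℓ) →
    (∑ ℓ ∈ L, (rich G ℓ : ℝ)) ≤ k * L.card + C * ((G.card : ℝ) ^ 2 / k ^ 2) + 2 * G.card := by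
  obtain ⟨C, hC, h⟩ := Sums_final 1 (by norm_num) (by norm_num)
  refine ⟨C, hC, fun G L k hk hL => ?_⟩
  have hk0 : 0 < k := by linarith
  have h1 := h G (L.filter (fun ℓ => k ≤ rich G ℓ ∧ (rich G ℓ : ℝ) ≤ 2 * Real.sqrt G.card)) k hk
    (fun ℓ hℓ => by
      rw [Finset.mem_filter] at hℓ
      exact ⟨hL ℓ hℓ.1, hℓ.2.1, hℓ.2.2⟩)
  have h2 := VeryRich_proof G (L.filter (fun ℓ => 2 * Real.sqrt G.card ≤ (rich G ℓ : ℝ)))
    (fun ℓ hℓ => by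
      rw [Finset.mem_filter] at hℓ
      exact ⟨hL ℓ hℓ.1, hℓ.2⟩)
  have e1 : k ^ ((1 : ℝ) - 3) = 1 / k ^ 2 := by
    rw [show (1 : ℝ) - 3 = -((2 : ℕ) : ℝ) by norm_num, Real.rpow_neg hk0.le, Real.rpow_natCast,
      one_div]
  simp only [Real.rpow_one] at h1
  rw [e1, Finset.sum_filter] at h1
  rw [Finset.sum_filter] at h2
  have h3 : ∀ ℓ ∈ L, (rich G ℓ : ℝ) ≤ k +
      (if k ≤ rich G ℓ ∧ (rich G ℓ : ℝ) ≤ 2 * Real.sqrt G.card then (rich G ℓ : ℝ) else 0) +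
      (if 2 * Real.sqrt G.card ≤ (rich G ℓ : ℝ) then (rich G ℓ : ℝ) else 0) := by
    intro ℓ _
    have h0 : (0 : ℝ) ≤ rich G ℓ := Nat.cast_nonneg _
    split_ifs with a b b
    · linarith
    · linarith
    · linarith
    · by_cases c : k ≤ rich G ℓ
      · exfalso
        apply a
        refine ⟨c, ?_⟩
        push Not at b
        exact b.le
      · push Not at c
        linarith
  refine le_trans (Finset.sum_le_sum h3) ?_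
  rw [Finset.sum_add_distrib, Finset.sum_add_distrib, Finset.sum_const, nsmul_eq_mul]
  have e2 : C * (G.card : ℝ) ^ 2 * (1 / k ^ 2) = C * ((G.card : ℝ) ^ 2 / k ^ 2) := by ring
  rw [e2] at h1
  linarith

open scoped Classical in
theorem inc2 : ∃ C : ℝ, 0 < C ∧ ∀ (G : Finset Pt) (L : Finset (Set Pt)) (k : ℝ), 2 ≤ k →
    (∀ ℓ ∈ L, IsLine ℓ) →
    (∑ ℓ ∈ L, if k ≤ (rich G ℓ : ℝ) ∧ (rich G ℓ : ℝ) ≤ 2 * Real.sqrt G.card then
      (rich G ℓ : ℝ) ^ 2 else 0) ≤ C * ((G.card : ℝ) ^ 2 / k) := by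
  obtain ⟨C, hC, h⟩ := Sums_final 2 (by norm_num) (by norm_num)
  refine ⟨C, hC, fun G L k hk hL => ?_⟩
  have hk0 : 0 < k := by linarith
  have h1 := h G (L.filter (fun ℓ => k ≤ rich G ℓ ∧ (rich G ℓ : ℝ) ≤ 2 * Real.sqrt G.card)) k hk
    (fun ℓ hℓ => by
      rw [Finset.mem_filter] at hℓ
      exact ⟨hL ℓ hℓ.1, hℓ.2.1, hℓ.2.2⟩)
  have e1 : k ^ ((2 : ℝ) - 3) = 1 / k := by
    rw [show (2 : ℝ) - 3 = -1 by norm_num, Real.rpow_neg hk0.le, Real.rpow_one, one_div]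
  rw [e1, Finset.sum_filter] at h1
  have e2 : C * (G.card : ℝ) ^ 2 * (1 / k) = C * ((G.card : ℝ) ^ 2 / k) := by ring
  rw [e2] at h1
  refine le_trans (le_of_eq (Finset.sum_congr rfl fun ℓ _ => ?_)) h1
  rw [Real.rpow_two]

open scoped Classical in
/-- sum over flags -/
theorem flag_sum : ∃ C : ℝ, 0 < C ∧ ∀ (S Z : Finset Pt) (G : Finset (Pt × Set Pt))
    (η κ U μ : ℝ), 0 ≤ η → 2 ≤ κ → 2 ≤ U → 0 < μ →
    (∀ g ∈ G, g.1 ∈ Z ∧ g.1 ∈ g.2 ∧ IsLine g.2) →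
    (∀ g ∈ G, (rich S g.2 : ℝ) ≤ 2 * Real.sqrt S.card) →
    (∀ g ∈ G, (rich Z g.2 : ℝ) ≤ η) →
    (∑ g ∈ G, (rich S g.2 : ℝ)) ≤ κ * G.card + μ * (C * ((S.card : ℝ) ^ 2 / κ)) +
      (1 / μ) * (U * G.card + C * ((Z.card : ℝ) ^ 2 / U) + η * (2 * Z.card)) := by
  obtain ⟨C, hC, h⟩ := inc2
  refine ⟨C, hC, fun S Z G η κ U μ h9 hκ hU hμ h1 h2 h3 => ?_⟩
  set L : Finset (Set Pt) := G.image Prod.snd with hLdef
  set u : Set Pt → ℕ := fun ℓ => (G.filter (fun g => g.2 = ℓ)).card with hu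
  have hLm : ∀ ℓ ∈ L, IsLine ℓ ∧ (rich S ℓ : ℝ) ≤ 2 * Real.sqrt S.card ∧ (rich Z ℓ : ℝ) ≤ η := by
    intro ℓ hℓ
    rw [hLdef, Finset.mem_image] at hℓ
    obtain ⟨g, hg, rfl⟩ := hℓ
    exact ⟨(h1 g hg).2.2, h2 g hg, h3 g hg⟩
  have hcard : (G.card : ℝ) = ∑ ℓ ∈ L, (u ℓ : ℝ) := by
    have := Finset.card_eq_sum_card_image Prod.snd G
    rw [this]
    push_cast
    rfl
  have hsum : (∑ g ∈ G, (rich S g.2 : ℝ)) = ∑ ℓ ∈ L, (u ℓ : ℝ) * (rich S ℓ : ℝ) := by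
    have h5 := Finset.sum_comp (s := G) (fun ℓ : Set Pt => (rich S ℓ : ℝ)) (Prod.snd : Pt × Set Pt → Set Pt)
    rw [h5]
    refine Finset.sum_congr rfl fun ℓ _ => ?_
    rw [nsmul_eq_mul]
  have hur : ∀ ℓ ∈ L, u ℓ ≤ rich Z ℓ := by
    intro ℓ _
    rw [hu]
    unfold rich
    refine Finset.card_le_card_of_injOn Prod.fst ?_ ?_
    · intro g hg
      have hg' := Finset.mem_filter.mp (Finset.mem_coe.mp hg)
      rw [Finset.mem_coe, Finset.mem_filter]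
      have h6 := h1 g hg'.1
      refine ⟨h6.1, ?_⟩
      have h7 := hg'.2
      rw [← h7]
      exact h6.2.1
    · intro g hg g' hg' he
      have h6 := Finset.mem_filter.mp (Finset.mem_coe.mp hg)
      have h7 := Finset.mem_filter.mp (Finset.mem_coe.mp hg')
      exact Prod.ext he (h6.2.trans h7.2.symm)
  have hS := h S L κ hκ (fun ℓ hℓ => (hLm ℓ hℓ).1)
  have hZ := h Z L U hU (fun ℓ hℓ => (hLm ℓ hℓ).1)
  have hV := VeryRich_proof Z (L.filter (fun ℓ => 2 * Real.sqrt Z.card ≤ (rich Z ℓ : ℝ)))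
    (fun ℓ hℓ => by
      rw [Finset.mem_filter] at hℓ
      exact ⟨(hLm ℓ hℓ.1).1, hℓ.2⟩)
  rw [Finset.sum_filter] at hV
  -- the squares of u
  have hu2 : ∀ ℓ ∈ L, ((u ℓ : ℝ)) ^ 2 ≤ U * (u ℓ : ℝ) +
      (if U ≤ (rich Z ℓ : ℝ) ∧ (rich Z ℓ : ℝ) ≤ 2 * Real.sqrt Z.card then
        (rich Z ℓ : ℝ) ^ 2 else 0) +
      η * (if 2 * Real.sqrt Z.card ≤ (rich Z ℓ : ℝ) then (rich Z ℓ : ℝ) else 0) := by
    intro ℓ hℓ
    have h6 : (u ℓ : ℝ) ≤ (rich Z ℓ : ℝ) := by exact_mod_cast hur ℓ hℓ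
    have h7 : (0 : ℝ) ≤ (u ℓ : ℝ) := Nat.cast_nonneg _
    have h8 : (rich Z ℓ : ℝ) ≤ η := (hLm ℓ hℓ).2.2
    have h9 : 0 ≤ η := by linarith
    have h10 : 0 ≤ U * (u ℓ : ℝ) := mul_nonneg (by linarith) h7
    split_ifs with a b b
    · have : (u ℓ : ℝ) ^ 2 ≤ (rich Z ℓ : ℝ) ^ 2 := pow_le_pow_left₀ h7 h6 2
      have h11 : 0 ≤ η * (rich Z ℓ : ℝ) := mul_nonneg h9 (Nat.cast_nonneg _)
      linarith
    · have : (u ℓ : ℝ) ^ 2 ≤ (rich Z ℓ : ℝ) ^ 2 := pow_le_pow_left₀ h7 h6 2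
      linarith
    · have : (u ℓ : ℝ) ^ 2 ≤ η * (rich Z ℓ : ℝ) := by
        rw [pow_two]
        exact mul_le_mul (by linarith) h6 h7 h9
      linarith
    · have h12 : (rich Z ℓ : ℝ) < U := by
        by_contra hc
        push Not at hc b
        exact a ⟨hc, b.le⟩
      have : (u ℓ : ℝ) ^ 2 ≤ U * (u ℓ : ℝ) := by
        rw [pow_two]
        exact mul_le_mul_of_nonneg_right (by linarith) h7
      linarith
  have hU2 : (∑ ℓ ∈ L, ((u ℓ : ℝ)) ^ 2) ≤ U * G.card + C * ((Z.card : ℝ) ^ 2 / U) +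
      η * (2 * Z.card) := by
    refine le_trans (Finset.sum_le_sum hu2) ?_
    rw [Finset.sum_add_distrib, Finset.sum_add_distrib, ← Finset.mul_sum, ← Finset.mul_sum,
      ← hcard]
    have := mul_le_mul_of_nonneg_left hV h9
    linarith
  have hpt : ∀ ℓ ∈ L, (u ℓ : ℝ) * (rich S ℓ : ℝ) ≤ κ * (u ℓ : ℝ) +
      μ * (if κ ≤ (rich S ℓ : ℝ) ∧ (rich S ℓ : ℝ) ≤ 2 * Real.sqrt S.card then
        (rich S ℓ : ℝ) ^ 2 else 0) + (1 / μ) * (u ℓ : ℝ) ^ 2 := by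
    intro ℓ hℓ
    have h7 : (0 : ℝ) ≤ (u ℓ : ℝ) := Nat.cast_nonneg _
    have h8 : (0 : ℝ) ≤ (rich S ℓ : ℝ) := Nat.cast_nonneg _
    have h11 : 0 ≤ (1 / μ) * (u ℓ : ℝ) ^ 2 := by positivity
    by_cases c : κ ≤ (rich S ℓ : ℝ)
    · rw [if_pos ⟨c, (hLm ℓ hℓ).2.1⟩]
      have h12 : 0 ≤ κ * (u ℓ : ℝ) := mul_nonneg (by linarith) h7
      have h13 : (u ℓ : ℝ) * (rich S ℓ : ℝ) ≤ μ * (rich S ℓ : ℝ) ^ 2 + (1 / μ) * (u ℓ : ℝ) ^ 2 := by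
        have h14 : 0 ≤ (1 / μ) * (μ * (rich S ℓ : ℝ) - (u ℓ : ℝ)) ^ 2 := by positivity
        have h15 : (1 / μ) * (μ * (rich S ℓ : ℝ) - (u ℓ : ℝ)) ^ 2 =
            μ * (rich S ℓ : ℝ) ^ 2 - 2 * ((u ℓ : ℝ) * (rich S ℓ : ℝ)) + (1 / μ) * (u ℓ : ℝ) ^ 2 := by
          field_simp
          ring
        have h16 : 0 ≤ (u ℓ : ℝ) * (rich S ℓ : ℝ) := mul_nonneg h7 h8
        linarith
      linarith
    · rw [if_neg (fun hh => c hh.1)]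
      push Not at c
      have h12 : (u ℓ : ℝ) * (rich S ℓ : ℝ) ≤ κ * (u ℓ : ℝ) := by
        rw [mul_comm]
        exact mul_le_mul_of_nonneg_right c.le h7
      linarith
  rw [hsum]
  refine le_trans (Finset.sum_le_sum hpt) ?_
  rw [Finset.sum_add_distrib, Finset.sum_add_distrib, ← Finset.mul_sum, ← Finset.mul_sum,
    ← Finset.mul_sum, ← hcard]
  have h20 := mul_le_mul_of_nonneg_left hS hμ.le
  have h21 := mul_le_mul_of_nonneg_left hU2 (one_div_pos.mpr hμ).le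
  linarith

end Pool.Agent.Work.MP_916cc8_co.FL
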