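import Pool.Agent.Work.MP_916cc8_co.FL.HypB
import Pool.Agent.Work.MP_916cc8_co.FL.Inc

/-! Sets on few lines: incidence lemmas. -/

set_option autoImplicit false

namespace Pool.Agent.Work.MP_916cc8_co.FL

open Pool.Agent.Work.MP_916cc8_co

theorem inv_cube_le (a : ℕ) (ha : 1 ≤ a) (M : ℕ) (hM : a ≤ M) :
    (∑ m ∈ Finset.Ioc a M, 1 / (m : ℝ) ^ 3) ≤ 1 / (a : ℝ) ^ 2 - 1 / (M : ℝ) ^ 2 := by
  induction M, hM using Nat.le_induction with
  | base => simp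
  | succ M hM ih =>
    rw [← Finset.insert_Ioc_right_eq_Ioc_add_one hM, Finset.sum_insert (by simp)]
    have hM0 : (0 : ℝ) < (M : ℝ) := by
      have : 0 < M := by omega
      exact_mod_cast this
    have h1 : 1 / ((M + 1 : ℕ) : ℝ) ^ 3 ≤ 1 / (M : ℝ) ^ 2 - 1 / ((M + 1 : ℕ) : ℝ) ^ 2 := by
      push_cast
      rw [div_sub_div _ _ (by positivity) (by positivity), div_le_div_iff₀ (by positivity)
        (by positivity)]
      have e : (1 * ((M : ℝ) + 1) ^ 2 - (M : ℝ) ^ 2 * 1) * ((M : ℝ) + 1) ^ 3 -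
        1 * ((M : ℝ) ^ 2 * ((M : ℝ) + 1) ^ 2) =
        ((M : ℝ) + 1) ^ 2 * ((2 * (M : ℝ) + 1) * ((M : ℝ) + 1) - (M : ℝ) ^ 2) := by ring
      have e2 : 0 ≤ ((M : ℝ) + 1) ^ 2 * ((2 * (M : ℝ) + 1) * ((M : ℝ) + 1) - (M : ℝ) ^ 2) := by
        refine mul_nonneg (by positivity) ?_
        nlinarith
      linarith
    linarith

open scoped Classical in
/-- incidences with the family of hyperbolas -/
theorem hinc : ∃ C : ℝ, 0 < C ∧ ∀ (γ : ℝ), γ ≠ 0 → ∀ (G : Finset Pt) (K : Finset (ℝ × ℝ × ℝ))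
    (k : ℝ), 2 ≤ k → (∀ κ ∈ K, Fam γ κ ∧ (rich G (hyp κ)) ^ 2 ≤ G.card) →
    (∑ κ ∈ K, (rich G (hyp κ) : ℝ)) ≤ k * K.card + C * ((G.card : ℝ) ^ 2 / k ^ 2) := by
  obtain ⟨C, hC, h⟩ := HST_proof
  refine ⟨8 * C, by positivity, fun γ hγ G K k hk hK => ?_⟩
  have hk0 : 0 < k := by linarith
  obtain ⟨a, ha⟩ : ∃ a : ℕ, a = ⌊k⌋₊ := ⟨_, rfl⟩
  have ha1 : (a : ℝ) ≤ k := by rw [ha]; exact Nat.floor_le hk0.le
  have ha2 : k < a + 1 := by rw [ha]; exact Nat.lt_floor_add_one k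
  have ha3 : 1 ≤ a := by
    rw [ha]
    exact Nat.le_floor (by push_cast; linarith)
  have ha4 : k ≤ 2 * a := by
    have : (1 : ℝ) ≤ a := by exact_mod_cast ha3
    linarith
  have ha0 : (0 : ℝ) < a := by
    have : 0 < a := ha3
    exact_mod_cast this
  set M : ℕ := a + G.card with hM
  have hr : ∀ κ, rich G (hyp κ) ≤ G.card := fun κ => Finset.card_filter_le _ _
  have hpt : ∀ κ ∈ K, (rich G (hyp κ) : ℝ) ≤ k + ∑ m ∈ Finset.Ioc a M,
      if m ≤ rich G (hyp κ) then (1 : ℝ) else 0 := by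
    intro κ _
    have h1 : rich G (hyp κ) ≤ a + ∑ m ∈ Finset.Ioc a M, if m ≤ rich G (hyp κ) then 1 else 0 := by
      rw [← Finset.sum_filter, ← Finset.card_eq_sum_ones]
      have h2 : (Finset.Ioc a M).filter (fun m => m ≤ rich G (hyp κ)) = Finset.Ioc a (rich G (hyp κ)) := by
        ext m
        simp only [Finset.mem_filter, Finset.mem_Ioc]
        have := hr κ
        omega
      rw [h2, Nat.card_Ioc]
      omega
    have h3 : (rich G (hyp κ) : ℝ) ≤ a + ∑ m ∈ Finset.Ioc a M,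
        if m ≤ rich G (hyp κ) then (1 : ℝ) else 0 := by
      have h4 : (rich G (hyp κ) : ℝ) ≤ ((a + ∑ m ∈ Finset.Ioc a M,
        if m ≤ rich G (hyp κ) then 1 else 0 : ℕ) : ℝ) := by exact_mod_cast h1
      push_cast at h4
      exact h4
    linarith
  refine le_trans (Finset.sum_le_sum hpt) ?_
  rw [Finset.sum_add_distrib, Finset.sum_const, nsmul_eq_mul, mul_comm (K.card : ℝ) k,
    Finset.sum_comm]
  have hm : ∀ m ∈ Finset.Ioc a M, (∑ κ ∈ K, if m ≤ rich G (hyp κ) then (1 : ℝ) else 0) ≤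
      2 * C * (G.card : ℝ) ^ 2 * (1 / (m : ℝ) ^ 3) := by
    intro m hm
    rw [Finset.mem_Ioc] at hm
    have hm2 : (2 : ℝ) ≤ (m : ℝ) := by
      have : 2 ≤ m := by omega
      exact_mod_cast this
    have hm0 : (0 : ℝ) < (m : ℝ) := by linarith
    rw [← Finset.sum_filter, Finset.sum_const, nsmul_eq_mul, mul_one]
    rcases (K.filter (fun κ => m ≤ rich G (hyp κ))).eq_empty_or_nonempty with h0 | ⟨κ₀, hκ₀⟩
    · rw [h0, Finset.card_empty]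
      push_cast
      positivity
    · have h1 := h γ hγ G (K.filter (fun κ => m ≤ rich G (hyp κ))) m hm2
        (fun κ hκ => by
          rw [Finset.mem_filter] at hκ
          exact ⟨(hK κ hκ.1).1, by exact_mod_cast hκ.2⟩)
      rw [Finset.mem_filter] at hκ₀
      have h2 : m ^ 2 ≤ G.card := le_trans (Nat.pow_le_pow_left hκ₀.2 2) (hK κ₀ hκ₀.1).2
      have h2' : (m : ℝ) ^ 2 ≤ (G.card : ℝ) := by exact_mod_cast h2
      have h3 : (G.card : ℝ) / m ≤ (G.card : ℝ) ^ 2 / (m : ℝ) ^ 3 := by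
        rw [div_le_div_iff₀ hm0 (by positivity)]
        calc (G.card : ℝ) * (m : ℝ) ^ 3 = (G.card : ℝ) * m * (m : ℝ) ^ 2 := by ring
          _ ≤ (G.card : ℝ) * m * (G.card : ℝ) := mul_le_mul_of_nonneg_left h2' (by positivity)
          _ = _ := by ring
      have h4 : C * ((G.card : ℝ) ^ 2 / (m : ℝ) ^ 3 + (G.card : ℝ) / m) ≤
          C * ((G.card : ℝ) ^ 2 / (m : ℝ) ^ 3 + (G.card : ℝ) ^ 2 / (m : ℝ) ^ 3) :=
        mul_le_mul_of_nonneg_left (by linarith) hC.le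
      refine le_trans h1 (le_trans h4 (le_of_eq ?_))
      ring
  have h5 := Finset.sum_le_sum hm
  rw [← Finset.mul_sum] at h5
  have h6 := inv_cube_le a ha3 M (by omega)
  have h7 : 1 / (a : ℝ) ^ 2 - 1 / (M : ℝ) ^ 2 ≤ 4 / k ^ 2 := by
    have e1 : 0 ≤ 1 / (M : ℝ) ^ 2 := by positivity
    have e2 : 1 / (a : ℝ) ^ 2 ≤ 4 / k ^ 2 := by
      rw [div_le_div_iff₀ (by positivity) (by positivity)]
      nlinarith
    linarith
  have h8 : 2 * C * (G.card : ℝ) ^ 2 * (∑ m ∈ Finset.Ioc a M, 1 / (m : ℝ) ^ 3) ≤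
      2 * C * (G.card : ℝ) ^ 2 * (4 / k ^ 2) :=
    mul_le_mul_of_nonneg_left (by linarith) (by positivity)
  have h9 : 2 * C * (G.card : ℝ) ^ 2 * (4 / k ^ 2) = 8 * C * ((G.card : ℝ) ^ 2 / k ^ 2) := by ring
  linarith

open scoped Classical in
/-- sum over flags, without a bound for the richness in the pole set -/
theorem flag_sum' : ∃ C : ℝ, 0 < C ∧ ∀ (S Z : Finset Pt) (G : Finset (Pt × Set Pt))
    (H κ U μ : ℝ), 0 ≤ H → 2 ≤ κ → 2 ≤ U → 0 < μ →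
    (∀ g ∈ G, g.1 ∈ Z ∧ g.1 ∈ g.2 ∧ IsLine g.2) →
    (∀ g ∈ G, (rich S g.2 : ℝ) ≤ 2 * Real.sqrt S.card) →
    (∀ g ∈ G, (rich S g.2 : ℝ) ≤ H) →
    (∑ g ∈ G, (rich S g.2 : ℝ)) ≤ κ * G.card + μ * (C * ((S.card : ℝ) ^ 2 / κ)) +
      (1 / μ) * (U * G.card + C * ((Z.card : ℝ) ^ 2 / U)) + H * (2 * Z.card) := by
  obtain ⟨C, hC, h⟩ := inc2
  refine ⟨C, hC, fun S Z G H κ U μ h9 hκ hU hμ h1 h2 h3 => ?_⟩
  set L : Finset (Set Pt) := G.image Prod.snd with hLdef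
  set u : Set Pt → ℕ := fun ℓ => (G.filter (fun g => g.2 = ℓ)).card with hu
  have hLm : ∀ ℓ ∈ L, IsLine ℓ ∧ (rich S ℓ : ℝ) ≤ 2 * Real.sqrt S.card ∧ (rich S ℓ : ℝ) ≤ H := by
    intro ℓ hℓ
    rw [hLdef, Finset.mem_image] at hℓ
    obtain ⟨g, hg, rfl⟩ := hℓ
    exact ⟨(h1 g hg).2.2, h2 g hg, h3 g hg⟩
  have hcard : (G.card : ℝ) = ∑ ℓ ∈ L, (u ℓ : ℝ) := by
    have := Finset.card_eq_sum_card_image Prod.snd G
    rw [this]
    push_cast
    rfl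
  have hsum : (∑ g ∈ G, (rich S g.2 : ℝ)) = ∑ ℓ ∈ L, (u ℓ : ℝ) * (rich S ℓ : ℝ) := by
    have h5 := Finset.sum_comp (s := G) (fun ℓ : Set Pt => (rich S ℓ : ℝ)) (Prod.snd : Pt × Set Pt → Set Pt)
    rw [h5]
    refine Finset.sum_congr rfl fun ℓ _ => ?_
    rw [nsmul_eq_mul]
  have hur : ∀ ℓ ∈ L, u ℓ ≤ rich Z ℓ := by
    intro ℓ _
    rw [hu]
    unfold rich
    refine Finset.card_le_card_of_injOn Prod.fst ?_ ?_
    · intro g hg
      have hg' := Finset.mem_filter.mp (Finset.mem_coe.mp hg)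
      rw [Finset.mem_coe, Finset.mem_filter]
      have h6 := h1 g hg'.1
      refine ⟨h6.1, ?_⟩
      have h7 := hg'.2
      rw [← h7]
      exact h6.2.1
    · intro g hg g' hg' he
      have h6 := Finset.mem_filter.mp (Finset.mem_coe.mp hg)
      have h7 := Finset.mem_filter.mp (Finset.mem_coe.mp hg')
      exact Prod.ext he (h6.2.trans h7.2.symm)
  have hS := h S L κ hκ (fun ℓ hℓ => (hLm ℓ hℓ).1)
  have hZ := h Z L U hU (fun ℓ hℓ => (hLm ℓ hℓ).1)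
  have hV := VeryRich_proof Z (L.filter (fun ℓ => 2 * Real.sqrt Z.card ≤ (rich Z ℓ : ℝ)))
    (fun ℓ hℓ => by
      rw [Finset.mem_filter] at hℓ
      exact ⟨(hLm ℓ hℓ.1).1, hℓ.2⟩)
  rw [Finset.sum_filter] at hV
  have hpt : ∀ ℓ ∈ L, (u ℓ : ℝ) * (rich S ℓ : ℝ) ≤ κ * (u ℓ : ℝ) +
      μ * (if κ ≤ (rich S ℓ : ℝ) ∧ (rich S ℓ : ℝ) ≤ 2 * Real.sqrt S.card then
        (rich S ℓ : ℝ) ^ 2 else 0) + (1 / μ) * (U * (u ℓ : ℝ) +
      (if U ≤ (rich Z ℓ : ℝ) ∧ (rich Z ℓ : ℝ) ≤ 2 * Real.sqrt Z.card then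
        (rich Z ℓ : ℝ) ^ 2 else 0)) +
      H * (if 2 * Real.sqrt Z.card ≤ (rich Z ℓ : ℝ) then (rich Z ℓ : ℝ) else 0) := by
    intro ℓ hℓ
    have h7 : (0 : ℝ) ≤ (u ℓ : ℝ) := Nat.cast_nonneg _
    have h8 : (0 : ℝ) ≤ (rich S ℓ : ℝ) := Nat.cast_nonneg _
    have h6 : (u ℓ : ℝ) ≤ (rich Z ℓ : ℝ) := by exact_mod_cast hur ℓ hℓ
    have hκu : 0 ≤ κ * (u ℓ : ℝ) := mul_nonneg (by linarith) h7
    have hUu : 0 ≤ U * (u ℓ : ℝ) := mul_nonneg (by linarith) h7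
    have hm0 : 0 ≤ 1 / μ := by positivity
    have n1 : (0 : ℝ) ≤ (if κ ≤ (rich S ℓ : ℝ) ∧ (rich S ℓ : ℝ) ≤ 2 * Real.sqrt S.card then
        (rich S ℓ : ℝ) ^ 2 else 0) := by split_ifs <;> positivity
    have n2 : (0 : ℝ) ≤ (if U ≤ (rich Z ℓ : ℝ) ∧ (rich Z ℓ : ℝ) ≤ 2 * Real.sqrt Z.card then
        (rich Z ℓ : ℝ) ^ 2 else 0) := by split_ifs <;> positivity
    have n3 : (0 : ℝ) ≤ (if 2 * Real.sqrt Z.card ≤ (rich Z ℓ : ℝ) then (rich Z ℓ : ℝ) else 0) := by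
      split_ifs <;> positivity
    have m1 := mul_nonneg hμ.le n1
    have m2 := mul_nonneg hm0 n2
    have m3 := mul_nonneg h9 n3
    have m4 := mul_nonneg hm0 hUu
    by_cases d : 2 * Real.sqrt Z.card ≤ (rich Z ℓ : ℝ)
    · -- very rich
      have h11 : (u ℓ : ℝ) * (rich S ℓ : ℝ) ≤ H * (rich Z ℓ : ℝ) := by
        rw [mul_comm H]
        exact mul_le_mul h6 (hLm ℓ hℓ).2.2 h8 (Nat.cast_nonneg _)
      rw [if_pos d]
      rw [mul_add]
      linarith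
    · have h12 : (u ℓ : ℝ) ^ 2 ≤ U * (u ℓ : ℝ) +
          (if U ≤ (rich Z ℓ : ℝ) ∧ (rich Z ℓ : ℝ) ≤ 2 * Real.sqrt Z.card then
            (rich Z ℓ : ℝ) ^ 2 else 0) := by
        by_cases a : U ≤ (rich Z ℓ : ℝ) ∧ (rich Z ℓ : ℝ) ≤ 2 * Real.sqrt Z.card
        · rw [if_pos a]
          have : (u ℓ : ℝ) ^ 2 ≤ (rich Z ℓ : ℝ) ^ 2 := pow_le_pow_left₀ h7 h6 2
          linarith
        · rw [if_neg a]
          have h13 : (rich Z ℓ : ℝ) < U := by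
            by_contra hc
            push Not at hc d
            exact a ⟨hc, d.le⟩
          have : (u ℓ : ℝ) ^ 2 ≤ U * (u ℓ : ℝ) := by
            rw [pow_two]
            exact mul_le_mul_of_nonneg_right (by linarith) h7
          linarith
      have h14 := mul_le_mul_of_nonneg_left h12 hm0
      by_cases c : κ ≤ (rich S ℓ : ℝ)
      · rw [if_pos ⟨c, (hLm ℓ hℓ).2.1⟩]
        have h13 : (u ℓ : ℝ) * (rich S ℓ : ℝ) ≤ μ * (rich S ℓ : ℝ) ^ 2 + (1 / μ) * (u ℓ : ℝ) ^ 2 := by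
          have h14 : 0 ≤ (1 / μ) * (μ * (rich S ℓ : ℝ) - (u ℓ : ℝ)) ^ 2 := by positivity
          have h15 : (1 / μ) * (μ * (rich S ℓ : ℝ) - (u ℓ : ℝ)) ^ 2 =
              μ * (rich S ℓ : ℝ) ^ 2 - 2 * ((u ℓ : ℝ) * (rich S ℓ : ℝ)) + (1 / μ) * (u ℓ : ℝ) ^ 2 := by
            field_simp
            ring
          have h16 : 0 ≤ (u ℓ : ℝ) * (rich S ℓ : ℝ) := mul_nonneg h7 h8
          linarith
        linarith
      · push Not at c
        have h12 : (u ℓ : ℝ) * (rich S ℓ : ℝ) ≤ κ * (u ℓ : ℝ) := by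
          rw [mul_comm]
          exact mul_le_mul_of_nonneg_right c.le h7
        rw [mul_add]
        linarith
  rw [hsum]
  refine le_trans (Finset.sum_le_sum hpt) ?_
  rw [Finset.sum_add_distrib, Finset.sum_add_distrib, Finset.sum_add_distrib, ← Finset.mul_sum,
    ← Finset.mul_sum, ← Finset.mul_sum, ← Finset.mul_sum, Finset.sum_add_distrib, ← Finset.mul_sum,
    ← hcard]
  have h20 := mul_le_mul_of_nonneg_left hS hμ.le
  have h21 := mul_le_mul_of_nonneg_left hZ (one_div_pos.mpr hμ).le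
  have h22 := mul_le_mul_of_nonneg_left hV h9
  rw [mul_add, mul_add]
  linarith

end Pool.Agent.Work.MP_916cc8_co.FL
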