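import Pool.Agent.Work.MP_916cc8_co.FL.GCls
import Pool.Agent.Work.MP_916cc8_co.FL.Final

/-! Sets on few lines: the main theorem. -/

set_option autoImplicit false

namespace Pool.Agent.Work.MP_916cc8_co.FL.Gen

open Pool.Agent.Work.MP_916cc8_co Pool.Agent.Work.MP_916cc8_co.FL

open scoped Classical in
theorem flags_le : ∃ C : ℝ, 0 < C ∧ ∀ (S : Finset Pt) (L : Finset (ℝ × ℝ)) (c : Pt → ℝ × ℝ)
    (s : ℝ), Cov S L c → 0 < S.card → 0 < s →
    s ^ 3 = (L.card : ℝ) → (L.card : ℝ) ^ 2 ≤ S.card →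
    (∑ g ∈ FF S L c, (dd S L c g : ℝ) * (rich S g.2 : ℝ)) ≤
      C * (s * (S.card : ℝ) ^ 2 * (1 + Real.log (L.card : ℝ)) ^ 2) := by
  obtain ⟨C, hC, hK⟩ := classK
  refine ⟨2 * C, by positivity, fun S L c s hc hS hs hsh hh2 => ?_⟩
  have hh1 : 1 ≤ L.card := card_L_pos hc hS
  obtain ⟨h, hhd⟩ : ∃ h : ℕ, h = L.card := ⟨_, rfl⟩
  rw [← hhd] at hh1
  have hpt : ∀ g ∈ FF S L c, (dd S L c g : ℝ) * (rich S g.2 : ℝ) ≤
      ∑ a ∈ Finset.range (Nat.log 2 (2 * h) + 1), ∑ r ∈ Finset.Icc 1 h,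
        if (2 : ℝ) ^ a ≤ W S L c g.1 ∧ W S L c g.1 < 2 ^ (a + 1) ∧ r ≤ dd S L c g
          then (rich S g.2 : ℝ) else 0 := by
    intro g hg
    have hd1 : 1 ≤ dd S L c g := by
      unfold FF at hg
      rw [Finset.mem_image] at hg
      obtain ⟨x, hx, hxg⟩ := hg
      unfold dd
      rw [Nat.one_le_iff_ne_zero, ← Nat.pos_iff_ne_zero, Finset.card_pos]
      exact ⟨x, Finset.mem_filter.2 ⟨hx, hxg⟩⟩
    have hdJ := dd_le hc g
    have hW := card_le_W (S := S) (L := L) (c := c) g.1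
    have hW2 := W_le hc g.1
    have hdh : dd S L c g ≤ h := by
      rw [hhd]
      refine le_trans hdJ ?_
      unfold Jz
      exact Finset.card_filter_le _ _
    have hW1 : 1 ≤ W S L c g.1 := by
      have : (1 : ℝ) ≤ ((Jz S L g.1).card : ℝ) := by exact_mod_cast le_trans hd1 hdJ
      linarith
    obtain ⟨a, ha1, ha2⟩ := exists_nat_pow_near hW1 (by norm_num : (1 : ℝ) < 2)
    have ha : a ∈ Finset.range (Nat.log 2 (2 * h) + 1) := by
      rw [Finset.mem_range, Nat.lt_succ_iff]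
      refine Nat.le_log_of_pow_le (by norm_num) ?_
      have : (2 : ℝ) ^ a ≤ 2 * (h : ℝ) := by
        rw [hhd]
        linarith
      exact_mod_cast this
    refine le_trans ?_ (Finset.single_le_sum (f := fun a => ∑ r ∈ Finset.Icc 1 h,
        if (2 : ℝ) ^ a ≤ W S L c g.1 ∧ W S L c g.1 < 2 ^ (a + 1) ∧ r ≤ dd S L c g
          then (rich S g.2 : ℝ) else 0)
        (fun i _ => Finset.sum_nonneg fun r _ => by split_ifs <;> positivity) ha)
    have e1 : ∀ r ∈ Finset.Icc 1 h, (if (2 : ℝ) ^ a ≤ W S L c g.1 ∧ W S L c g.1 < 2 ^ (a + 1) ∧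
        r ≤ dd S L c g then (rich S g.2 : ℝ) else 0) =
        if r ≤ dd S L c g then (rich S g.2 : ℝ) else 0 := by
      intro r _
      by_cases c' : r ≤ dd S L c g
      · rw [if_pos c', if_pos ⟨ha1, ha2, c'⟩]
      · rw [if_neg c', if_neg (fun x => c' x.2.2)]
    rw [Finset.sum_congr rfl e1, ← Finset.sum_filter, Finset.sum_const, nsmul_eq_mul]
    refine mul_le_mul_of_nonneg_right ?_ (Nat.cast_nonneg _)
    have e2 : (Finset.Icc 1 h).filter (fun r => r ≤ dd S L c g) = Finset.Icc 1 (dd S L c g) := by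
      ext r
      simp only [Finset.mem_filter, Finset.mem_Icc]
      omega
    rw [e2, Nat.card_Icc]
    simp
  have hswap : (∑ g ∈ FF S L c, ∑ a ∈ Finset.range (Nat.log 2 (2 * h) + 1), ∑ r ∈ Finset.Icc 1 h,
        if (2 : ℝ) ^ a ≤ W S L c g.1 ∧ W S L c g.1 < 2 ^ (a + 1) ∧ r ≤ dd S L c g
          then (rich S g.2 : ℝ) else 0) =
      ∑ a ∈ Finset.range (Nat.log 2 (2 * h) + 1), ∑ r ∈ Finset.Icc 1 h,
        ∑ g ∈ GG S L c a r, (rich S g.2 : ℝ) := by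
    rw [Finset.sum_comm]
    refine Finset.sum_congr rfl fun a _ => ?_
    rw [Finset.sum_comm]
    refine Finset.sum_congr rfl fun r _ => ?_
    unfold GG
    rw [Finset.sum_filter]
  refine le_trans (Finset.sum_le_sum hpt) ?_
  rw [hswap]
  have hcl : ∀ a ∈ Finset.range (Nat.log 2 (2 * h) + 1), (∑ r ∈ Finset.Icc 1 h,
        ∑ g ∈ GG S L c a r, (rich S g.2 : ℝ)) ≤ C * (s * (S.card : ℝ) ^ 2) * (1 + Real.log h) := by
    intro a _
    have h1 : ∀ r ∈ Finset.Icc 1 h, (∑ g ∈ GG S L c a r, (rich S g.2 : ℝ)) ≤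
        C * (s * (S.card : ℝ) ^ 2) * ((r : ℝ))⁻¹ := by
      intro r hr
      rw [Finset.mem_Icc] at hr
      have := hK S L c a r s hc hS hs hsh hh2 hr.1
      rw [div_eq_mul_inv] at this
      linarith
    refine le_trans (Finset.sum_le_sum h1) ?_
    rw [← Finset.mul_sum]
    refine mul_le_mul_of_nonneg_left ?_ (by positivity)
    have h2 := harmonic_le_one_add_log h
    rw [harmonic_eq_sum_Icc] at h2
    push_cast at h2
    exact h2
  refine le_trans (Finset.sum_le_sum hcl) ?_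
  rw [Finset.sum_const, nsmul_eq_mul, Finset.card_range, ← hhd]
  push_cast
  have h3 := log_aux h hh1
  have h4 : 0 ≤ C * (s * (S.card : ℝ) ^ 2) := by positivity
  calc ((Nat.log 2 (2 * h) : ℝ) + 1) * (C * (s * (S.card : ℝ) ^ 2) * (1 + Real.log h)) =
      C * (s * (S.card : ℝ) ^ 2) * (((Nat.log 2 (2 * h) : ℝ) + 1) * (1 + Real.log h)) := by ring
    _ ≤ C * (s * (S.card : ℝ) ^ 2) * (2 * (1 + Real.log h) ^ 2) :=
      mul_le_mul_of_nonneg_left h3 h4
    _ = _ := by ring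

/-- bound for triples, few lines -/
theorem lines_tri : ∃ C : ℝ, 0 < C ∧ ∀ (S : Finset Pt) (L : Finset (ℝ × ℝ)) (c : Pt → ℝ × ℝ),
    Cov S L c → 0 < S.card → (L.card : ℝ) ^ 2 ≤ S.card → (tri S S : ℝ) ≤ C * ((S.card : ℝ) ^ 2 *
      ((L.card : ℝ) ^ ((1 : ℝ) / 3) * (1 + Real.log (L.card : ℝ)) ^ 2)) := by
  obtain ⟨C, hC, h⟩ := flags_le
  refine ⟨C + 4, by linarith, fun S L c hc hS hh2 => ?_⟩
  have hh1 : (1 : ℝ) ≤ (L.card : ℝ) := by exact_mod_cast card_L_pos hc hS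
  obtain ⟨s, hs⟩ : ∃ s : ℝ, s = (L.card : ℝ) ^ ((1 : ℝ) / 3) := ⟨_, rfl⟩
  have hs1 : 1 ≤ s := by
    rw [hs]
    exact Real.one_le_rpow hh1 (by norm_num)
  have hs3 : s ^ 3 = (L.card : ℝ) := by
    rw [hs, ← Real.rpow_natCast, ← Real.rpow_mul (by linarith)]
    norm_num
  have h1 := h S L c s hc hS (by linarith) hs3 hh2
  have h2 := tri_le hc
  have hl : 0 ≤ Real.log (L.card : ℝ) := Real.log_nonneg hh1
  have h3 : 1 ≤ s * (1 + Real.log (L.card : ℝ)) ^ 2 := by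
    have : 1 ≤ (1 + Real.log (L.card : ℝ)) ^ 2 := by nlinarith
    nlinarith
  have h4 : (S.card : ℝ) ^ 2 ≤ (S.card : ℝ) ^ 2 * (s * (1 + Real.log (L.card : ℝ)) ^ 2) :=
    le_mul_of_one_le_right (by positivity) h3
  have h5 : 2 * (((S.card : ℝ) + (L.card : ℝ) ^ 2) * S.card) ≤ 4 * (S.card : ℝ) ^ 2 := by
    have : ((S.card : ℝ) + (L.card : ℝ) ^ 2) * S.card ≤ ((S.card : ℝ) + S.card) * S.card :=
      mul_le_mul_of_nonneg_right (by linarith) (Nat.cast_nonneg _)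
    nlinarith
  rw [← hs]
  have e : C * (s * (S.card : ℝ) ^ 2 * (1 + Real.log (L.card : ℝ)) ^ 2) =
    C * ((S.card : ℝ) ^ 2 * (s * (1 + Real.log (L.card : ℝ)) ^ 2)) := by ring
  rw [e] at h1
  linarith

/-- a shear which makes finitely many lines non-vertical -/
theorem exists_shear (L : Finset (Set Pt)) (hL : ∀ ℓ ∈ L, IsLine ℓ) : ∃ M : Pt → Pt,
    Function.Injective M ∧ (∀ p q r, cr (M q - M p) (M r - M p) = cr (q - p) (r - p)) ∧
    ∀ ℓ ∈ L, ∃ l : ℝ × ℝ, ∀ p ∈ ℓ, nu l (M p) = 0 := by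
  classical
  have hA : ∀ ℓ : Set Pt, ∃ w : ℝ × ℝ × ℝ, IsLine ℓ → (w.1 ≠ 0 ∨ w.2.1 ≠ 0) ∧
      ℓ = {x | w.1 * x.1 + w.2.1 * x.2 = w.2.2} := by
    intro ℓ
    by_cases h : IsLine ℓ
    · obtain ⟨a, b, c, hab, rfl⟩ := h
      exact ⟨(a, b, c), fun _ => ⟨hab, rfl⟩⟩
    · exact ⟨(0, 0, 0), fun h' => absurd h' h⟩
  choose w hw using hA
  obtain ⟨τ, hτ⟩ := Infinite.exists_notMem_finset (L.image (fun ℓ => (w ℓ).2.1 / (w ℓ).1))
  refine ⟨fun p => (p.1 + τ * p.2, p.2), ?_, ?_, ?_⟩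
  · intro p q he
    simp only [Prod.mk.injEq] at he
    obtain ⟨e1, e2⟩ := he
    rw [e2] at e1
    exact Prod.ext (by linarith) e2
  · intro p q r
    unfold cr
    simp only [Prod.fst_sub, Prod.snd_sub]
    ring
  · intro ℓ hℓ
    obtain ⟨hab, hℓe⟩ := hw ℓ (hL ℓ hℓ)
    have hne : (w ℓ).2.1 - (w ℓ).1 * τ ≠ 0 := by
      intro h0
      rcases eq_or_ne (w ℓ).1 0 with ha | ha
      · rw [ha, zero_mul, sub_zero] at h0
        rcases hab with h | h
        · exact h ha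
        · exact h h0
      · apply hτ
        rw [Finset.mem_image]
        refine ⟨ℓ, hℓ, ?_⟩
        rw [div_eq_iff ha]
        linarith
    refine ⟨(-(w ℓ).1 / ((w ℓ).2.1 - (w ℓ).1 * τ), (w ℓ).2.2 / ((w ℓ).2.1 - (w ℓ).1 * τ)), ?_⟩
    intro p hp
    rw [hℓe] at hp
    have hp' : (w ℓ).1 * p.1 + (w ℓ).2.1 * p.2 = (w ℓ).2.2 := hp
    unfold nu
    simp only
    rw [← hp']
    field_simp
    ring

open scoped Classical in
/-- **sets on few lines** : `S` covered by the lines of `L` -/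
theorem few_lines_gen : ∃ C : ℝ, ∀ (S : Finset Pt) (L : Finset (Set Pt)), (∀ ℓ ∈ L, IsLine ℓ) →
    (∀ p ∈ S, ∃ ℓ ∈ L, p ∈ ℓ) →
    (uTri S : ℝ) ≤ C * ((S.card : ℝ) ^ 2 * min ((S.card : ℝ) ^ ((1 : ℝ) / 6))
      ((L.card : ℝ) ^ ((1 : ℝ) / 3) * (1 + Real.log (L.card : ℝ)) ^ 2)) := by
  obtain ⟨C₁, hC₁, h1⟩ := lines_tri
  obtain ⟨C₂, h2⟩ := main13_all
  refine ⟨max C₁ C₂, fun S L hL hcov => ?_⟩
  have hC0 : 0 < max C₁ C₂ := lt_max_of_lt_left hC₁
  rcases Nat.eq_zero_or_pos S.card with hS | hS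
  · have h3 := uTri_le S
    rw [hS] at h3
    have h4 : uTri S = 0 := by simpa using h3
    rw [h4, hS]
    simp
  obtain ⟨M, hM, hcr, hML⟩ := exists_shear L hL
  choose! f hf using hML
  obtain ⟨g, hg⟩ : ∃ g : Pt → Set Pt, ∀ p ∈ S, g p ∈ L ∧ p ∈ g p := by
    choose! g hg using hcov
    exact ⟨g, hg⟩
  -- the inverse of M on S
  have hcovM : Cov (S.image M) (L.image f) (fun y => f (g (Function.invFun M y))) := by
    intro y hy
    rw [Finset.mem_image] at hy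
    obtain ⟨p, hp, rfl⟩ := hy
    have hinv : Function.invFun M (M p) = p := Function.leftInverse_invFun hM p
    simp only [hinv]
    exact ⟨Finset.mem_image_of_mem _ (hg p hp).1, hf _ (hg p hp).1 p (hg p hp).2⟩
  have hcard : (S.image M).card = S.card := Finset.card_image_of_injective _ hM
  obtain ⟨h, hh⟩ : ∃ h : ℕ, h = L.card := ⟨_, rfl⟩
  have hhle : (L.image f).card ≤ h := by rw [hh]; exact Finset.card_image_le
  rw [← hh]
  have hh0 : (1 : ℝ) ≤ ((L.image f).card : ℝ) := by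
    exact_mod_cast card_L_pos hcovM (by rw [hcard]; exact hS)
  have hhle' : ((L.image f).card : ℝ) ≤ (h : ℝ) := by exact_mod_cast hhle
  have hh1 : (1 : ℝ) ≤ (h : ℝ) := by linarith
  have hn1 : (1 : ℝ) ≤ (S.card : ℝ) := by exact_mod_cast hS
  have hn0 : (0 : ℝ) < (S.card : ℝ) := by linarith
  have hl : 0 ≤ Real.log (h : ℝ) := Real.log_nonneg hh1
  have hl2 : 1 ≤ (1 + Real.log (h : ℝ)) ^ 2 := by nlinarith
  -- the general bound
  have hgen : (uTri S : ℝ) ≤ max C₁ C₂ * ((S.card : ℝ) ^ 2 * (S.card : ℝ) ^ ((1 : ℝ) / 6)) := by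
    have h3 := h2 S
    have e : (S.card : ℝ) ^ ((13 : ℝ) / 6) = (S.card : ℝ) ^ 2 * (S.card : ℝ) ^ ((1 : ℝ) / 6) := by
      rw [← Real.rpow_natCast (S.card : ℝ) 2, ← Real.rpow_add hn0]
      norm_num
    rw [e] at h3
    refine le_trans h3 ?_
    exact mul_le_mul_of_nonneg_right (le_max_right _ _) (by positivity)
  rw [mul_min_of_nonneg _ _ (by positivity), mul_min_of_nonneg _ _ hC0.le]
  refine le_min hgen ?_
  by_cases hc : (h : ℝ) ^ 2 ≤ S.card
  · have hc' : ((L.image f).card : ℝ) ^ 2 ≤ ((S.image M).card : ℝ) := by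
      rw [hcard]
      refine le_trans ?_ hc
      exact pow_le_pow_left₀ (by linarith) hhle' 2
    have h3 := h1 (S.image M) (L.image f) _ hcovM (by rw [hcard]; exact hS) hc'
    rw [hcard] at h3
    have h4 : uTri S ≤ tri (S.image M) (S.image M) := le_trans (uTri_le_tri S) (tri_image S M hM hcr)
    have h4' : (uTri S : ℝ) ≤ (tri (S.image M) (S.image M) : ℝ) := by exact_mod_cast h4
    have hl0 : 0 ≤ Real.log ((L.image f).card : ℝ) := Real.log_nonneg hh0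
    have h5 : ((L.image f).card : ℝ) ^ ((1 : ℝ) / 3) * (1 + Real.log ((L.image f).card : ℝ)) ^ 2 ≤
        (h : ℝ) ^ ((1 : ℝ) / 3) * (1 + Real.log (h : ℝ)) ^ 2 := by
      have a1 : ((L.image f).card : ℝ) ^ ((1 : ℝ) / 3) ≤ (h : ℝ) ^ ((1 : ℝ) / 3) :=
        Real.rpow_le_rpow (by linarith) hhle' (by norm_num)
      have a2 : Real.log ((L.image f).card : ℝ) ≤ Real.log (h : ℝ) :=
        Real.log_le_log (by linarith) hhle'
      have a3 : (1 + Real.log ((L.image f).card : ℝ)) ^ 2 ≤ (1 + Real.log (h : ℝ)) ^ 2 :=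
        pow_le_pow_left₀ (by linarith) (by linarith) 2
      exact mul_le_mul a1 a3 (by positivity) (by positivity)
    refine le_trans h4' (le_trans h3 ?_)
    refine mul_le_mul (le_max_left _ _) ?_ (by positivity) hC0.le
    exact mul_le_mul_of_nonneg_left h5 (by positivity)
  · push Not at hc
    refine le_trans hgen ?_
    refine mul_le_mul_of_nonneg_left ?_ hC0.le
    refine mul_le_mul_of_nonneg_left ?_ (by positivity)
    have h5 : (S.card : ℝ) ^ ((1 : ℝ) / 6) ≤ (h : ℝ) ^ ((1 : ℝ) / 3) := by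
      have h6 : (S.card : ℝ) ^ ((1 : ℝ) / 6) ≤ ((h : ℝ) ^ 2) ^ ((1 : ℝ) / 6) :=
        Real.rpow_le_rpow hn0.le hc.le (by norm_num)
      have h7 : ((h : ℝ) ^ 2) ^ ((1 : ℝ) / 6) = (h : ℝ) ^ ((1 : ℝ) / 3) := by
        rw [← Real.rpow_natCast (h : ℝ) 2, ← Real.rpow_mul (by linarith)]
        norm_num
      rw [h7] at h6
      exact h6
    exact le_trans h5 (le_mul_of_one_le_right (by positivity) hl2)

end Pool.Agent.Work.MP_916cc8_co.FL.Gen
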