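import Pool.Agent.Work.MP_916cc8_co.FL.GGeo

/-! Sets on few lines: the second moment over pencils. -/

set_option autoImplicit false

namespace Pool.Agent.Work.MP_916cc8_co.FL.Gen

open Pool.Agent.Work.MP_916cc8_co Pool.Agent.Work.MP_916cc8_co.FL

/-- parallel lines: the line of pairs of targets of the pencil at `z` -/
def lk (l l' : ℝ × ℝ) (z : Pt) : Set Pt :=
  {x | nu l' z * x.1 + (-(nu l z)) * x.2 = nu l' z * (src z l).1 - nu l z * (src z l').1}

theorem lk_isLine {l l' : ℝ × ℝ} {z : Pt} (h : nu l z ≠ 0) : IsLine (lk l l' z) :=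
  ⟨nu l' z, -(nu l z), nu l' z * (src z l).1 - nu l z * (src z l').1,
    Or.inr (neg_ne_zero.mpr h), rfl⟩

theorem lk_inj {l l' : ℝ × ℝ} {z w : Pt} (hm : l.1 = l'.1) (hl : l ≠ l') (h : lk l l' z = lk l l' w) :
    z = w := by
  have hc : l.2 ≠ l'.2 := fun h2 => hl (Prod.ext hm h2)
  have hd : l.2 - l'.2 ≠ 0 := sub_ne_zero.mpr hc
  have hN : ∀ y : Pt, nu l' y = nu l y + (l.2 - l'.2) := by
    intro y
    unfold nu
    rw [hm]
    ring
  have h0 : ((src z l).1, (src z l').1) ∈ lk l l' w := by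
    rw [← h]
    show nu l' z * (src z l).1 + (-(nu l z)) * (src z l').1 = _
    ring
  have h1 : ((src z l).1 + nu l z, (src z l').1 + nu l' z) ∈ lk l l' w := by
    rw [← h]
    show nu l' z * ((src z l).1 + nu l z) + (-(nu l z)) * ((src z l').1 + nu l' z) = _
    ring
  have h0' : nu l' w * (src z l).1 + (-(nu l w)) * (src z l').1 =
    nu l' w * (src w l).1 - nu l w * (src w l').1 := h0
  have h1' : nu l' w * ((src z l).1 + nu l z) + (-(nu l w)) * ((src z l').1 + nu l' z) =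
    nu l' w * (src w l).1 - nu l w * (src w l').1 := h1
  rw [hN w] at h0' h1'
  rw [hN z] at h1'
  have h2 : (l.2 - l'.2) * (nu l z - nu l w) = 0 := by linarith
  have h3 : nu l z = nu l w := by
    rcases mul_eq_zero.1 h2 with h | h
    · exact absurd h hd
    · exact sub_eq_zero.1 h
  have e1 : (src z l).1 - (src w l).1 = z.1 - w.1 := by
    unfold src
    rw [h3]
    ring
  have e2 : (src z l').1 - (src w l').1 = z.1 - w.1 := by
    unfold src
    simp only
    rw [hN z, hN w, h3]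
    ring
  have h4 : (l.2 - l'.2) * (z.1 - w.1) = 0 := by
    have h5 : (nu l w + (l.2 - l'.2)) * ((src z l).1 - (src w l).1) =
      nu l w * ((src z l').1 - (src w l').1) := by linarith
    rw [e1, e2] at h5
    linarith
  have h5 : z.1 = w.1 := by
    rcases mul_eq_zero.1 h4 with h | h
    · exact absurd h hd
    · exact sub_eq_zero.1 h
  refine Prod.ext h5 ?_
  unfold nu at h3
  rw [h5] at h3
  linarith

/-- the hyperbola of pairs of targets of the pencil at `z` -/
noncomputable def kap (l l' : ℝ × ℝ) (z : Pt) : ℝ × ℝ × ℝ :=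
  (-(nu l' z) / (l'.1 - l.1) - 2 / nu l z, nu l z / (l'.1 - l.1) - 2 / nu l' z,
    -(nu l z * nu l' z) / (l'.1 - l.1) ^ 2)

theorem kap_fam {l l' : ℝ × ℝ} {z : Pt} (hm : l.1 ≠ l'.1) (h : nu l z ≠ 0) (h' : nu l' z ≠ 0) :
    Fam (4 / (l'.1 - l.1) ^ 2) (kap l l' z) := by
  have hD : l'.1 - l.1 ≠ 0 := sub_ne_zero.mpr (Ne.symm hm)
  unfold Fam kap
  simp only
  generalize l'.1 - l.1 = D at *
  generalize nu l z = N at *
  generalize nu l' z = N' at *
  constructor
  · intro h0
    rw [div_eq_zero_iff] at h0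
    rcases h0 with h0 | h0
    · rw [neg_eq_zero, mul_eq_zero] at h0
      tauto
    · exact hD (pow_eq_zero_iff (two_ne_zero) |>.1 h0)
  · field_simp
    ring

theorem kap_inj {l l' : ℝ × ℝ} {z w : Pt} (hm : l.1 ≠ l'.1) (hz : nu l z ≠ 0) (hz' : nu l' z ≠ 0)
    (hw : nu l w ≠ 0) (hw' : nu l' w ≠ 0) (h : kap l l' z = kap l l' w) : z = w := by
  have hD : l'.1 - l.1 ≠ 0 := sub_ne_zero.mpr (Ne.symm hm)
  have key : nu l z = nu l w ∧ nu l' z = nu l' w := by
    unfold kap at h
    simp only [Prod.mk.injEq] at h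
    obtain ⟨e1, e2, e3⟩ := h
    generalize l'.1 - l.1 = D at *
    generalize nu l z = N at *
    generalize nu l' z = N' at *
    generalize nu l w = M at *
    generalize nu l' w = M' at *
    have hP : N * N' = M * M' := by
      have h1 : -(N * N') = -(M * M') := by
        have hD2 : D ^ 2 ≠ 0 := pow_ne_zero 2 hD
        field_simp at e3
        linarith
      linarith
    have hP0 : M * M' ≠ 0 := mul_ne_zero hw hw'
    -- A = -N' (1/D + 2/P), B = N (1/D - 2/P)
    have a1 : 2 / N = 2 * N' / (M * M') := by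
      rw [← hP]
      field_simp
    have a2 : 2 / M = 2 * M' / (M * M') := by field_simp
    have a3 : 2 / N' = 2 * N / (M * M') := by
      rw [← hP]
      field_simp
    have a4 : 2 / M' = 2 * M / (M * M') := by field_simp
    rw [a1, a2] at e1
    rw [a3, a4] at e2
    have f1 : (N' - M') * (1 / D + 2 / (M * M')) = 0 := by
      have : -N' / D - 2 * N' / (M * M') - (-M' / D - 2 * M' / (M * M')) =
        -((N' - M') * (1 / D + 2 / (M * M'))) := by ring
      have e4 : -N' / D - 2 * N' / (M * M') - (-M' / D - 2 * M' / (M * M')) = 0 := by linarith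
      linarith
    have f2 : (N - M) * (1 / D - 2 / (M * M')) = 0 := by
      have : N / D - 2 * N / (M * M') - (M / D - 2 * M / (M * M')) =
        (N - M) * (1 / D - 2 / (M * M')) := by ring
      have e4 : N / D - 2 * N / (M * M') - (M / D - 2 * M / (M * M')) = 0 := by linarith
      linarith
    rcases mul_eq_zero.1 f1 with g | g
    · have g' : N' = M' := by linarith
      rw [g'] at hP
      exact ⟨mul_right_cancel₀ hw' hP, g'⟩
    · rcases mul_eq_zero.1 f2 with k | k
      · have k' : N = M := by linarith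
        rw [k'] at hP
        exact ⟨k', mul_left_cancel₀ hw hP⟩
      · exfalso
        have : (2 : ℝ) / D = 0 := by
          have e : (2 : ℝ) / D = (1 / D + 2 / (M * M')) + (1 / D - 2 / (M * M')) := by ring
          rw [e, g, k, add_zero]
        rw [div_eq_zero_iff] at this
        rcases this with h | h
        · norm_num at h
        · exact hD h
  obtain ⟨k1, k2⟩ := key
  unfold nu at k1 k2
  have h1 : (l'.1 - l.1) * (z.1 - w.1) = 0 := by linarith
  have h2 : z.1 = w.1 := by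
    rcases mul_eq_zero.1 h1 with h | h
    · exact absurd h hD
    · linarith
  rw [h2] at k1
  exact Prod.ext h2 (by linarith)

/-- the directions of two pairs with the same flag -/
theorem fl_cr {c : Pt → ℝ × ℝ} {x y : Pt × Pt} (hx : nu (c x.2) x.1 ≠ 0) (hx2 : nu (c x.2) x.2 = 0)
    (h : fl c x = fl c y) : cr (x.2 - x.1) (y.2 - y.1) = 0 := by
  unfold fl at h
  rw [Prod.mk.injEq] at h
  obtain ⟨_, ht⟩ := h
  have h1 : zz x.1 (c x.2) ∈ top x.1 x.2 := zz_mem_top hx2 hx
  have h2 : zz x.1 (c x.2) ∈ top y.1 y.2 := by rw [← ht]; exact h1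
  have h3 : zz x.1 (c x.2) + (x.2 - x.1) ∈ top y.1 y.2 := by
    rw [← ht]
    have h1' : cr (x.2 - x.1) (zz x.1 (c x.2) - x.1) = 2 := h1
    show cr (x.2 - x.1) (zz x.1 (c x.2) + (x.2 - x.1) - x.1) = 2
    unfold cr at h1' ⊢
    simp only [Prod.fst_sub, Prod.snd_sub, Prod.fst_add, Prod.snd_add] at h1' ⊢
    linarith
  have h2' : cr (y.2 - y.1) (zz x.1 (c x.2) - y.1) = 2 := h2
  have h3' : cr (y.2 - y.1) (zz x.1 (c x.2) + (x.2 - x.1) - y.1) = 2 := h3
  unfold cr at h2' h3' ⊢
  simp only [Prod.fst_sub, Prod.snd_sub, Prod.fst_add, Prod.snd_add] at h2' h3' ⊢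
  linarith

/-- the relation of the targets, in coordinates -/
theorem rel_eq {l l' : ℝ × ℝ} {z r r' : Pt} (hr : nu l r = 0) (hr' : nu l' r' = 0)
    (h : cr (r - src z l) (r' - src z l') = 0) :
    (l'.1 - l.1) * ((r.1 - (src z l).1) * (r'.1 - (src z l').1)) -
      nu l' z * (r.1 - (src z l).1) + nu l z * (r'.1 - (src z l').1) = 0 := by
  have e1 : (src z l).2 = l.1 * (src z l).1 + l.2 + nu l z := by
    have := nu_src z l
    unfold nu at this ⊢
    linarith
  have e2 : (src z l').2 = l'.1 * (src z l').1 + l'.2 + nu l' z := by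
    have := nu_src z l'
    unfold nu at this ⊢
    linarith
  have e3 : r.2 = l.1 * r.1 + l.2 := by unfold nu at hr; linarith
  have e4 : r'.2 = l'.1 * r'.1 + l'.2 := by unfold nu at hr'; linarith
  unfold cr at h
  simp only [Prod.fst_sub, Prod.snd_sub] at h
  rw [e1, e2, e3, e4] at h
  linear_combination h

theorem mem_lk {l l' : ℝ × ℝ} {z r r' : Pt} (hm : l.1 = l'.1) (hr : nu l r = 0) (hr' : nu l' r' = 0)
    (h : cr (r - src z l) (r' - src z l') = 0) : ((r.1, r'.1) : Pt) ∈ lk l l' z := by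
  have h1 := rel_eq hr hr' h
  show nu l' z * r.1 + (-(nu l z)) * r'.1 = nu l' z * (src z l).1 - nu l z * (src z l').1
  rw [hm, sub_self, zero_mul] at h1
  linarith

theorem mem_hyp {l l' : ℝ × ℝ} {z r r' : Pt} (hm : l.1 ≠ l'.1) (hr : nu l r = 0) (hr' : nu l' r' = 0)
    (h : cr (r - src z l) (r' - src z l') = 0) :
    ((r.1 - (l.2 - l'.2) / (l'.1 - l.1), r'.1 - (l.2 - l'.2) / (l'.1 - l.1)) : Pt) ∈
      hyp (kap l l' z) := by
  have h1 := rel_eq hr hr' h
  have hD : l'.1 - l.1 ≠ 0 := sub_ne_zero.mpr (Ne.symm hm)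
  obtain ⟨D, hDd⟩ : ∃ D, D = l'.1 - l.1 := ⟨_, rfl⟩
  obtain ⟨o, ho⟩ : ∃ o, o = (l.2 - l'.2) / (l'.1 - l.1) := ⟨_, rfl⟩
  have e0 : z.1 - o = (nu l z - nu l' z) / D := by
    rw [ho, hDd, eq_div_iff hD]
    unfold nu
    field_simp
    ring
  have e1 : (src z l).1 = o + (nu l z - nu l' z) / D - 2 / nu l z := by
    rw [← e0]
    unfold src
    simp only
    ring
  have e2 : (src z l').1 = o + (nu l z - nu l' z) / D - 2 / nu l' z := by
    rw [← e0]
    unfold src
    simp only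
    ring
  show (r.1 - (l.2 - l'.2) / (l'.1 - l.1) - (kap l l' z).1) *
    (r'.1 - (l.2 - l'.2) / (l'.1 - l.1) - (kap l l' z).2.1) = (kap l l' z).2.2
  have hD' : D ≠ 0 := by rw [hDd]; exact hD
  unfold kap
  simp only
  rw [← ho, ← hDd]
  rw [← hDd, e1, e2] at h1
  generalize nu l z = N at *
  generalize nu l' z = N' at *
  generalize 2 / N = a at *
  generalize 2 / N' = b at *
  have f1 : r.1 - o - (-N' / D - a) = (r.1 - (o + (N - N') / D - a)) + N / D := by ring
  have f2 : r'.1 - o - (N / D - b) = (r'.1 - (o + (N - N') / D - b)) - N' / D := by ring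
  rw [f1, f2]
  generalize r.1 - (o + (N - N') / D - a) = T at *
  generalize r'.1 - (o + (N - N') / D - b) = T' at *
  field_simp
  linear_combination D * h1

section
open scoped Classical

/-- pairs of pairs with the same flag -/
noncomputable def RR (S : Finset Pt) (L : Finset (ℝ × ℝ)) (c : Pt → ℝ × ℝ) (Z : Finset Pt)
    (l l' : ℝ × ℝ) : Finset ((Pt × Pt) × (Pt × Pt)) :=
  (BB S L c ×ˢ BB S L c).filter (fun w => fl c w.1 = fl c w.2 ∧ (fl c w.1).1 ∈ Z ∧
    c w.1.2 = l ∧ c w.2.2 = l')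

noncomputable def Zjk (S : Finset Pt) (L : Finset (ℝ × ℝ)) (Z : Finset Pt) (l l' : ℝ × ℝ) :
    Finset Pt := Z.filter (fun z => l ∈ Jz S L z ∧ l' ∈ Jz S L z)

noncomputable def Gjk (S : Finset Pt) (c : Pt → ℝ × ℝ) (o : ℝ) (l l' : ℝ × ℝ) : Finset Pt :=
  ((row S c l).image (fun p => p.1 - o)) ×ˢ ((row S c l').image (fun p => p.1 - o))

variable {S : Finset Pt} {L : Finset (ℝ × ℝ)} {c : Pt → ℝ × ℝ}

theorem row_fst_inj (hc : Cov S L c) (l : ℝ × ℝ) {p q : Pt} (hp : p ∈ row S c l)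
    (hq : q ∈ row S c l) (h : p.1 = q.1) : p = q := by
  unfold row at hp hq
  rw [Finset.mem_filter] at hp hq
  have h1 := (hc p hp.1).2
  have h2 := (hc q hq.1).2
  rw [hp.2] at h1
  rw [hq.2] at h2
  unfold nu at h1 h2
  rw [h] at h1
  exact Prod.ext h (by linarith)

theorem card_Gjk (hc : Cov S L c) (o : ℝ) (l l' : ℝ × ℝ) :
    (Gjk S c o l l').card = (row S c l).card * (row S c l').card := by
  have h : ∀ i : ℝ × ℝ, ((row S c i).image (fun p => p.1 - o)).card = (row S c i).card := by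
    intro i
    refine Finset.card_image_of_injOn ?_
    intro a ha b hb hab
    have hab' : a.1 - o = b.1 - o := hab
    exact row_fst_inj hc i (Finset.mem_coe.1 ha) (Finset.mem_coe.1 hb) (by linarith)
  unfold Gjk
  rw [Finset.card_product, h, h]

theorem RR_le (hc : Cov S L c) (Z : Finset Pt) (l l' : ℝ × ℝ) (o : ℝ) (cur : Pt → Set Pt)
    (hcur : ∀ z r r' : Pt, nu l r = 0 → nu l' r' = 0 → cr (r - src z l) (r' - src z l') = 0 →
      ((r.1 - o, r'.1 - o) : Pt) ∈ cur z) :
    (RR S L c Z l l').card ≤ ∑ z ∈ Zjk S L Z l l', rich (Gjk S c o l l') (cur z) := by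
  have h1 : ∑ z ∈ Zjk S L Z l l', rich (Gjk S c o l l') (cur z) =
      ((Zjk S L Z l l' ×ˢ Gjk S c o l l').filter (fun a => a.2 ∈ cur a.1)).card := by
    unfold rich
    rw [Finset.card_filter, Finset.sum_product]
    refine Finset.sum_congr rfl fun z _ => ?_
    rw [Finset.card_filter]
  rw [h1]
  refine Finset.card_le_card_of_injOn (fun w => (zz w.1.1 (c w.1.2), (w.1.2.1 - o, w.2.2.1 - o))) ?_ ?_
  · intro w hw
    have hw' := Finset.mem_filter.1 (Finset.mem_coe.1 hw)
    obtain ⟨hB, hf, hZ, rfl, rfl⟩ := hw'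
    rw [Finset.mem_product] at hB
    obtain ⟨a1, a2, a3, a4⟩ := mem_BB.1 hB.1
    obtain ⟨b1, b2, b3, b4⟩ := mem_BB.1 hB.2
    have hz : zz w.1.1 (c w.1.2) = zz w.2.1 (c w.2.2) := congrArg Prod.fst hf
    rw [Finset.mem_coe, Finset.mem_filter, Finset.mem_product]
    have n1 := (hc _ a2).2
    have n2 := (hc _ b2).2
    refine ⟨⟨?_, ?_⟩, ?_⟩
    · unfold Zjk
      rw [Finset.mem_filter]
      refine ⟨hZ, mem_Jz_of_BB hc hB.1, ?_⟩
      show c w.2.2 ∈ Jz S L (zz w.1.1 (c w.1.2))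
      rw [hz]
      exact mem_Jz_of_BB hc hB.2
    · unfold Gjk
      rw [Finset.mem_product]
      refine ⟨Finset.mem_image.2 ⟨w.1.2, ?_, rfl⟩, Finset.mem_image.2 ⟨w.2.2, ?_, rfl⟩⟩
      · unfold row
        rw [Finset.mem_filter]
        exact ⟨a2, rfl⟩
      · unfold row
        rw [Finset.mem_filter]
        exact ⟨b2, rfl⟩
    · refine hcur _ _ _ n1 n2 ?_
      rw [src_zz]
      have h2 : src (zz w.1.1 (c w.1.2)) (c w.2.2) = w.2.1 := by rw [hz, src_zz]
      rw [h2]
      exact fl_cr a3 n1 hf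
  · intro w hw v hv he
    have hw' := Finset.mem_filter.1 (Finset.mem_coe.1 hw)
    have hv' := Finset.mem_filter.1 (Finset.mem_coe.1 hv)
    obtain ⟨hB, hf, _, hj, hk⟩ := hw'
    obtain ⟨hB', hf', _, hj', hk'⟩ := hv'
    rw [Finset.mem_product] at hB hB'
    have a2 := (mem_BB.1 hB.1).2.1
    have b2 := (mem_BB.1 hB.2).2.1
    have a2' := (mem_BB.1 hB'.1).2.1
    have b2' := (mem_BB.1 hB'.2).2.1
    simp only [Prod.mk.injEq] at he
    obtain ⟨e1, e2, e3⟩ := he
    have hz : zz w.1.1 (c w.1.2) = zz w.2.1 (c w.2.2) := congrArg Prod.fst hf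
    have hz' : zz v.1.1 (c v.1.2) = zz v.2.1 (c v.2.2) := congrArg Prod.fst hf'
    have k1 : w.1.1 = v.1.1 := by
      rw [← src_zz w.1.1 (c w.1.2), e1, hj, ← hj', src_zz]
    have k2 : w.1.2 = v.1.2 := by
      refine row_fst_inj hc l ?_ ?_ (by linarith)
      · unfold row
        exact Finset.mem_filter.2 ⟨a2, hj⟩
      · unfold row
        exact Finset.mem_filter.2 ⟨a2', hj'⟩
    have k3 : w.2.1 = v.2.1 := by
      rw [← src_zz w.2.1 (c w.2.2), ← hz, e1, hz', hk, ← hk', src_zz]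
    have k4 : w.2.2 = v.2.2 := by
      refine row_fst_inj hc l' ?_ ?_ (by linarith)
      · unfold row
        exact Finset.mem_filter.2 ⟨b2, hk⟩
      · unfold row
        exact Finset.mem_filter.2 ⟨b2', hk'⟩
    exact Prod.ext (Prod.ext k1 k2) (Prod.ext k3 k4)

theorem sum_sq_eq (Z : Finset Pt) :
    ∑ g ∈ (FF S L c).filter (fun g => g.1 ∈ Z), (dd S L c g) ^ 2 =
      ((BB S L c ×ˢ BB S L c).filter (fun w => fl c w.1 = fl c w.2 ∧ (fl c w.1).1 ∈ Z)).card := by
  have h1 : ((BB S L c ×ˢ BB S L c).filter (fun w => fl c w.1 = fl c w.2 ∧ (fl c w.1).1 ∈ Z)) =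
      ((FF S L c).filter (fun g => g.1 ∈ Z)).biUnion (fun g =>
        ((BB S L c).filter (fun x => fl c x = g)) ×ˢ ((BB S L c).filter (fun x => fl c x = g))) := by
    ext w
    simp only [Finset.mem_filter, Finset.mem_product, Finset.mem_biUnion]
    constructor
    · rintro ⟨⟨a, b⟩, c', d⟩
      exact ⟨fl c w.1, ⟨Finset.mem_image_of_mem _ a, d⟩, ⟨a, rfl⟩, b, c'.symm⟩
    · rintro ⟨g, ⟨_, d⟩, ⟨a, e⟩, b, f⟩
      exact ⟨⟨a, b⟩, e.trans f.symm, by rw [e]; exact d⟩
  rw [h1, Finset.card_biUnion]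
  · refine Finset.sum_congr rfl fun g _ => ?_
    rw [Finset.card_product, pow_two]
    rfl
  · intro g _ g' _ hgg
    rw [Function.onFun, Finset.disjoint_left]
    intro w hw hw'
    rw [Finset.mem_product, Finset.mem_filter, Finset.mem_filter] at hw hw'
    exact hgg (hw.1.2.symm.trans hw'.1.2)

theorem sum_sq_le (hc : Cov S L c) (Z : Finset Pt) :
    ∑ g ∈ (FF S L c).filter (fun g => g.1 ∈ Z), (dd S L c g) ^ 2 ≤ (BB S L c).card +
      ∑ j ∈ L, ∑ k ∈ L, if j ≠ k then (RR S L c Z j k).card else 0 := by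
  rw [sum_sq_eq]
  set A := (BB S L c ×ˢ BB S L c).filter (fun w => fl c w.1 = fl c w.2 ∧ (fl c w.1).1 ∈ Z) with hA
  have h1 : A ⊆ ((BB S L c).image (fun x => (x, x))) ∪
      ((L ×ˢ L).filter (fun c => c.1 ≠ c.2)).biUnion (fun d => RR S L c Z d.1 d.2) := by
    intro w hw
    rw [hA, Finset.mem_filter, Finset.mem_product] at hw
    obtain ⟨⟨a, b⟩, c', d⟩ := hw
    rw [Finset.mem_union]
    by_cases e : c w.1.2 = c w.2.2
    · left
      rw [Finset.mem_image]
      refine ⟨w.1, a, ?_⟩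
      have := fl_inj (ne_of_BB hc a) c' e
      exact Prod.ext rfl this
    · right
      rw [Finset.mem_biUnion]
      refine ⟨(c w.1.2, c w.2.2), ?_, ?_⟩
      · rw [Finset.mem_filter, Finset.mem_product]
        have c1 : c w.1.2 ∈ L := (hc _ (mem_BB.1 a).2.1).1
        have c2 : c w.2.2 ∈ L := (hc _ (mem_BB.1 b).2.1).1
        exact ⟨⟨c1, c2⟩, e⟩
      · unfold RR
        rw [Finset.mem_filter, Finset.mem_product]
        exact ⟨⟨a, b⟩, c', d, rfl, rfl⟩
  refine le_trans (Finset.card_le_card h1) (le_trans (Finset.card_union_le _ _) ?_)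
  refine Nat.add_le_add Finset.card_image_le ?_
  refine le_trans Finset.card_biUnion_le ?_
  rw [Finset.sum_filter, Finset.sum_product]

end

end Pool.Agent.Work.MP_916cc8_co.FL.Gen
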