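import Pool.Agent.Work.MP_916cc8_co.FL.Mom

/-! Sets on few parallel lines: the bound for the second moment. -/

set_option autoImplicit false

namespace Pool.Agent.Work.MP_916cc8_co.FL

open Pool.Agent.Work.MP_916cc8_co

open scoped Classical in
theorem sum_ww (S Z : Finset Pt) :
    ∑ j ∈ Yy S, ∑ k ∈ Yy S, om S j * om S k * ((Zjk S Z j k).card : ℝ) = ∑ z ∈ Z, (W S z) ^ 2 := by
  have h1 : ∀ z : Pt, W S z = ∑ j ∈ Yy S, if j ∈ Jz S z then om S j else 0 := by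
    intro z
    unfold W
    rw [← Finset.sum_filter]
    refine Finset.sum_congr ?_ fun _ _ => rfl
    ext j
    rw [Finset.mem_filter]
    constructor
    · intro h
      refine ⟨?_, h⟩
      unfold Jz at h
      exact (Finset.mem_filter.1 h).1
    · exact fun h => h.2
  have h2 : ∀ j k : ℝ, ((Zjk S Z j k).card : ℝ) = ∑ z ∈ Z, if j ∈ Jz S z ∧ k ∈ Jz S z then (1 : ℝ) else 0 := by
    intro j k
    unfold Zjk
    rw [Finset.card_filter]
    push_cast
    rfl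
  have h3 : ∀ z ∈ Z, (W S z) ^ 2 = ∑ j ∈ Yy S, ∑ k ∈ Yy S,
      om S j * om S k * (if j ∈ Jz S z ∧ k ∈ Jz S z then (1 : ℝ) else 0) := by
    intro z _
    rw [h1, pow_two, Finset.sum_mul_sum]
    refine Finset.sum_congr rfl fun j _ => Finset.sum_congr rfl fun k _ => ?_
    by_cases a : j ∈ Jz S z <;> by_cases b : k ∈ Jz S z <;> simp [a, b]
  rw [Finset.sum_congr rfl h3, Finset.sum_comm (s := Z)]
  refine Finset.sum_congr rfl fun j _ => ?_
  rw [Finset.sum_comm (s := Z)]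
  refine Finset.sum_congr rfl fun k _ => ?_
  rw [h2, Finset.mul_sum]

theorem row_le (S : Finset Pt) (j : ℝ) (hS : 0 < S.card) :
    ((row S j).card : ℝ) ≤ (S.card : ℝ) / (Yy S).card * om S j := by
  have hn : (0 : ℝ) < S.card := by exact_mod_cast hS
  have hh : 0 < (Yy S).card := by
    rw [Finset.card_pos]
    unfold Yy
    exact (Finset.card_pos.1 hS).image _
  have hh' : (0 : ℝ) < (Yy S).card := by exact_mod_cast hh
  unfold om
  rw [mul_add, mul_one]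
  have h1 : (S.card : ℝ) / (Yy S).card * (((Yy S).card : ℝ) * ((row S j).card : ℝ) / (S.card : ℝ)) =
      (row S j).card := by
    field_simp
  rw [h1]
  have : 0 ≤ (S.card : ℝ) / (Yy S).card := by positivity
  linarith

theorem real1 {a b oj ok z z' c t C X : ℝ} (ha : 0 ≤ a) (hb : 0 ≤ b) (hoj : 1 ≤ oj) (hok : 1 ≤ ok)
    (r1 : a ≤ c * t * oj) (r2 : b ≤ c * t * ok) (hz : 0 ≤ z) (hzz : z' ≤ z)
    (ht : 0 < t) (hc : 0 < c) (hC : 0 < C)
    (hX : X ≤ (2 + c * (oj * ok)) * z' + C * ((a * b) ^ 2 / (2 + c * (oj * ok)) ^ 2) + 2 * (a * b)) :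
    X ≤ (2 + c) * (oj * ok * z) + (C * t ^ 2 + 2) * (a * b) := by
  have hw1 : 1 ≤ oj * ok := by nlinarith
  have hA0 : 0 ≤ a * b := mul_nonneg ha hb
  have hAle : a * b ≤ (c * t * (oj * ok)) ^ 2 := by
    have e1 : a * b ≤ (c * t * oj) * (c * t * ok) := mul_le_mul r1 r2 hb (by positivity)
    have e3 : (c * t) ^ 2 * (oj * ok) ≤ (c * t) ^ 2 * ((oj * ok) * (oj * ok)) := by
      refine mul_le_mul_of_nonneg_left ?_ (by positivity)
      nlinarith
    calc a * b ≤ _ := e1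
      _ = (c * t) ^ 2 * (oj * ok) := by ring
      _ ≤ _ := e3
      _ = _ := by ring
  generalize a * b = A at *
  generalize oj * ok = w at *
  have hw0 : 0 < w := by linarith
  have h5 : A ^ 2 / (2 + c * w) ^ 2 ≤ A * t ^ 2 := by
    rw [div_le_iff₀ (by positivity)]
    have e4 : (c * w) ^ 2 ≤ (2 + c * w) ^ 2 := by
      refine pow_le_pow_left₀ (by positivity) ?_ 2
      linarith
    calc A ^ 2 = A * A := by ring
      _ ≤ A * (c * t * w) ^ 2 := mul_le_mul_of_nonneg_left hAle hA0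
      _ = (A * t ^ 2) * (c * w) ^ 2 := by ring
      _ ≤ (A * t ^ 2) * (2 + c * w) ^ 2 := mul_le_mul_of_nonneg_left e4 (by positivity)
  have h6 : (2 + c * w) * z' ≤ (2 + c) * (w * z) := by
    have e5 : (2 + c * w) * z' ≤ (2 + c * w) * z := mul_le_mul_of_nonneg_left hzz (by positivity)
    have e6 : z ≤ w * z := le_mul_of_one_le_left hz hw1
    have e7 : (2 + c * w) * z = 2 * z + c * (w * z) := by ring
    have e8 : (2 + c) * (w * z) = 2 * (w * z) + c * (w * z) := by ring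
    linarith
  have h7 := mul_le_mul_of_nonneg_left h5 hC.le
  calc X ≤ _ := hX
    _ ≤ (2 + c) * (w * z) + C * (A * t ^ 2) + 2 * A := by linarith
    _ = _ := by ring

theorem real2 {n h t c C B D Q : ℝ} (hn0 : 0 < n) (hh0 : 0 < h) (ht : 1 ≤ t)
    (ht3 : t ^ 3 ≤ 2 * h) (hh2 : h ^ 2 ≤ n) (hc : c = n / (h * t))
    (hB : B ≤ n ^ 2) (hD : D ≤ (2 + c) * (2 * t ^ 3 * (2 * h * n)) + (C * t ^ 2 + 2) * n ^ 2)
    (hQ : Q ≤ B + D) : Q ≤ (C + 23) * t ^ 2 * n ^ 2 := by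
  have ht0 : 0 < t := by linarith
  have ht2 : 1 ≤ t ^ 2 := by nlinarith
  have htn : t * h ≤ 2 * n := by
    have e1 : t ≤ 2 * h := by
      have : t ≤ t ^ 3 := by nlinarith
      linarith
    nlinarith
  have e2 : c * (2 * t ^ 3 * (2 * h * n)) = 4 * t ^ 2 * n ^ 2 := by
    rw [hc]
    field_simp
    ring
  have e3 : 2 * (2 * t ^ 3 * (2 * h * n)) ≤ 16 * (t ^ 2 * n ^ 2) := by
    have : 2 * (2 * t ^ 3 * (2 * h * n)) = 8 * (t ^ 2 * n) * (t * h) := by ring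
    rw [this]
    have h1 : 8 * (t ^ 2 * n) * (t * h) ≤ 8 * (t ^ 2 * n) * (2 * n) :=
      mul_le_mul_of_nonneg_left htn (by positivity)
    linarith
  have e4 : n ^ 2 ≤ t ^ 2 * n ^ 2 := le_mul_of_one_le_left (sq_nonneg n) ht2
  have e5 : (2 + c) * (2 * t ^ 3 * (2 * h * n)) =
    2 * (2 * t ^ 3 * (2 * h * n)) + c * (2 * t ^ 3 * (2 * h * n)) := by ring
  rw [e5, e2] at hD
  have e6 : (C + 23) * t ^ 2 * n ^ 2 = C * t ^ 2 * n ^ 2 + 23 * (t ^ 2 * n ^ 2) := by ring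
  have e7 : (C * t ^ 2 + 2) * n ^ 2 = C * t ^ 2 * n ^ 2 + 2 * n ^ 2 := by ring
  rw [e6]
  rw [e7] at hD
  linarith

open scoped Classical in
theorem pair_le (C : ℝ) (hC : 0 < C) (hinc : ∀ (G : Finset Pt) (L : Finset (Set Pt)) (k : ℝ), 2 ≤ k →
    (∀ ℓ ∈ L, IsLine ℓ) →
    (∑ ℓ ∈ L, (rich G ℓ : ℝ)) ≤ k * L.card + C * ((G.card : ℝ) ^ 2 / k ^ 2) + 2 * G.card)
    (S Z : Finset Pt) (t c : ℝ) (ht : 0 < t) (hc : 0 < c) (hS : 0 < S.card)
    (hct : c * t = (S.card : ℝ) / (Yy S).card) (j k : ℝ) (hjk : j ≠ k) :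
    ((RR S Z j k).card : ℝ) ≤ (2 + c) * (om S j * om S k * ((Zjk S Z j k).card : ℝ)) +
        (C * t ^ 2 + 2) * (((row S j).card : ℝ) * ((row S k).card : ℝ)) := by
  have hoj := one_le_om S j
  have hok := one_le_om S k
  have hojk : 1 ≤ om S j * om S k := by nlinarith
  have hz0 : (0 : ℝ) ≤ ((Zjk S Z j k).card : ℝ) := Nat.cast_nonneg _
  have hA0 : (0 : ℝ) ≤ ((row S j).card : ℝ) * ((row S k).card : ℝ) := by positivity
  have h1 : ((RR S Z j k).card : ℝ) ≤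
      ∑ ℓ ∈ (Zjk S Z j k).image (lk j k), (rich (Gjk S j k) ℓ : ℝ) := by
    exact_mod_cast RR_le S Z hjk
  have h2 := hinc (Gjk S j k) ((Zjk S Z j k).image (lk j k)) (2 + c * (om S j * om S k))
    (by have : 0 ≤ c * (om S j * om S k) := by positivity
        linarith)
    (by
      intro ℓ hℓ
      rw [Finset.mem_image] at hℓ
      obtain ⟨z, hz, rfl⟩ := hℓ
      unfold Zjk at hz
      rw [Finset.mem_filter] at hz
      have h3 := hz.2.1
      unfold Jz at h3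
      rw [Finset.mem_filter] at h3
      exact lk_isLine h3.2.1)
  have h3 : (((Zjk S Z j k).image (lk j k)).card : ℝ) ≤ ((Zjk S Z j k).card : ℝ) := by
    exact_mod_cast Finset.card_image_le
  have h4 : ((Gjk S j k).card : ℝ) = ((row S j).card : ℝ) * ((row S k).card : ℝ) := by
    rw [card_Gjk]
    push_cast
    rfl
  have r1 := row_le S j hS
  have r2 := row_le S k hS
  rw [← hct] at r1 r2
  rw [h4] at h2
  exact real1 (Nat.cast_nonneg _) (Nat.cast_nonneg _) hoj hok r1 r2 hz0 h3 ht hc hC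
    (h1.trans h2)

open scoped Classical in
theorem mom_le : ∃ C : ℝ, 0 < C ∧ ∀ (S Z : Finset Pt) (t : ℝ), 1 ≤ t → 0 < S.card →
    t ^ 3 ≤ 2 * (Yy S).card → ((Yy S).card : ℝ) ^ 2 ≤ S.card →
    (∀ z ∈ Z, W S z ≤ 2 * t ^ 3) →
    (∑ g ∈ (FF S).filter (fun g => g.1 ∈ Z), ((dd S g : ℝ)) ^ 2) ≤ C * t ^ 2 * (S.card : ℝ) ^ 2 := by
  obtain ⟨C, hC, hinc⟩ := inc1
  refine ⟨C + 23, by linarith, fun S Z t ht hS ht3 hh2 hZ => ?_⟩
  have hn0 : (0 : ℝ) < (S.card : ℝ) := by exact_mod_cast hS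
  have hh0 : (0 : ℝ) < ((Yy S).card : ℝ) := by
    have : 0 < (Yy S).card := by
      rw [Finset.card_pos]
      unfold Yy
      exact (Finset.card_pos.1 hS).image _
    exact_mod_cast this
  have ht0 : 0 < t := by linarith
  obtain ⟨c, hc⟩ : ∃ c : ℝ, c = (S.card : ℝ) / (((Yy S).card : ℝ) * t) := ⟨_, rfl⟩
  have hc0 : 0 < c := by rw [hc]; positivity
  have hct : c * t = (S.card : ℝ) / (Yy S).card := by
    rw [hc]
    field_simp
  have hone : ∀ j ∈ Yy S, ∀ k ∈ Yy S, (((if j ≠ k then (RR S Z j k).card else 0 : ℕ)) : ℝ) ≤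
      (2 + c) * (om S j * om S k * ((Zjk S Z j k).card : ℝ)) +
        (C * t ^ 2 + 2) * (((row S j).card : ℝ) * ((row S k).card : ℝ)) := by
    intro j _ k _
    by_cases hjk : j ≠ k
    · rw [if_pos hjk]
      exact pair_le C hC hinc S Z t c ht0 hc0 hS hct j k hjk
    · rw [if_neg hjk]
      have hoj := one_le_om S j
      have hok := one_le_om S k
      push_cast
      positivity
  have hsum := sum_sq_le S Z
  have hsum' : (∑ g ∈ (FF S).filter (fun g => g.1 ∈ Z), ((dd S g : ℝ)) ^ 2) ≤ ((BB S).card : ℝ) +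
      ∑ j ∈ Yy S, ∑ k ∈ Yy S, (((if j ≠ k then (RR S Z j k).card else 0 : ℕ)) : ℝ) := by
    exact_mod_cast hsum
  have hW : (∑ z ∈ Z, (W S z) ^ 2) ≤ 2 * t ^ 3 * (2 * (Yy S).card * S.card) := by
    have h1 : ∀ z ∈ Z, (W S z) ^ 2 ≤ 2 * t ^ 3 * W S z := by
      intro z hz
      have h2 := hZ z hz
      have h3 : 0 ≤ W S z := le_trans (Nat.cast_nonneg _) (card_le_W S z)
      rw [pow_two]
      exact mul_le_mul_of_nonneg_right h2 h3
    refine le_trans (Finset.sum_le_sum h1) ?_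
    rw [← Finset.mul_sum]
    exact mul_le_mul_of_nonneg_left (sum_W_le S Z) (by positivity)
  have hrows : (∑ j ∈ Yy S, ((row S j).card : ℝ) * ∑ k ∈ Yy S, ((row S k).card : ℝ)) =
      (S.card : ℝ) ^ 2 := by
    rw [← Finset.sum_mul, sum_row]
    ring
  have hdouble : ∑ j ∈ Yy S, ∑ k ∈ Yy S, (((if j ≠ k then (RR S Z j k).card else 0 : ℕ)) : ℝ) ≤
      (2 + c) * (2 * t ^ 3 * (2 * (Yy S).card * S.card)) + (C * t ^ 2 + 2) * (S.card : ℝ) ^ 2 := by
    refine le_trans (Finset.sum_le_sum fun j hj => Finset.sum_le_sum fun k hk => hone j hj k hk) ?_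
    simp only [Finset.sum_add_distrib, ← Finset.mul_sum]
    rw [sum_ww, hrows]
    have := mul_le_mul_of_nonneg_left hW (by positivity : (0 : ℝ) ≤ 2 + c)
    linarith
  exact real2 hn0 hh0 ht ht3 hh2 hc (card_BB_le S) hdouble hsum'

end Pool.Agent.Work.MP_916cc8_co.FL
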