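import Pool.Agent.Work.MP_916cc8_co.FL.GMom
import Pool.Agent.Work.MP_916cc8_co.FL.Mom2

/-! Sets on few lines: the bound for the second moment. -/

set_option autoImplicit false

namespace Pool.Agent.Work.MP_916cc8_co.FL.Gen

open Pool.Agent.Work.MP_916cc8_co Pool.Agent.Work.MP_916cc8_co.FL

section
open scoped Classical

variable {S : Finset Pt} {L : Finset (ℝ × ℝ)} {c : Pt → ℝ × ℝ}

theorem sum_ww (Z : Finset Pt) :
    ∑ j ∈ L, ∑ k ∈ L, om S L c j * om S L c k * ((Zjk S L Z j k).card : ℝ) =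
      ∑ z ∈ Z, (W S L c z) ^ 2 := by
  have h1 : ∀ z : Pt, W S L c z = ∑ j ∈ L, if j ∈ Jz S L z then om S L c j else 0 := by
    intro z
    unfold W
    rw [← Finset.sum_filter]
    refine Finset.sum_congr ?_ fun _ _ => rfl
    ext j
    rw [Finset.mem_filter]
    constructor
    · intro h
      refine ⟨?_, h⟩
      unfold Jz at h
      exact (Finset.mem_filter.1 h).1
    · exact fun h => h.2
  have h2 : ∀ j k : ℝ × ℝ, ((Zjk S L Z j k).card : ℝ) =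
      ∑ z ∈ Z, if j ∈ Jz S L z ∧ k ∈ Jz S L z then (1 : ℝ) else 0 := by
    intro j k
    unfold Zjk
    rw [Finset.card_filter]
    push_cast
    rfl
  have h3 : ∀ z ∈ Z, (W S L c z) ^ 2 = ∑ j ∈ L, ∑ k ∈ L,
      om S L c j * om S L c k * (if j ∈ Jz S L z ∧ k ∈ Jz S L z then (1 : ℝ) else 0) := by
    intro z _
    rw [h1, pow_two, Finset.sum_mul_sum]
    refine Finset.sum_congr rfl fun j _ => Finset.sum_congr rfl fun k _ => ?_
    by_cases a : j ∈ Jz S L z <;> by_cases b : k ∈ Jz S L z <;> simp [a, b]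
  rw [Finset.sum_congr rfl h3, Finset.sum_comm (s := Z)]
  refine Finset.sum_congr rfl fun j _ => ?_
  rw [Finset.sum_comm (s := Z)]
  refine Finset.sum_congr rfl fun k _ => ?_
  rw [h2, Finset.mul_sum]

theorem card_L_pos (hc : Cov S L c) (hS : 0 < S.card) : 0 < L.card := by
  obtain ⟨p, hp⟩ := Finset.card_pos.1 hS
  exact Finset.card_pos.2 ⟨c p, (hc p hp).1⟩

theorem row_le (hc : Cov S L c) (j : ℝ × ℝ) (hS : 0 < S.card) :
    ((row S c j).card : ℝ) ≤ (S.card : ℝ) / L.card * om S L c j := by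
  have hn : (0 : ℝ) < S.card := by exact_mod_cast hS
  have hh' : (0 : ℝ) < L.card := by exact_mod_cast card_L_pos hc hS
  unfold om
  rw [mul_add, mul_one]
  have h1 : (S.card : ℝ) / L.card * ((L.card : ℝ) * ((row S c j).card : ℝ) / (S.card : ℝ)) =
      (row S c j).card := by
    field_simp
  rw [h1]
  have : 0 ≤ (S.card : ℝ) / L.card := by positivity
  linarith

theorem rich_prod_sq (X Y : Finset ℝ) {κ : ℝ × ℝ × ℝ} (hκ : κ.2.2 ≠ 0) :
    (rich (X ×ˢ Y) (hyp κ)) ^ 2 ≤ (X ×ˢ Y).card := by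
  have h1 : rich (X ×ˢ Y) (hyp κ) ≤ X.card := by
    unfold rich
    refine Finset.card_le_card_of_injOn (fun p => p.1) ?_ ?_
    · intro p hp
      have := (Finset.mem_filter.1 (Finset.mem_coe.1 hp)).1
      exact (Finset.mem_product.1 this).1
    · intro p hp q hq he
      by_contra hpq
      exact (hyp_coord hκ (Finset.mem_filter.1 (Finset.mem_coe.1 hp)).2
        (Finset.mem_filter.1 (Finset.mem_coe.1 hq)).2 hpq).1 he
  have h2 : rich (X ×ˢ Y) (hyp κ) ≤ Y.card := by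
    unfold rich
    refine Finset.card_le_card_of_injOn (fun p => p.2) ?_ ?_
    · intro p hp
      have := (Finset.mem_filter.1 (Finset.mem_coe.1 hp)).1
      exact (Finset.mem_product.1 this).2
    · intro p hp q hq he
      by_contra hpq
      exact (hyp_coord hκ (Finset.mem_filter.1 (Finset.mem_coe.1 hp)).2
        (Finset.mem_filter.1 (Finset.mem_coe.1 hq)).2 hpq).2 he
  rw [Finset.card_product, pow_two]
  exact Nat.mul_le_mul h1 h2

theorem Zjk_ne {Z : Finset Pt} {l l' : ℝ × ℝ} {z : Pt} (hz : z ∈ Zjk S L Z l l') :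
    nu l z ≠ 0 ∧ nu l' z ≠ 0 := by
  unfold Zjk at hz
  rw [Finset.mem_filter] at hz
  have h3 := hz.2.1
  have h4 := hz.2.2
  unfold Jz at h3 h4
  rw [Finset.mem_filter] at h3 h4
  exact ⟨h3.2.1, h4.2.1⟩

theorem RR_le_par (C : ℝ) (hinc1 : ∀ (G : Finset Pt) (L : Finset (Set Pt)) (k : ℝ), 2 ≤ k →
    (∀ ℓ ∈ L, IsLine ℓ) →
    (∑ ℓ ∈ L, (rich G ℓ : ℝ)) ≤ k * L.card + C * ((G.card : ℝ) ^ 2 / k ^ 2) + 2 * G.card)
    (hc : Cov S L c) (Z : Finset Pt) (l l' : ℝ × ℝ) (hl : l ≠ l') (hm : l.1 = l'.1) (k : ℝ)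
    (hk : 2 ≤ k) :
    ((RR S L c Z l l').card : ℝ) ≤ k * (Zjk S L Z l l').card +
      C * ((((row S c l).card : ℝ) * ((row S c l').card : ℝ)) ^ 2 / k ^ 2) +
      2 * (((row S c l).card : ℝ) * ((row S c l').card : ℝ)) := by
  have h1 := RR_le hc Z l l' 0 (lk l l') (fun z r r' hr hr' h => by
    have := mem_lk hm hr hr' h
    simpa using this)
  have h2 := hinc1 (Gjk S c 0 l l') ((Zjk S L Z l l').image (lk l l')) k hk (by
    intro ℓ hℓ
    rw [Finset.mem_image] at hℓ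
    obtain ⟨z, hz, rfl⟩ := hℓ
    exact lk_isLine (Zjk_ne hz).1)
  rw [Finset.sum_image (fun z _ w _ h => lk_inj hm hl h), Finset.card_image_of_injective _
    (fun z w h => lk_inj hm hl h), card_Gjk hc] at h2
  have h3 : ((RR S L c Z l l').card : ℝ) ≤
      ∑ z ∈ Zjk S L Z l l', (rich (Gjk S c 0 l l') (lk l l' z) : ℝ) := by
    exact_mod_cast h1
  push_cast at h2
  exact h3.trans h2

theorem RR_le_hyp (C : ℝ) (hinc2 : ∀ (γ : ℝ), γ ≠ 0 → ∀ (G : Finset Pt) (K : Finset (ℝ × ℝ × ℝ))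
    (k : ℝ), 2 ≤ k → (∀ κ ∈ K, Fam γ κ ∧ (rich G (hyp κ)) ^ 2 ≤ G.card) →
    (∑ κ ∈ K, (rich G (hyp κ) : ℝ)) ≤ k * K.card + C * ((G.card : ℝ) ^ 2 / k ^ 2))
    (hc : Cov S L c) (Z : Finset Pt) (l l' : ℝ × ℝ) (hm : l.1 ≠ l'.1) (k : ℝ) (hk : 2 ≤ k) :
    ((RR S L c Z l l').card : ℝ) ≤ k * (Zjk S L Z l l').card +
      C * ((((row S c l).card : ℝ) * ((row S c l').card : ℝ)) ^ 2 / k ^ 2) := by
  have h1 := RR_le hc Z l l' ((l.2 - l'.2) / (l'.1 - l.1)) (fun z => hyp (kap l l' z))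
    (fun z r r' hr hr' h => mem_hyp hm hr hr' h)
  have hD : l'.1 - l.1 ≠ 0 := sub_ne_zero.mpr (Ne.symm hm)
  have hinj : Set.InjOn (kap l l') ((Zjk S L Z l l' : Finset Pt) : Set Pt) := by
    intro z hz w hw h
    have hz' := Zjk_ne (Finset.mem_coe.1 hz)
    have hw' := Zjk_ne (Finset.mem_coe.1 hw)
    exact kap_inj hm hz'.1 hz'.2 hw'.1 hw'.2 h
  have h2 := hinc2 (4 / (l'.1 - l.1) ^ 2) (by positivity)
    (Gjk S c ((l.2 - l'.2) / (l'.1 - l.1)) l l') ((Zjk S L Z l l').image (kap l l')) k hk (by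
    intro κ hκ
    rw [Finset.mem_image] at hκ
    obtain ⟨z, hz, rfl⟩ := hκ
    have hf := kap_fam hm (Zjk_ne hz).1 (Zjk_ne hz).2
    refine ⟨hf, ?_⟩
    unfold Gjk
    exact rich_prod_sq _ _ hf.1)
  rw [Finset.sum_image hinj, Finset.card_image_of_injOn hinj, card_Gjk hc] at h2
  have h3 : ((RR S L c Z l l').card : ℝ) ≤
      ∑ z ∈ Zjk S L Z l l', (rich (Gjk S c ((l.2 - l'.2) / (l'.1 - l.1)) l l')
        (hyp (kap l l' z)) : ℝ) := by
    exact_mod_cast h1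
  push_cast at h2
  exact h3.trans h2

theorem pair_le (C : ℝ) (hC : 0 < C)
    (hinc1 : ∀ (G : Finset Pt) (L : Finset (Set Pt)) (k : ℝ), 2 ≤ k →
    (∀ ℓ ∈ L, IsLine ℓ) →
    (∑ ℓ ∈ L, (rich G ℓ : ℝ)) ≤ k * L.card + C * ((G.card : ℝ) ^ 2 / k ^ 2) + 2 * G.card)
    (hinc2 : ∀ (γ : ℝ), γ ≠ 0 → ∀ (G : Finset Pt) (K : Finset (ℝ × ℝ × ℝ))
    (k : ℝ), 2 ≤ k → (∀ κ ∈ K, Fam γ κ ∧ (rich G (hyp κ)) ^ 2 ≤ G.card) →
    (∑ κ ∈ K, (rich G (hyp κ) : ℝ)) ≤ k * K.card + C * ((G.card : ℝ) ^ 2 / k ^ 2))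
    (hc : Cov S L c) (Z : Finset Pt) (t a : ℝ) (ht : 0 < t) (ha : 0 < a) (hS : 0 < S.card)
    (hct : a * t = (S.card : ℝ) / L.card) (j k : ℝ × ℝ) (hjk : j ≠ k) :
    ((RR S L c Z j k).card : ℝ) ≤ (2 + a) * (om S L c j * om S L c k * ((Zjk S L Z j k).card : ℝ)) +
        (C * t ^ 2 + 2) * (((row S c j).card : ℝ) * ((row S c k).card : ℝ)) := by
  have hoj := one_le_om (S := S) (L := L) (c := c) j
  have hok := one_le_om (S := S) (L := L) (c := c) k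
  have hz0 : (0 : ℝ) ≤ ((Zjk S L Z j k).card : ℝ) := Nat.cast_nonneg _
  have r1 := row_le hc j hS
  have r2 := row_le hc k hS
  rw [← hct] at r1 r2
  have hk2 : 2 ≤ 2 + a * (om S L c j * om S L c k) := by
    have : 0 ≤ a * (om S L c j * om S L c k) := by positivity
    linarith
  refine real1 (Nat.cast_nonneg _) (Nat.cast_nonneg _) hoj hok r1 r2 hz0 (le_refl _) ht ha hC ?_
  by_cases hm : j.1 = k.1
  · exact RR_le_par C hinc1 hc Z j k hjk hm _ hk2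
  · have h1 := RR_le_hyp C hinc2 hc Z j k hm _ hk2
    have h2 : (0 : ℝ) ≤ 2 * (((row S c j).card : ℝ) * ((row S c k).card : ℝ)) := by positivity
    linarith

theorem mom_le : ∃ C : ℝ, 0 < C ∧ ∀ (S : Finset Pt) (L : Finset (ℝ × ℝ)) (c : Pt → ℝ × ℝ)
    (Z : Finset Pt) (t : ℝ), Cov S L c → 1 ≤ t → 0 < S.card →
    t ^ 3 ≤ 2 * L.card → (L.card : ℝ) ^ 2 ≤ S.card →
    (∀ z ∈ Z, W S L c z ≤ 2 * t ^ 3) →
    (∑ g ∈ (FF S L c).filter (fun g => g.1 ∈ Z), ((dd S L c g : ℝ)) ^ 2) ≤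
      C * t ^ 2 * (S.card : ℝ) ^ 2 := by
  obtain ⟨C1, hC1, hinc1'⟩ := inc1
  obtain ⟨C2, hC2, hinc2'⟩ := hinc
  obtain ⟨C, hCd⟩ : ∃ C : ℝ, C = C1 + C2 := ⟨_, rfl⟩
  have hC : 0 < C := by rw [hCd]; linarith
  have hinc1 : ∀ (G : Finset Pt) (L : Finset (Set Pt)) (k : ℝ), 2 ≤ k →
    (∀ ℓ ∈ L, IsLine ℓ) →
    (∑ ℓ ∈ L, (rich G ℓ : ℝ)) ≤ k * L.card + C * ((G.card : ℝ) ^ 2 / k ^ 2) + 2 * G.card := by
    intro G L k hk hL
    have h1 := hinc1' G L k hk hL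
    have h2 : C * ((G.card : ℝ) ^ 2 / k ^ 2) = C1 * ((G.card : ℝ) ^ 2 / k ^ 2) +
      C2 * ((G.card : ℝ) ^ 2 / k ^ 2) := by rw [hCd]; ring
    have h3 : 0 ≤ C2 * ((G.card : ℝ) ^ 2 / k ^ 2) := by positivity
    rw [h2]
    linarith
  have hinc2 : ∀ (γ : ℝ), γ ≠ 0 → ∀ (G : Finset Pt) (K : Finset (ℝ × ℝ × ℝ))
    (k : ℝ), 2 ≤ k → (∀ κ ∈ K, Fam γ κ ∧ (rich G (hyp κ)) ^ 2 ≤ G.card) →
    (∑ κ ∈ K, (rich G (hyp κ) : ℝ)) ≤ k * K.card + C * ((G.card : ℝ) ^ 2 / k ^ 2) := by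
    intro γ hγ G K k hk hK
    have h1 := hinc2' γ hγ G K k hk hK
    have h2 : C * ((G.card : ℝ) ^ 2 / k ^ 2) = C1 * ((G.card : ℝ) ^ 2 / k ^ 2) +
      C2 * ((G.card : ℝ) ^ 2 / k ^ 2) := by rw [hCd]; ring
    have h3 : 0 ≤ C1 * ((G.card : ℝ) ^ 2 / k ^ 2) := by positivity
    rw [h2]
    linarith
  refine ⟨C + 23, by linarith, fun S L c Z t hc ht hS ht3 hh2 hZ => ?_⟩
  have hn0 : (0 : ℝ) < (S.card : ℝ) := by exact_mod_cast hS
  have hh0 : (0 : ℝ) < (L.card : ℝ) := by exact_mod_cast card_L_pos hc hS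
  have ht0 : 0 < t := by linarith
  obtain ⟨a, ha⟩ : ∃ a : ℝ, a = (S.card : ℝ) / ((L.card : ℝ) * t) := ⟨_, rfl⟩
  have ha0 : 0 < a := by rw [ha]; positivity
  have hct : a * t = (S.card : ℝ) / L.card := by
    rw [ha]
    field_simp
  have hone : ∀ j ∈ L, ∀ k ∈ L, (((if j ≠ k then (RR S L c Z j k).card else 0 : ℕ)) : ℝ) ≤
      (2 + a) * (om S L c j * om S L c k * ((Zjk S L Z j k).card : ℝ)) +
        (C * t ^ 2 + 2) * (((row S c j).card : ℝ) * ((row S c k).card : ℝ)) := by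
    intro j _ k _
    by_cases hjk : j ≠ k
    · rw [if_pos hjk]
      exact pair_le C hC hinc1 hinc2 hc Z t a ht0 ha0 hS hct j k hjk
    · rw [if_neg hjk]
      have hoj := one_le_om (S := S) (L := L) (c := c) j
      have hok := one_le_om (S := S) (L := L) (c := c) k
      push_cast
      positivity
  have hsum := sum_sq_le hc Z
  have hsum' : (∑ g ∈ (FF S L c).filter (fun g => g.1 ∈ Z), ((dd S L c g : ℝ)) ^ 2) ≤
      ((BB S L c).card : ℝ) +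
      ∑ j ∈ L, ∑ k ∈ L, (((if j ≠ k then (RR S L c Z j k).card else 0 : ℕ)) : ℝ) := by
    exact_mod_cast hsum
  have hW : (∑ z ∈ Z, (W S L c z) ^ 2) ≤ 2 * t ^ 3 * (2 * L.card * S.card) := by
    have h1 : ∀ z ∈ Z, (W S L c z) ^ 2 ≤ 2 * t ^ 3 * W S L c z := by
      intro z hz
      have h2 := hZ z hz
      have h3 : 0 ≤ W S L c z := le_trans (Nat.cast_nonneg _) (card_le_W z)
      rw [pow_two]
      exact mul_le_mul_of_nonneg_right h2 h3
    refine le_trans (Finset.sum_le_sum h1) ?_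
    rw [← Finset.mul_sum]
    exact mul_le_mul_of_nonneg_left (sum_W_le hc Z) (by positivity)
  have hrows : (∑ j ∈ L, ((row S c j).card : ℝ) * ∑ k ∈ L, ((row S c k).card : ℝ)) =
      (S.card : ℝ) ^ 2 := by
    rw [← Finset.sum_mul, sum_row hc]
    ring
  have hdouble : ∑ j ∈ L, ∑ k ∈ L, (((if j ≠ k then (RR S L c Z j k).card else 0 : ℕ)) : ℝ) ≤
      (2 + a) * (2 * t ^ 3 * (2 * L.card * S.card)) + (C * t ^ 2 + 2) * (S.card : ℝ) ^ 2 := by
    refine le_trans (Finset.sum_le_sum fun j hj => Finset.sum_le_sum fun k hk => hone j hj k hk) ?_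
    simp only [Finset.sum_add_distrib, ← Finset.mul_sum]
    rw [sum_ww, hrows]
    have := mul_le_mul_of_nonneg_left hW (by positivity : (0 : ℝ) ≤ 2 + a)
    linarith
  exact real2 hn0 hh0 ht ht3 hh2 ha card_BB_le hdouble hsum'

end

end Pool.Agent.Work.MP_916cc8_co.FL.Gen
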