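import Pool.Agent.Work.MP_916cc8_co.FL.Inc

/-! Sets on few parallel lines: the geometry of rows. -/

set_option autoImplicit false

namespace Pool.Agent.Work.MP_916cc8_co.FL

open Pool.Agent.Work.MP_916cc8_co

/-- the point of the top line of `(p,q)` on the row of `p`, `j = q.2` -/
noncomputable def zz (p : Pt) (j : ℝ) : Pt := (p.1 + 2 / (p.2 - j), p.2)

/-- inverse of `zz` -/
noncomputable def src (z : Pt) (j : ℝ) : Pt := (z.1 - 2 / (z.2 - j), z.2)

theorem zz_src (z : Pt) (j : ℝ) : zz (src z j) j = z := by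
  unfold zz src
  ext <;> simp

theorem src_zz (p : Pt) (j : ℝ) : src (zz p j) j = p := by
  unfold zz src
  ext <;> simp

theorem zz_mem_top {p q : Pt} (h : p.2 ≠ q.2) : zz p q.2 ∈ top p q := by
  have h0 : p.2 - q.2 ≠ 0 := sub_ne_zero.mpr h
  show cr (q - p) (zz p q.2 - p) = 2
  unfold cr zz
  simp only [Prod.fst_sub, Prod.snd_sub]
  field_simp
  ring

section
open scoped Classical

/-- the heights -/
noncomputable def Yy (S : Finset Pt) : Finset ℝ := S.image Prod.snd

/-- a row -/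
noncomputable def row (S : Finset Pt) (j : ℝ) : Finset Pt := S.filter (fun p => p.2 = j)

/-- weight of a row -/
noncomputable def om (S : Finset Pt) (j : ℝ) : ℝ :=
  1 + ((Yy S).card : ℝ) * ((row S j).card : ℝ) / (S.card : ℝ)

/-- the targets of `z` -/
noncomputable def Jz (S : Finset Pt) (z : Pt) : Finset ℝ :=
  (Yy S).filter (fun j => j ≠ z.2 ∧ src z j ∈ S)

noncomputable def W (S : Finset Pt) (z : Pt) : ℝ := ∑ j ∈ Jz S z, om S j

/-- base pairs -/
noncomputable def BB (S : Finset Pt) : Finset (Pt × Pt) := (S ×ˢ S).filter (fun x => x.1.2 ≠ x.2.2)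

/-- flag of a pair -/
noncomputable def fl (x : Pt × Pt) : Pt × Set Pt := (zz x.1 x.2.2, top x.1 x.2)

noncomputable def ZZ (S : Finset Pt) : Finset Pt := (BB S).image (fun x => zz x.1 x.2.2)

noncomputable def FF (S : Finset Pt) : Finset (Pt × Set Pt) := (BB S).image fl

noncomputable def dd (S : Finset Pt) (g : Pt × Set Pt) : ℕ := ((BB S).filter (fun x => fl x = g)).card

theorem mem_BB {S : Finset Pt} {x : Pt × Pt} :
    x ∈ BB S ↔ x.1 ∈ S ∧ x.2 ∈ S ∧ x.1.2 ≠ x.2.2 := by
  unfold BB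
  rw [Finset.mem_filter, Finset.mem_product]
  tauto

theorem ne_of_BB {S : Finset Pt} {x : Pt × Pt} (hx : x ∈ BB S) : x.1 ≠ x.2 := by
  intro h
  exact (mem_BB.1 hx).2.2 (by rw [h])

theorem mem_Yy {S : Finset Pt} {p : Pt} (hp : p ∈ S) : p.2 ∈ Yy S :=
  Finset.mem_image_of_mem _ hp

theorem mem_Jz_of_BB {S : Finset Pt} {x : Pt × Pt} (hx : x ∈ BB S) :
    x.2.2 ∈ Jz S (zz x.1 x.2.2) := by
  obtain ⟨h1, h2, h3⟩ := mem_BB.1 hx
  unfold Jz
  rw [Finset.mem_filter, src_zz]
  refine ⟨mem_Yy h2, ?_, h1⟩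
  show x.2.2 ≠ x.1.2
  exact h3.symm

/-- a pair is determined by its flag and the height of its second point -/
theorem fl_inj {x y : Pt × Pt} (hx : x.1 ≠ x.2) (h : fl x = fl y) (hj : x.2.2 = y.2.2) : x = y := by
  unfold fl at h
  rw [Prod.mk.injEq] at h
  have h1 : x.1 = y.1 := by
    rw [← src_zz x.1 x.2.2, h.1, hj, src_zz]
  have h2 : x.2 = y.2 := by
    have h3 := h.2
    rw [← h1] at h3
    exact top_unique hx h3
  exact Prod.ext h1 h2

theorem dd_le (S : Finset Pt) (g : Pt × Set Pt) : dd S g ≤ (Jz S g.1).card := by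
  unfold dd
  refine Finset.card_le_card_of_injOn (fun x => x.2.2) ?_ ?_
  · intro x hx
    have hx' := Finset.mem_filter.1 (Finset.mem_coe.1 hx)
    have h1 := mem_Jz_of_BB hx'.1
    rw [Finset.mem_coe, ← hx'.2]
    exact h1
  · intro x hx y hy hj
    have hx' := Finset.mem_filter.1 (Finset.mem_coe.1 hx)
    have hy' := Finset.mem_filter.1 (Finset.mem_coe.1 hy)
    exact fl_inj (ne_of_BB hx'.1) (hx'.2.trans hy'.2.symm) hj

theorem one_le_om (S : Finset Pt) (j : ℝ) : 1 ≤ om S j := by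
  unfold om
  have : 0 ≤ ((Yy S).card : ℝ) * ((row S j).card : ℝ) / (S.card : ℝ) := by positivity
  linarith

theorem card_le_W (S : Finset Pt) (z : Pt) : ((Jz S z).card : ℝ) ≤ W S z := by
  unfold W
  calc ((Jz S z).card : ℝ) = ∑ j ∈ Jz S z, (1 : ℝ) := by simp
    _ ≤ _ := Finset.sum_le_sum fun j _ => one_le_om S j

theorem sum_row (S : Finset Pt) : (∑ j ∈ Yy S, ((row S j).card : ℝ)) = S.card := by
  have := Finset.card_eq_sum_card_image Prod.snd S
  rw [this]
  push_cast
  rfl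

theorem sum_om_le (S : Finset Pt) : (∑ j ∈ Yy S, om S j) ≤ 2 * (Yy S).card := by
  unfold om
  rw [Finset.sum_add_distrib, Finset.sum_const, nsmul_eq_mul, mul_one, ← Finset.sum_div,
    ← Finset.mul_sum, sum_row]
  have h0 : ((Yy S).card : ℝ) * (S.card : ℝ) / (S.card : ℝ) ≤ (Yy S).card := by
    rcases Nat.eq_zero_or_pos S.card with h | h
    · rw [h]
      simp
    · have : (0 : ℝ) < S.card := by exact_mod_cast h
      rw [mul_div_assoc, div_self this.ne', mul_one]
  linarith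

theorem W_le (S : Finset Pt) (z : Pt) : W S z ≤ 2 * (Yy S).card := by
  refine le_trans ?_ (sum_om_le S)
  unfold W
  refine Finset.sum_le_sum_of_subset_of_nonneg (Finset.filter_subset _ _) fun j _ _ => ?_
  have := one_le_om S j
  linarith

theorem sum_W_le (S Z : Finset Pt) : (∑ z ∈ Z, W S z) ≤ 2 * (Yy S).card * S.card := by
  have h1 : (∑ z ∈ Z, W S z) = ∑ j ∈ Yy S, om S j * ((Z.filter (fun z => j ≠ z.2 ∧ src z j ∈ S)).card : ℝ) := by
    unfold W Jz
    simp only [Finset.sum_filter]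
    rw [Finset.sum_comm]
    refine Finset.sum_congr rfl fun j _ => ?_
    rw [← Finset.sum_filter, Finset.sum_const, nsmul_eq_mul, mul_comm]
  have h2 : ∀ j ∈ Yy S, om S j * ((Z.filter (fun z => j ≠ z.2 ∧ src z j ∈ S)).card : ℝ) ≤
      om S j * S.card := by
    intro j _
    have h3 : (Z.filter (fun z => j ≠ z.2 ∧ src z j ∈ S)).card ≤ S.card := by
      refine Finset.card_le_card_of_injOn (fun z => src z j) ?_ ?_
      · intro z hz
        exact (Finset.mem_filter.1 (Finset.mem_coe.1 hz)).2.2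
      · intro z _ w _ he
        have he' : src z j = src w j := he
        rw [← zz_src z j, he', zz_src]
    have := one_le_om S j
    refine mul_le_mul_of_nonneg_left ?_ (by linarith)
    exact_mod_cast h3
  rw [h1]
  refine le_trans (Finset.sum_le_sum h2) ?_
  rw [← Finset.sum_mul]
  exact mul_le_mul_of_nonneg_right (sum_om_le S) (Nat.cast_nonneg _)

/-- a non-horizontal line meets few points of a set with few heights -/
theorem rich_le (S T : Finset Pt) (hT : ∀ t ∈ T, t.2 ∈ Yy S) {p q : Pt} (h : p.2 ≠ q.2) :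
    rich T (top p q) ≤ (Yy S).card := by
  unfold rich
  refine Finset.card_le_card_of_injOn (fun z => z.2) ?_ ?_
  · intro z hz
    exact hT z (Finset.mem_filter.1 (Finset.mem_coe.1 hz)).1
  · intro z hz w hw he
    have h1 : cr (q - p) (z - p) = 2 := (Finset.mem_filter.1 (Finset.mem_coe.1 hz)).2
    have h2 : cr (q - p) (w - p) = 2 := (Finset.mem_filter.1 (Finset.mem_coe.1 hw)).2
    have he' : z.2 = w.2 := he
    unfold cr at h1 h2
    simp only [Prod.fst_sub, Prod.snd_sub] at h1 h2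
    rw [he'] at h1
    have h3 : (q.2 - p.2) * (z.1 - w.1) = 0 := by linarith
    rcases mul_eq_zero.1 h3 with h4 | h4
    · exact absurd (by linarith : p.2 = q.2) h
    · exact Prod.ext (by linarith) he'

theorem ZZ_row (S : Finset Pt) : ∀ z ∈ ZZ S, z.2 ∈ Yy S := by
  intro z hz
  unfold ZZ at hz
  rw [Finset.mem_image] at hz
  obtain ⟨x, hx, rfl⟩ := hz
  show x.1.2 ∈ Yy S
  exact mem_Yy (mem_BB.1 hx).1

theorem card_BB_le (S : Finset Pt) : ((BB S).card : ℝ) ≤ (S.card : ℝ) ^ 2 := by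
  have : (BB S).card ≤ S.card ^ 2 := by
    unfold BB
    refine le_trans (Finset.card_filter_le _ _) ?_
    rw [Finset.card_product, pow_two]
  exact_mod_cast this

/-- triples with horizontal base -/
theorem hor_le (S : Finset Pt) :
    ((S ×ˢ S ×ˢ S).filter (fun z => cr (z.2.1 - z.1) (z.2.2 - z.1) = 2 ∧ z.1.2 = z.2.1.2)).card ≤
      S.card ^ 2 := by
  rw [pow_two, ← Finset.card_product]
  refine Finset.card_le_card_of_injOn (fun z => (z.1, z.2.2)) ?_ ?_
  · intro z hz
    have hz' := Finset.mem_filter.1 (Finset.mem_coe.1 hz)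
    simp only [Finset.mem_product] at hz'
    rw [Finset.mem_coe, Finset.mem_product]
    exact ⟨hz'.1.1, hz'.1.2.2⟩
  · intro z hz w hw he
    have hz' := (Finset.mem_filter.1 (Finset.mem_coe.1 hz)).2
    have hw' := (Finset.mem_filter.1 (Finset.mem_coe.1 hw)).2
    obtain ⟨p, q, r⟩ := z
    obtain ⟨p', q', r'⟩ := w
    simp only [Prod.mk.injEq] at he
    obtain ⟨rfl, rfl⟩ := he
    simp only [cr, Prod.fst_sub, Prod.snd_sub] at hz' hw'
    obtain ⟨h1, h2⟩ := hz'
    obtain ⟨h3, h4⟩ := hw'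
    rw [← h2] at h1
    rw [← h4] at h3
    have h5 : (q.1 - q'.1) * (r.2 - p.2) = 0 := by linarith
    have h6 : r.2 - p.2 ≠ 0 := by
      intro h6
      rw [h6] at h1
      simp at h1
    have h7 : q.1 - q'.1 = 0 := by
      rcases mul_eq_zero.1 h5 with h | h
      · exact h
      · exact absurd h h6
    have h8 : q = q' := Prod.ext (by linarith) (h2.symm.trans h4)
    rw [h8]

/-- the sum over flags -/
theorem nonhor_eq (S : Finset Pt) :
    ((S ×ˢ S ×ˢ S).filter (fun z => cr (z.2.1 - z.1) (z.2.2 - z.1) = 2 ∧ ¬ z.1.2 = z.2.1.2)).card =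
      ∑ g ∈ FF S, dd S g * rich S g.2 := by
  have h1 : ((S ×ˢ S ×ˢ S).filter (fun z => cr (z.2.1 - z.1) (z.2.2 - z.1) = 2 ∧
      ¬ z.1.2 = z.2.1.2)).card = ∑ x ∈ BB S, rich S (top x.1 x.2) := by
    have h2 : (S ×ˢ S ×ˢ S).filter (fun z => cr (z.2.1 - z.1) (z.2.2 - z.1) = 2 ∧
        ¬ z.1.2 = z.2.1.2) = (BB S).biUnion (fun x => (S.filter (fun r => r ∈ top x.1 x.2)).image
          (fun r => (x.1, x.2, r))) := by
      ext z
      obtain ⟨p, q, r⟩ := z
      simp only [Finset.mem_filter, Finset.mem_product, Finset.mem_biUnion, Finset.mem_image,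
        mem_BB, Prod.mk.injEq]
      constructor
      · rintro ⟨⟨a, b, c⟩, d, e⟩
        exact ⟨(p, q), ⟨a, b, e⟩, r, ⟨c, d⟩, rfl, rfl, rfl⟩
      · rintro ⟨x, ⟨a, b, e⟩, r', ⟨c, d⟩, h3, h4, h5⟩
        subst h3 h4 h5
        exact ⟨⟨a, b, c⟩, d, e⟩
    rw [h2, Finset.card_biUnion]
    · refine Finset.sum_congr rfl fun x _ => ?_
      rw [Finset.card_image_of_injective]
      · rfl
      · intro a b hab
        simp only [Prod.mk.injEq] at hab
        exact hab.2.2
    · intro x _ y _ hxy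
      rw [Function.onFun, Finset.disjoint_left]
      intro z hz hz'
      rw [Finset.mem_image] at hz hz'
      obtain ⟨a, _, rfl⟩ := hz
      obtain ⟨b, _, hb⟩ := hz'
      simp only [Prod.mk.injEq] at hb
      exact hxy (Prod.ext hb.1.symm hb.2.1.symm)
  rw [h1]
  have h3 := Finset.sum_fiberwise_of_maps_to (s := BB S) (t := FF S) (g := fl)
    (fun x hx => Finset.mem_image_of_mem _ hx) (fun x => rich S (top x.1 x.2))
  rw [← h3]
  refine Finset.sum_congr rfl fun g _ => ?_
  unfold dd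
  rw [Finset.card_eq_sum_ones, Finset.sum_mul]
  refine Finset.sum_congr rfl fun x hx => ?_
  rw [Finset.mem_filter] at hx
  rw [one_mul, ← hx.2]
  rfl

theorem sum_dd (S : Finset Pt) : ∑ g ∈ FF S, dd S g = (BB S).card := by
  unfold dd
  exact (Finset.card_eq_sum_card_image fl (BB S)).symm

theorem FF_spec (S : Finset Pt) : ∀ g ∈ FF S, g.1 ∈ ZZ S ∧ g.1 ∈ g.2 ∧ IsLine g.2 ∧
    rich S g.2 ≤ (Yy S).card ∧ rich (ZZ S) g.2 ≤ (Yy S).card := by
  intro g hg
  unfold FF at hg
  rw [Finset.mem_image] at hg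
  obtain ⟨x, hx, rfl⟩ := hg
  obtain ⟨h1, h2, h3⟩ := mem_BB.1 hx
  refine ⟨Finset.mem_image_of_mem _ hx, zz_mem_top h3, isLine_top (ne_of_BB hx), ?_, ?_⟩
  · exact rich_le S S (fun t ht => mem_Yy ht) h3
  · exact rich_le S (ZZ S) (ZZ_row S) h3

end

end Pool.Agent.Work.MP_916cc8_co.FL
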