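import Pool.Agent.Work.MP_916cc8_co.Assemble

/-! A family of hyperbolas: basic facts. -/

set_option autoImplicit false

namespace Pool.Agent.Work.MP_916cc8_co.FL

open Pool.Agent.Work.MP_916cc8_co

/-- the hyperbola with centre `(κ.1, κ.2.1)` and parameter `κ.2.2` -/
def hyp (κ : ℝ × ℝ × ℝ) : Set Pt := {p | (p.1 - κ.1) * (p.2 - κ.2.1) = κ.2.2}

theorem hyp_ne {κ : ℝ × ℝ × ℝ} (hx : κ.2.2 ≠ 0) {p : Pt} (hp : p ∈ hyp κ) :
    p.1 - κ.1 ≠ 0 ∧ p.2 - κ.2.1 ≠ 0 := by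
  have h : (p.1 - κ.1) * (p.2 - κ.2.1) = κ.2.2 := hp
  constructor
  · intro h0
    rw [h0, zero_mul] at h
    exact hx h.symm
  · intro h0
    rw [h0, mul_zero] at h
    exact hx h.symm

theorem hyp_snd {κ : ℝ × ℝ × ℝ} (hx : κ.2.2 ≠ 0) {p : Pt} (hp : p ∈ hyp κ) :
    p.2 = κ.2.1 + κ.2.2 / (p.1 - κ.1) := by
  have h0 := (hyp_ne hx hp).1
  have h : (p.1 - κ.1) * (p.2 - κ.2.1) = κ.2.2 := hp
  rw [← h]
  field_simp
  ring

/-- distinct points of a hyperbola have distinct coordinates -/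
theorem hyp_coord {κ : ℝ × ℝ × ℝ} (hx : κ.2.2 ≠ 0) {p q : Pt} (hp : p ∈ hyp κ) (hq : q ∈ hyp κ)
    (hpq : p ≠ q) : p.1 ≠ q.1 ∧ p.2 ≠ q.2 := by
  have h1 : (p.1 - κ.1) * (p.2 - κ.2.1) = κ.2.2 := hp
  have h2 : (q.1 - κ.1) * (q.2 - κ.2.1) = κ.2.2 := hq
  have n1 := hyp_ne hx hp
  constructor
  · intro h
    apply hpq
    have h3 : (p.1 - κ.1) * (p.2 - q.2) = 0 := by rw [← h] at h2; linarith
    rcases mul_eq_zero.1 h3 with h4 | h4
    · exact absurd h4 n1.1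
    · exact Prod.ext h (by linarith)
  · intro h
    apply hpq
    have h3 : (p.2 - κ.2.1) * (p.1 - q.1) = 0 := by rw [← h] at h2; linarith
    rcases mul_eq_zero.1 h3 with h4 | h4
    · exact absurd h4 n1.2
    · exact Prod.ext (by linarith) h

/-- the family -/
def Fam (γ : ℝ) (κ : ℝ × ℝ × ℝ) : Prop := κ.2.2 ≠ 0 ∧ κ.2.2 ^ 2 - κ.1 * κ.2.1 * κ.2.2 = γ

open scoped Classical in
/-- at most three members of the family through two points -/
theorem two_points {γ : ℝ} (hγ : γ ≠ 0) {p q : Pt} (hpq : p ≠ q) (K : Finset (ℝ × ℝ × ℝ))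
    (hK : ∀ κ ∈ K, Fam γ κ ∧ p ∈ hyp κ ∧ q ∈ hyp κ) : K.card ≤ 3 := by
  rcases K.eq_empty_or_nonempty with rfl | ⟨κ₀, hκ₀⟩
  · simp
  obtain ⟨ha, hb⟩ := hyp_coord (hK κ₀ hκ₀).1.1 (hK κ₀ hκ₀).2.1 (hK κ₀ hκ₀).2.2 hpq
  obtain ⟨a, hadef⟩ : ∃ a, a = p.1 - q.1 := ⟨_, rfl⟩
  obtain ⟨b, hbdef⟩ : ∃ b, b = p.2 - q.2 := ⟨_, rfl⟩
  have ha0 : a ≠ 0 := by rw [hadef]; exact sub_ne_zero.mpr ha
  have hb0 : b ≠ 0 := by rw [hbdef]; exact sub_ne_zero.mpr hb
  set θ : ℝ × ℝ × ℝ → ℝ := fun κ => (p.1 - κ.1) / a with hθ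
  have hrep : ∀ κ ∈ K, κ.1 = p.1 - a * θ κ ∧ κ.2.1 = q.2 + b * θ κ ∧
      κ.2.2 = a * b * (θ κ - θ κ ^ 2) := by
    intro κ hκ
    obtain ⟨⟨hx, hfam⟩, h1, h2⟩ := hK κ hκ
    have h1' : (p.1 - κ.1) * (p.2 - κ.2.1) = κ.2.2 := h1
    have h2' : (q.1 - κ.1) * (q.2 - κ.2.1) = κ.2.2 := h2
    have e1 : a * θ κ = p.1 - κ.1 := by
      rw [hθ]
      field_simp
    have e2 : κ.1 = p.1 - a * θ κ := by rw [e1]; ring
    have hp1 : p.1 = q.1 + a := by rw [hadef]; ring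
    have hp2 : p.2 = q.2 + b := by rw [hbdef]; ring
    have e3 : a * (κ.2.1 - q.2 - b * θ κ) = 0 := by
      have e4 : a * (b * θ κ) = b * (p.1 - κ.1) := by rw [← e1]; ring
      have e5 : a * (κ.2.1 - q.2 - b * θ κ) = a * (κ.2.1 - q.2) - b * (p.1 - κ.1) := by
        rw [mul_sub, e4]
      rw [e5, hp1]
      rw [hp1, hp2] at h1'
      linarith
    have e6 : κ.2.1 = q.2 + b * θ κ := by
      rcases mul_eq_zero.1 e3 with h | h
      · exact absurd h ha0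
      · linarith
    refine ⟨e2, e6, ?_⟩
    rw [← h1', ← e1, e6, hp2]
    ring
  set Φ : Polynomial ℝ := Polynomial.C (-(a ^ 2 * b ^ 2) + a * b * (p.1 * b - a * q.2)) * Polynomial.X ^ 3 +
    Polynomial.C (a ^ 2 * b ^ 2 - a * b * (p.1 * b - a * q.2) + a * b * (p.1 * q.2)) * Polynomial.X ^ 2 +
    Polynomial.C (-(a * b * (p.1 * q.2))) * Polynomial.X + Polynomial.C (-γ) with hΦ
  have hΦd : Φ.natDegree ≤ 3 := by
    rw [hΦ]
    exact Polynomial.natDegree_cubic_le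
  have hΦ0 : Φ ≠ 0 := by
    intro h
    have h1 : Φ.eval 0 = 0 := by rw [h]; simp
    rw [hΦ] at h1
    simp at h1
    exact hγ h1
  have hroot : ∀ κ ∈ K, θ κ ∈ Φ.roots.toFinset := by
    intro κ hκ
    rw [Multiset.mem_toFinset, Polynomial.mem_roots hΦ0, Polynomial.IsRoot.def]
    obtain ⟨e1, e2, e3⟩ := hrep κ hκ
    have hf := (hK κ hκ).1.2
    rw [e1, e2, e3] at hf
    rw [hΦ]
    simp only [Polynomial.eval_add, Polynomial.eval_mul, Polynomial.eval_C, Polynomial.eval_pow,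
      Polynomial.eval_X]
    linear_combination hf
  have hinj : Set.InjOn θ (K : Set (ℝ × ℝ × ℝ)) := by
    intro κ hκ κ' hκ' he
    obtain ⟨e1, e2, e3⟩ := hrep κ hκ
    obtain ⟨e1', e2', e3'⟩ := hrep κ' hκ'
    refine Prod.ext ?_ (Prod.ext ?_ ?_)
    · rw [e1, e1', he]
    · rw [e2, e2', he]
    · rw [e3, e3', he]
  calc K.card = (K.image θ).card := (Finset.card_image_of_injOn hinj).symm
    _ ≤ Φ.roots.toFinset.card := Finset.card_le_card (fun s hs => by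
        obtain ⟨κ, hκ, rfl⟩ := Finset.mem_image.mp hs
        exact hroot κ hκ)
    _ ≤ Φ.roots.card := Multiset.toFinset_card_le _
    _ ≤ Φ.natDegree := Polynomial.card_roots' _
    _ ≤ 3 := hΦd

theorem quad_zero {a b c : ℝ} (h : Polynomial.C a * Polynomial.X ^ 2 +
    Polynomial.C b * Polynomial.X + Polynomial.C c = 0) : a = 0 ∧ b = 0 ∧ c = 0 := by
  have h0 := congrArg (Polynomial.eval 0) h
  have h1 := congrArg (Polynomial.eval 1) h
  have h2 := congrArg (Polynomial.eval (-1)) h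
  simp only [Polynomial.eval_add, Polynomial.eval_mul, Polynomial.eval_C, Polynomial.eval_pow,
      Polynomial.eval_X, Polynomial.eval_zero] at h0 h1 h2
  refine ⟨by linarith, by linarith, by linarith⟩

open scoped Classical in
/-- two hyperbolas meet in at most two points -/
theorem hyp_inter_le (S : Finset Pt) {κ κ' : ℝ × ℝ × ℝ} (hx : κ.2.2 ≠ 0) (hx' : κ'.2.2 ≠ 0)
    (hne : κ ≠ κ') :
    (S.filter (fun x => x ∈ hyp κ) ∩ S.filter (fun x => x ∈ hyp κ')).card ≤ 2 := by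
  set Φ : Polynomial ℝ := Polynomial.C (κ.2.1 - κ'.2.1) * Polynomial.X ^ 2 +
    Polynomial.C (-(κ.2.1 - κ'.2.1) * (κ.1 + κ'.1) + (κ.2.2 - κ'.2.2)) * Polynomial.X +
    Polynomial.C ((κ.2.1 - κ'.2.1) * (κ.1 * κ'.1) - κ.2.2 * κ'.1 + κ'.2.2 * κ.1) with hΦ
  have hΦd : Φ.natDegree ≤ 2 := by
    rw [hΦ]
    exact Polynomial.natDegree_quadratic_le
  have hΦ0 : Φ ≠ 0 := by
    intro h
    rw [hΦ] at h
    obtain ⟨c2, c1, c0⟩ := quad_zero h
    have e1 : κ.2.1 = κ'.2.1 := by linarith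
    rw [c2] at c1 c0
    have e2 : κ.2.2 = κ'.2.2 := by linarith
    have e3 : κ.2.2 * (κ.1 - κ'.1) = 0 := by rw [← e2] at c0; linarith
    have e4 : κ.1 = κ'.1 := by
      rcases mul_eq_zero.1 e3 with h | h
      · exact absurd h hx
      · linarith
    exact hne (Prod.ext e4 (Prod.ext e1 e2))
  set T := S.filter (fun x => x ∈ hyp κ) ∩ S.filter (fun x => x ∈ hyp κ') with hT
  have hTm : ∀ x ∈ T, x ∈ hyp κ ∧ x ∈ hyp κ' := by
    intro x hx
    rw [hT, Finset.mem_inter, Finset.mem_filter, Finset.mem_filter] at hx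
    exact ⟨hx.1.2, hx.2.2⟩
  have hinj : Set.InjOn (fun x : Pt => x.1) (T : Set Pt) := by
    intro x hx y hy he
    by_contra hxy
    exact (hyp_coord (by assumption) (hTm x hx).1 (hTm y hy).1 hxy).1 he
  have hroot : ∀ x ∈ T, x.1 ∈ Φ.roots.toFinset := by
    intro x hxT
    rw [Multiset.mem_toFinset, Polynomial.mem_roots hΦ0, Polynomial.IsRoot.def]
    obtain ⟨h1, h2⟩ := hTm x hxT
    have h1' : (x.1 - κ.1) * (x.2 - κ.2.1) = κ.2.2 := h1
    have h2' : (x.1 - κ'.1) * (x.2 - κ'.2.1) = κ'.2.2 := h2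
    rw [hΦ]
    simp only [Polynomial.eval_add, Polynomial.eval_mul, Polynomial.eval_C, Polynomial.eval_pow,
      Polynomial.eval_X]
    linear_combination (-(x.1 - κ'.1)) * h1' + (x.1 - κ.1) * h2'
  calc T.card = (T.image (fun x : Pt => x.1)).card := (Finset.card_image_of_injOn hinj).symm
    _ ≤ Φ.roots.toFinset.card := Finset.card_le_card (fun s hs => by
        obtain ⟨x, hx, rfl⟩ := Finset.mem_image.mp hs
        exact hroot x hx)
    _ ≤ Φ.roots.card := Multiset.toFinset_card_le _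
    _ ≤ Φ.natDegree := Polynomial.card_roots' _
    _ ≤ 2 := hΦd

end Pool.Agent.Work.MP_916cc8_co.FL
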