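import Pool.Agent.Work.MP_916cc8_co.FL.Hyp

/-! Restriction of polynomials to hyperbolas. -/

set_option autoImplicit false

namespace Pool.Agent.Work.MP_916cc8_co.FL

open Pool.Agent.Work.MP_916cc8_co MvPolynomial

/-- restriction to the hyperbola, denominators cleared -/
noncomputable def resH (A B x : ℝ) (e : ℕ) (P : MvPolynomial (Fin 2) ℝ) : Polynomial ℝ :=
  ∑ m ∈ P.support, Polynomial.C (P.coeff m) * (Polynomial.X + Polynomial.C A) ^ (m 0) *
    (Polynomial.C B * Polynomial.X + Polynomial.C x) ^ (m 1) * Polynomial.X ^ (e - m 1)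

theorem deg_le {P : MvPolynomial (Fin 2) ℝ} {e : ℕ} (he : P.totalDegree ≤ e) {m : Fin 2 →₀ ℕ}
    (hm : m ∈ P.support) : m 0 + m 1 ≤ e := by
  have h1 := MvPolynomial.le_totalDegree hm
  have h2 : (m.sum fun _ e => e) = m 0 + m 1 := by
    rw [Finsupp.sum_fintype _ _ (fun _ => rfl), Fin.sum_univ_two]
  omega

theorem resH_eval {A B x : ℝ} {e : ℕ} {P : MvPolynomial (Fin 2) ℝ} (he : P.totalDegree ≤ e)
    {w : ℝ} (hw : w ≠ 0) :
    (resH A B x e P).eval w = w ^ e * eval (v2 (A + w, B + x / w)) P := by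
  unfold resH
  rw [Polynomial.eval_finsetSum, MvPolynomial.eval_eq', Finset.mul_sum]
  refine Finset.sum_congr rfl fun m hm => ?_
  have h1 := deg_le he hm
  rw [Fin.prod_univ_two]
  simp only [Polynomial.eval_mul, Polynomial.eval_C, Polynomial.eval_pow, Polynomial.eval_add,
    Polynomial.eval_X, v2]
  have e1 : B * w + x = (B + x / w) * w := by field_simp
  have e2 : w ^ e = w ^ (m 1) * w ^ (e - m 1) := by
    rw [← pow_add]
    congr 1
    omega
  simp only [Matrix.cons_val_zero, Matrix.cons_val_one]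
  rw [e1, e2, mul_pow, add_comm w A]
  ring

theorem resH_natDegree {A B x : ℝ} {e : ℕ} {P : MvPolynomial (Fin 2) ℝ} (he : P.totalDegree ≤ e) :
    (resH A B x e P).natDegree ≤ 2 * e := by
  unfold resH
  refine Polynomial.natDegree_sum_le_of_forall_le _ _ fun m hm => ?_
  have h1 := deg_le he hm
  have d1 : (Polynomial.X + Polynomial.C A : Polynomial ℝ).natDegree ≤ 1 :=
    (Polynomial.natDegree_X_add_C A).le
  have d2 : (Polynomial.C B * Polynomial.X + Polynomial.C x : Polynomial ℝ).natDegree ≤ 1 :=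
    Polynomial.natDegree_linear_le
  have h2 : ((Polynomial.X + Polynomial.C A : Polynomial ℝ) ^ (m 0)).natDegree ≤ m 0 * 1 :=
    Polynomial.natDegree_pow_le_of_le _ d1
  have h3 : ((Polynomial.C B * Polynomial.X + Polynomial.C x : Polynomial ℝ) ^ (m 1)).natDegree ≤
      m 1 * 1 := Polynomial.natDegree_pow_le_of_le _ d2
  have h4 : ((Polynomial.X : Polynomial ℝ) ^ (e - m 1)).natDegree ≤ e - m 1 :=
    Polynomial.natDegree_X_pow_le _
  have h5 : (Polynomial.C (P.coeff m) * (Polynomial.X + Polynomial.C A) ^ (m 0) :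
      Polynomial ℝ).natDegree ≤ 0 + m 0 * 1 :=
    Polynomial.natDegree_mul_le_of_le (by simp) h2
  have h6 := Polynomial.natDegree_mul_le_of_le h5 h3
  have h7 := Polynomial.natDegree_mul_le_of_le h6 h4
  refine h7.trans ?_
  omega

open scoped Classical in
/-- generic: pairs in the same interval between roots -/
theorem pairs_gen (T : Finset Pt) (σ : Pt → ℝ) (G : Polynomial ℝ) (hG0 : G ≠ 0)
    (R : Pt → Pt → Prop) (hsym : ∀ x y, R x y → R y x) (hne : ∀ x ∈ T, G.eval (σ x) ≠ 0)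
    (hR : ∀ x ∈ T, ∀ y ∈ T, σ x ≤ σ y → (∀ r, σ x ≤ r → r ≤ σ y → G.eval r ≠ 0) → R x y) :
    T.card ^ 2 ≤ (G.natDegree + 1) * ((T ×ˢ T).filter (fun z => R z.1 z.2)).card := by
  set D := G.natDegree with hD
  set N : Pt → ℕ := fun x => (G.roots.toFinset.filter (fun r => r < σ x)).card with hN
  have hNle : ∀ x, N x < D + 1 := by
    intro x
    have h1 : N x ≤ G.roots.toFinset.card := Finset.card_filter_le _ _
    have h2 : G.roots.toFinset.card ≤ G.roots.card := Multiset.toFinset_card_le _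
    have h3 := G.card_roots'
    omega
  have key : ∀ x ∈ T, ∀ y ∈ T, σ x ≤ σ y → N x = N y → R x y := by
    intro x hx y hy hxy hNN
    refine hR x hx y hy hxy fun r h1 h2 h0 => ?_
    have hroot : r ∈ G.roots.toFinset := by
      rw [Multiset.mem_toFinset, Polynomial.mem_roots hG0, Polynomial.IsRoot.def]
      exact h0
    rcases h2.lt_or_eq with h2 | h2
    · have hsub : G.roots.toFinset.filter (fun r => r < σ x) ⊆
          G.roots.toFinset.filter (fun r => r < σ y) := by
        intro s hs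
        rw [Finset.mem_filter] at hs ⊢
        exact ⟨hs.1, lt_of_lt_of_le hs.2 hxy⟩
      have heq := Finset.eq_of_subset_of_card_le hsub (le_of_eq hNN.symm)
      have h3 : r ∈ G.roots.toFinset.filter (fun r => r < σ y) :=
        Finset.mem_filter.mpr ⟨hroot, h2⟩
      rw [← heq, Finset.mem_filter] at h3
      exact absurd h3.2 (not_lt.mpr h1)
    · rw [h2] at h0
      exact hne y hy h0
  have key2 : ∀ x ∈ T, ∀ y ∈ T, N x = N y → R x y := by
    intro x hx y hy hNN
    rcases le_total (σ x) (σ y) with h | h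
    · exact key x hx y hy h hNN
    · exact hsym _ _ (key y hy x hx h hNN.symm)
  have hcard : T.card = ∑ i ∈ Finset.range (D + 1), (T.filter (fun x => N x = i)).card :=
    Finset.card_eq_sum_card_fiberwise (fun x _ => Finset.mem_coe.mpr (Finset.mem_range.mpr (hNle x)))
  have h1 : T.card ^ 2 ≤ (D + 1) *
      ∑ i ∈ Finset.range (D + 1), (T.filter (fun x => N x = i)).card ^ 2 := by
    conv_lhs => rw [hcard]
    have := sq_sum_le_card_mul_sum_sq (s := Finset.range (D + 1))
      (f := fun i => (T.filter (fun x => N x = i)).card)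
    rwa [Finset.card_range] at this
  refine h1.trans (Nat.mul_le_mul_left _ ?_)
  have h2 : ∑ i ∈ Finset.range (D + 1), (T.filter (fun x => N x = i)).card ^ 2 =
      ((T ×ˢ T).filter (fun z => N z.1 = N z.2)).card := by
    rw [Finset.card_eq_sum_card_fiberwise (f := fun z : Pt × Pt => N z.1)
      (t := Finset.range (D + 1))
      (fun x _ => Finset.mem_coe.mpr (Finset.mem_range.mpr (hNle x.1)))]
    refine Finset.sum_congr rfl fun i _ => ?_
    rw [sq, ← Finset.card_product]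
    congr 1
    ext ⟨x, y⟩
    simp only [Finset.mem_product, Finset.mem_filter]
    constructor
    · rintro ⟨⟨h1, h2⟩, h3, h4⟩
      exact ⟨⟨⟨h1, h3⟩, by rw [h2, h4]⟩, h2⟩
    · rintro ⟨⟨⟨h1, h3⟩, h4⟩, h2⟩
      exact ⟨⟨h1, h2⟩, h3, by rw [← h4, h2]⟩
  rw [h2]
  refine Finset.card_le_card fun z hz => ?_
  rw [Finset.mem_filter, Finset.mem_product] at hz
  rw [Finset.mem_filter, Finset.mem_product]
  exact ⟨hz.1, key2 z.1 hz.1.1 z.2 hz.1.2 hz.2⟩

theorem hyp_pt {κ : ℝ × ℝ × ℝ} (hx : κ.2.2 ≠ 0) {p : Pt} (hp : p ∈ hyp κ) :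
    (κ.1 + (p.1 - κ.1), κ.2.1 + κ.2.2 / (p.1 - κ.1)) = p := by
  refine Prod.ext ?_ ?_
  · show κ.1 + (p.1 - κ.1) = p.1
    ring
  · exact (hyp_snd hx hp).symm

open scoped Classical in
theorem pairsH_ge {t : ℕ} (f : Fin t → MvPolynomial (Fin 2) ℝ) {κ : ℝ × ℝ × ℝ} (hx : κ.2.2 ≠ 0)
    (T : Finset Pt) (hT : ∀ p ∈ T, p ∈ hyp κ) (hne : ∀ p ∈ T, ∀ j, eval (v2 p) (f j) ≠ 0) :
    T.card ^ 2 ≤ (2 * (∑ j, (f j).totalDegree) + 2) *
      ((T ×ˢ T).filter (fun z => sameCl f (v2 z.1) (v2 z.2))).card := by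
  rcases T.eq_empty_or_nonempty with rfl | ⟨x0, hx0⟩
  · simp
  set g : Fin t → Polynomial ℝ := fun j => resH κ.1 κ.2.1 κ.2.2 (f j).totalDegree (f j) with hg
  set σ : Pt → ℝ := fun p => p.1 - κ.1 with hσ
  have hσ0 : ∀ p ∈ T, σ p ≠ 0 := fun p hp => (hyp_ne hx (hT p hp)).1
  have hev : ∀ p ∈ T, ∀ j, (g j).eval (σ p) = (σ p) ^ (f j).totalDegree * eval (v2 p) (f j) := by
    intro p hp j
    rw [hg]
    simp only
    rw [resH_eval le_rfl (hσ0 p hp), hσ]
    simp only
    rw [hyp_pt hx (hT p hp)]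
  have hev0 : ∀ p ∈ T, ∀ j, (g j).eval (σ p) ≠ 0 := by
    intro p hp j
    rw [hev p hp j]
    exact mul_ne_zero (pow_ne_zero _ (hσ0 p hp)) (hne p hp j)
  have hg0 : ∀ j, g j ≠ 0 := by
    intro j h
    apply hev0 x0 hx0 j
    rw [h, Polynomial.eval_zero]
  set G : Polynomial ℝ := Polynomial.X * ∏ j, g j with hG
  have hP0 : (∏ j, g j) ≠ 0 := Finset.prod_ne_zero_iff.mpr fun j _ => hg0 j
  have hG0 : G ≠ 0 := mul_ne_zero Polynomial.X_ne_zero hP0
  have hGd : G.natDegree ≤ 2 * (∑ j, (f j).totalDegree) + 1 := by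
    rw [hG]
    refine Polynomial.natDegree_mul_le.trans ?_
    rw [Polynomial.natDegree_X]
    have h1 : (∏ j, g j).natDegree ≤ ∑ j, 2 * (f j).totalDegree := by
      refine (Polynomial.natDegree_prod_le _ _).trans (Finset.sum_le_sum fun j _ => ?_)
      exact resH_natDegree le_rfl
    rw [← Finset.mul_sum] at h1
    omega
  have hGe : ∀ r, G.eval r ≠ 0 → r ≠ 0 ∧ ∀ j, (g j).eval r ≠ 0 := by
    intro r hr
    rw [hG, Polynomial.eval_mul, Polynomial.eval_X, Polynomial.eval_prod] at hr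
    exact ⟨left_ne_zero_of_mul hr, fun j =>
      Finset.prod_ne_zero_iff.mp (right_ne_zero_of_mul hr) j (Finset.mem_univ j)⟩
  have hmain := pairs_gen T σ G hG0 (fun x y => sameCl f (v2 x) (v2 y))
    (fun x y h j => by rw [mul_comm]; exact h j)
    (by
      intro p hp
      rw [hG, Polynomial.eval_mul, Polynomial.eval_X, Polynomial.eval_prod]
      exact mul_ne_zero (hσ0 p hp) (Finset.prod_ne_zero_iff.mpr fun j _ => hev0 p hp j))
    (by
      intro x hxT y hyT hxy hr j
      have h1 : 0 < (g j).eval (σ x) * (g j).eval (σ y) :=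
        STw.sign_const _ hxy fun r h1 h2 => (hGe r (hr r h1 h2)).2 j
      have h2 : 0 < σ x * σ y := by
        have := STw.sign_const (Polynomial.X : Polynomial ℝ) hxy fun r h1 h2 => by
          rw [Polynomial.eval_X]
          exact (hGe r (hr r h1 h2)).1
        simpa using this
      rw [hev x hxT j, hev y hyT j] at h1
      have h3 : (σ x) ^ (f j).totalDegree * eval (v2 x) (f j) *
          ((σ y) ^ (f j).totalDegree * eval (v2 y) (f j)) =
          (σ x * σ y) ^ (f j).totalDegree * (eval (v2 x) (f j) * eval (v2 y) (f j)) := by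
        rw [mul_pow]
        ring
      rw [h3] at h1
      exact (pos_iff_pos_of_mul_pos h1).1 (by positivity))
  refine hmain.trans (Nat.mul_le_mul_right _ ?_)
  omega

/-- few zeros on a hyperbola that is not contained in the zero set -/
theorem zerosH_le (P : MvPolynomial (Fin 2) ℝ) {κ : ℝ × ℝ × ℝ} (hx : κ.2.2 ≠ 0)
    (hn : ¬ ∀ w ∈ hyp κ, eval (v2 w) P = 0) (T : Finset Pt)
    (hT : ∀ x ∈ T, x ∈ hyp κ ∧ eval (v2 x) P = 0) : T.card ≤ 2 * P.totalDegree := by
  set g : Polynomial ℝ := resH κ.1 κ.2.1 κ.2.2 P.totalDegree P with hg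
  have hev : ∀ p ∈ hyp κ, g.eval (p.1 - κ.1) = (p.1 - κ.1) ^ P.totalDegree * eval (v2 p) P := by
    intro p hp
    rw [hg, resH_eval le_rfl (hyp_ne hx hp).1, hyp_pt hx hp]
  have hR : g ≠ 0 := by
    intro h0
    apply hn
    intro w hw
    have h1 := hev w hw
    rw [h0, Polynomial.eval_zero] at h1
    rcases mul_eq_zero.1 h1.symm with h2 | h2
    · exact absurd h2 (pow_ne_zero _ (hyp_ne hx hw).1)
    · exact h2
  have hinj : Set.InjOn (fun p : Pt => p.1 - κ.1) (T : Set Pt) := by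
    intro x hxT y hyT hxy
    have hxy' : x.1 - κ.1 = y.1 - κ.1 := hxy
    rw [← hyp_pt hx (hT x hxT).1, ← hyp_pt hx (hT y hyT).1, hxy']
  have hsub : T.image (fun p : Pt => p.1 - κ.1) ⊆ g.roots.toFinset := by
    intro s hs
    obtain ⟨x, hxT, rfl⟩ := Finset.mem_image.mp hs
    rw [Multiset.mem_toFinset, Polynomial.mem_roots hR, Polynomial.IsRoot.def,
      hev x (hT x hxT).1, (hT x hxT).2, mul_zero]
  calc T.card = (T.image (fun p : Pt => p.1 - κ.1)).card := (Finset.card_image_of_injOn hinj).symm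
    _ ≤ g.roots.toFinset.card := Finset.card_le_card hsub
    _ ≤ g.roots.card := Multiset.toFinset_card_le _
    _ ≤ g.natDegree := Polynomial.card_roots' _
    _ ≤ 2 * P.totalDegree := resH_natDegree le_rfl

end Pool.Agent.Work.MP_916cc8_co.FL
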