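import Pool.Agent.Work.MP_916cc8_co.FL.HypA

/-! Szemeredi-Trotter (Pach-Sharir) for the family of hyperbolas. -/

set_option autoImplicit false

namespace Pool.Agent.Work.MP_916cc8_co.FL

open Pool.Agent.Work.MP_916cc8_co MvPolynomial

/-- vertical line -/
def vert (τ : ℝ) : Set Pt := {x | 1 * x.1 + 0 * x.2 = τ}

theorem vert_isLine (τ : ℝ) : IsLine (vert τ) := ⟨1, 0, τ, Or.inl one_ne_zero, rfl⟩

theorem mem_vert {τ : ℝ} {x : Pt} : x ∈ vert τ ↔ x.1 = τ := by
  unfold vert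
  rw [Set.mem_ofPred_eq]
  constructor
  · intro h; linarith
  · intro h; linarith

theorem vert_inj : Function.Injective vert := by
  intro a b h
  have h1 : ((a, 0) : Pt) ∈ vert a := mem_vert.2 rfl
  rw [h] at h1
  exact mem_vert.1 h1

open scoped Classical in
/-- number of hyperbolas contained in the zero set -/
theorem hyp_in_zero (P : MvPolynomial (Fin 2) ℝ) (hP : P ≠ 0) (K : Finset (ℝ × ℝ × ℝ))
    (hK : ∀ κ ∈ K, κ.2.2 ≠ 0 ∧ ∀ w ∈ hyp κ, eval (v2 w) P = 0) : K.card ≤ P.totalDegree := by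
  -- bad abscissas
  have f1 : Set.Finite {τ : ℝ | ∀ w ∈ vert τ, eval (v2 w) P = 0} := by
    by_contra hinf
    obtain ⟨F, hF, hFc⟩ := Set.Infinite.exists_subset_card_eq hinf (P.totalDegree + 1)
    have h1 := LinesIn_proof P hP (F.image vert) (fun ℓ hℓ => by
      rw [Finset.mem_image] at hℓ
      obtain ⟨τ, hτ, rfl⟩ := hℓ
      exact ⟨vert_isLine τ, hF hτ⟩)
    rw [Finset.card_image_of_injective _ vert_inj, hFc] at h1
    omega
  have f2 : Set.Finite {τ : ℝ | ∃ κ ∈ K, τ = κ.1} := by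
    refine (K.image (fun κ => κ.1)).finite_toSet.subset ?_
    rintro τ ⟨κ, hκ, rfl⟩
    exact Finset.mem_coe.2 (Finset.mem_image_of_mem _ hκ)
  have f3 : Set.Finite {τ : ℝ | ∃ κ ∈ K, ∃ κ' ∈ K, κ ≠ κ' ∧
      (κ.2.1 - κ'.2.1) * (τ - κ.1) * (τ - κ'.1) + κ.2.2 * (τ - κ'.1) - κ'.2.2 * (τ - κ.1) = 0} := by
    set Φ : (ℝ × ℝ × ℝ) × (ℝ × ℝ × ℝ) → Polynomial ℝ := fun z =>
      Polynomial.C (z.1.2.1 - z.2.2.1) * Polynomial.X ^ 2 +
      Polynomial.C (-(z.1.2.1 - z.2.2.1) * (z.1.1 + z.2.1) + (z.1.2.2 - z.2.2.2)) * Polynomial.X +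
      Polynomial.C ((z.1.2.1 - z.2.2.1) * (z.1.1 * z.2.1) - z.1.2.2 * z.2.1 + z.2.2.2 * z.1.1) with hΦ
    refine ((K ×ˢ K).biUnion (fun z => (Φ z).roots.toFinset)).finite_toSet.subset ?_
    rintro τ ⟨κ, hκ, κ', hκ', hne, h0⟩
    rw [Finset.mem_coe, Finset.mem_biUnion]
    refine ⟨(κ, κ'), Finset.mem_product.2 ⟨hκ, hκ'⟩, ?_⟩
    have hΦ0 : Φ (κ, κ') ≠ 0 := by
      intro h
      rw [hΦ] at h
      obtain ⟨c2, c1, c0⟩ := quad_zero h
      simp only at c2 c1 c0
      have e1 : κ.2.1 = κ'.2.1 := by linarith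
      rw [c2] at c1 c0
      have e2 : κ.2.2 = κ'.2.2 := by linarith
      have e3 : κ.2.2 * (κ.1 - κ'.1) = 0 := by rw [← e2] at c0; linarith
      have e4 : κ.1 = κ'.1 := by
        rcases mul_eq_zero.1 e3 with h | h
        · exact absurd h (hK κ hκ).1
        · linarith
      exact hne (Prod.ext e4 (Prod.ext e1 e2))
    rw [Multiset.mem_toFinset, Polynomial.mem_roots hΦ0, Polynomial.IsRoot.def, hΦ]
    simp only [Polynomial.eval_add, Polynomial.eval_mul, Polynomial.eval_C, Polynomial.eval_pow,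
      Polynomial.eval_X]
    linear_combination h0
  obtain ⟨τ, hτ⟩ := (f1.union (f2.union f3)).infinite_compl.nonempty
  rw [Set.mem_compl_iff, Set.mem_union, Set.mem_union] at hτ
  push Not at hτ
  obtain ⟨t1, t2, t3⟩ := hτ
  have t1' : ¬ ∀ w ∈ vert τ, eval (v2 w) P = 0 := t1
  have t2' : ∀ κ ∈ K, τ - κ.1 ≠ 0 := fun κ hκ h => t2 ⟨κ, hκ, by linarith⟩
  set ψ : ℝ × ℝ × ℝ → Pt := fun κ => (τ, κ.2.1 + κ.2.2 / (τ - κ.1)) with hψ
  have hψm : ∀ κ ∈ K, ψ κ ∈ hyp κ := by
    intro κ hκ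
    show (τ - κ.1) * (κ.2.1 + κ.2.2 / (τ - κ.1) - κ.2.1) = κ.2.2
    have := t2' κ hκ
    field_simp
    ring
  have hinj : Set.InjOn ψ (K : Set (ℝ × ℝ × ℝ)) := by
    intro κ hκ κ' hκ' he
    by_contra hne
    apply t3
    refine ⟨κ, hκ, κ', hκ', hne, ?_⟩
    have h1 : κ.2.1 + κ.2.2 / (τ - κ.1) = κ'.2.1 + κ'.2.2 / (τ - κ'.1) := congrArg Prod.snd he
    have a1 := t2' κ hκ
    have a2 := t2' κ' hκ'
    field_simp at h1
    linarith
  have h1 := STw.zeros_le P (vert_isLine τ) t1' (K.image ψ) (by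
    intro x hx
    rw [Finset.mem_image] at hx
    obtain ⟨κ, hκ, rfl⟩ := hx
    exact ⟨mem_vert.2 rfl, (hK κ hκ).2 _ (hψm κ hκ)⟩)
  rwa [Finset.card_image_of_injOn hinj] at h1

open scoped Classical in
theorem union_geH (S : Finset Pt) (K : Finset (ℝ × ℝ × ℝ)) (hK : ∀ κ ∈ K, κ.2.2 ≠ 0) :
    ∑ κ ∈ K, rich S (hyp κ) ≤ S.card + K.card ^ 2 := by
  have key : ∑ κ ∈ K, rich S (hyp κ) ≤ (K.biUnion fun κ => S.filter (fun x => x ∈ hyp κ)).card +
      K.card ^ 2 := by
    induction K using Finset.induction_on with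
    | empty => simp
    | insert κ K hκ ih =>
      have ih' := ih fun m hm => hK m (Finset.mem_insert_of_mem hm)
      rw [Finset.sum_insert hκ, Finset.biUnion_insert, Finset.card_insert_of_notMem hκ]
      have h1 := Finset.card_union_add_card_inter (S.filter (fun x => x ∈ hyp κ))
        (K.biUnion fun κ => S.filter (fun x => x ∈ hyp κ))
      have h2 : (S.filter (fun x => x ∈ hyp κ) ∩
          (K.biUnion fun κ => S.filter (fun x => x ∈ hyp κ))).card ≤ K.card * 2 := by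
        rw [Finset.inter_biUnion]
        refine Finset.card_biUnion_le.trans ?_
        have h3 : ∀ m ∈ K, (S.filter (fun x => x ∈ hyp κ) ∩ S.filter (fun x => x ∈ hyp m)).card ≤ 2 := by
          intro m hm
          refine hyp_inter_le S (hK κ (Finset.mem_insert_self _ _))
            (hK m (Finset.mem_insert_of_mem hm)) ?_
          rintro rfl
          exact hκ hm
        have h4 := Finset.sum_le_sum h3
        rw [Finset.sum_const, smul_eq_mul] at h4
        exact h4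
      have h5 : rich S (hyp κ) = (S.filter (fun x => x ∈ hyp κ)).card := rfl
      nlinarith
  refine key.trans (Nat.add_le_add_right (Finset.card_le_card ?_) _)
  intro x hx
  obtain ⟨κ, _, hx⟩ := Finset.mem_biUnion.mp hx
  exact (Finset.mem_filter.mp hx).1

open scoped Classical in
theorem sum_pairsH {γ : ℝ} (hγ : γ ≠ 0) (S : Finset Pt) (R : Pt → Pt → Prop)
    (K : Finset (ℝ × ℝ × ℝ)) (hK : ∀ κ ∈ K, Fam γ κ) :
    ∑ κ ∈ K, ((S ×ˢ S).filter (fun z => z.1 ≠ z.2 ∧ z.1 ∈ hyp κ ∧ z.2 ∈ hyp κ ∧ R z.1 z.2)).card ≤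
      3 * ((S ×ˢ S).filter (fun z => R z.1 z.2)).card := by
  have h1 : ∑ κ ∈ K, ((S ×ˢ S).filter (fun z => z.1 ≠ z.2 ∧ z.1 ∈ hyp κ ∧ z.2 ∈ hyp κ ∧
      R z.1 z.2)).card = ∑ z ∈ S ×ˢ S, (K.filter (fun κ => z.1 ≠ z.2 ∧ z.1 ∈ hyp κ ∧
      z.2 ∈ hyp κ ∧ R z.1 z.2)).card := by
    simp only [Finset.card_filter]
    rw [Finset.sum_comm]
  have h2 : ∀ z ∈ S ×ˢ S, (K.filter (fun κ => z.1 ≠ z.2 ∧ z.1 ∈ hyp κ ∧
      z.2 ∈ hyp κ ∧ R z.1 z.2)).card ≤ if R z.1 z.2 then 3 else 0 := by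
    intro z _
    by_cases hR : R z.1 z.2
    · rw [if_pos hR]
      by_cases hne : z.1 ≠ z.2
      · refine two_points hγ hne _ fun κ hκ => ?_
        rw [Finset.mem_filter] at hκ
        exact ⟨hK κ hκ.1, hκ.2.2.1, hκ.2.2.2.1⟩
      · rw [Finset.filter_false_of_mem]
        · simp
        · intro κ _ h
          exact hne h.1
    · rw [if_neg hR, Finset.filter_false_of_mem]
      · simp
      · intro κ _ h
        exact hR h.2.2.2
  rw [h1]
  refine (Finset.sum_le_sum h2).trans ?_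
  rw [← Finset.sum_filter, Finset.sum_const, smul_eq_mul, mul_comm]

/-- Pach-Sharir for the family, rich version -/
def HST : Prop := ∃ C₀ : ℝ, 0 < C₀ ∧ ∀ (γ : ℝ), γ ≠ 0 → ∀ (S : Finset Pt)
  (K : Finset (ℝ × ℝ × ℝ)) (k : ℝ), 2 ≤ k → (∀ κ ∈ K, Fam γ κ ∧ k ≤ rich S (hyp κ)) →
  (K.card : ℝ) ≤ C₀ * ((S.card : ℝ) ^ 2 / k ^ 3 + S.card / k)

open scoped Classical in
theorem HST_proof : HST := by
  obtain ⟨C1, hC1, hP⟩ := Part_final 2 (by norm_num)
  set K0 : ℝ := 16 * C1 + 16 with hK0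
  have hK0pos : 0 < K0 := by positivity
  refine ⟨3 * K0 ^ 3 + 768 * C1 ^ 2 + 2, by positivity, fun γ hγ S L k hk hL => ?_⟩
  have hk0 : 0 < k := by linarith
  set n : ℝ := (S.card : ℝ) with hn
  have hn0 : 0 ≤ n := Nat.cast_nonneg _
  have hterm1 : 0 ≤ n ^ 2 / k ^ 3 := by positivity
  have hterm2 : 0 ≤ n / k := by positivity
  rcases le_or_gt k K0 with hkK | hkK
  · -- the trivial range
    have h1 : L.card ≤ 3 * S.card ^ 2 := by
      have h1 := sum_pairsH hγ S STw.Tr L fun κ hκ => (hL κ hκ).1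
      have h3 : ∑ κ ∈ L, 1 ≤ 3 * (S ×ˢ S).card := by
        refine le_trans (le_trans (Finset.sum_le_sum fun κ hκ => ?_) h1)
          (Nat.mul_le_mul_left _ (Finset.card_filter_le _ _))
        have h2 : (2 : ℝ) ≤ rich S (hyp κ) := hk.trans (hL κ hκ).2
        have h2' : 1 < rich S (hyp κ) := by exact_mod_cast h2
        obtain ⟨x, hx, y, hy, hxy⟩ := Finset.one_lt_card.mp h2'
        rw [Finset.mem_filter] at hx hy
        refine Finset.card_pos.mpr ⟨(x, y), ?_⟩
        rw [Finset.mem_filter, Finset.mem_product]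
        exact ⟨⟨hx.1, hy.1⟩, hxy, hx.2, hy.2, trivial⟩
      rw [Finset.sum_const, smul_eq_mul, mul_one, Finset.card_product, ← sq] at h3
      exact h3
    have h2 : (L.card : ℝ) ≤ 3 * n ^ 2 := by
      rw [hn]
      exact_mod_cast h1
    have h3 : n ^ 2 ≤ K0 ^ 3 * (n ^ 2 / k ^ 3) := by
      rw [← mul_div_assoc, le_div_iff₀ (by positivity), mul_comm]
      exact mul_le_mul_of_nonneg_right (pow_le_pow_left₀ hk0.le hkK 3) (by positivity)
    have h4 : 0 ≤ (768 * C1 ^ 2 + 2) * (n ^ 2 / k ^ 3) := by positivity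
    have h5 : 0 ≤ (3 * K0 ^ 3 + 768 * C1 ^ 2 + 2) * (n / k) := by positivity
    linarith
  · have hk16 : 16 < k := by
      have : 0 < 16 * C1 := by positivity
      linarith
    have hX : 1 ≤ (k / (16 * C1)) ^ 2 := by
      have : 1 ≤ k / (16 * C1) := by
        rw [le_div_iff₀ (by positivity)]
        linarith
      nlinarith
    obtain ⟨t, ht1, ht2⟩ := exists_nat_pow_near hX (one_lt_two)
    obtain ⟨f, hf0, hfd, hfc⟩ := hP Pt S v2 t
    set D : ℕ := ∑ j, (f j).totalDegree with hD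
    have hDk : (D : ℝ) ≤ k / 16 := by
      refine hfd.trans ?_
      have h1 : (2 : ℝ) ^ ((t : ℝ) / ((2 : ℕ) : ℝ)) = Real.sqrt (2 ^ t) := by
        rw [Real.sqrt_eq_rpow, ← Real.rpow_natCast, ← Real.rpow_mul (by norm_num)]
        congr 1
        push_cast
        ring
      rw [h1]
      have h2 : Real.sqrt (2 ^ t) ≤ k / (16 * C1) := Real.sqrt_le_iff.mpr ⟨by positivity, ht1⟩
      have h3 : C1 * Real.sqrt (2 ^ t) ≤ C1 * (k / (16 * C1)) :=
        mul_le_mul_of_nonneg_left h2 hC1.le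
      have h4 : C1 * (k / (16 * C1)) = k / 16 := by
        field_simp
      linarith
    set P : MvPolynomial (Fin 2) ℝ := ∏ j, f j with hPdef
    have hP0 : P ≠ 0 := Finset.prod_ne_zero_iff.mpr fun j _ => hf0 j
    have hPd : P.totalDegree ≤ D := totalDegree_finsetProd _ _
    have hPev : ∀ x : Fin 2 → ℝ, eval x P ≠ 0 → ∀ j, eval x (f j) ≠ 0 := by
      intro x hx j hj
      apply hx
      rw [hPdef, map_prod]
      exact Finset.prod_eq_zero (Finset.mem_univ j) hj
    set L2 := L.filter (fun κ => ∀ w ∈ hyp κ, eval (v2 w) P = 0) with hL2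
    set L1 := L.filter (fun κ => ¬ ∀ w ∈ hyp κ, eval (v2 w) P = 0) with hL1
    have hcard : L.card = L2.card + L1.card :=
      (Finset.card_filter_add_card_filter_not _).symm
    have hb : (L2.card : ℝ) ≤ 2 * (n / k) := by
      have h1 : L2.card ≤ P.totalDegree := hyp_in_zero P hP0 L2 fun κ hκ =>
        ⟨(hL κ (Finset.mem_filter.mp hκ).1).1.1, (Finset.mem_filter.mp hκ).2⟩
      have h2 : (L2.card : ℝ) ≤ k / 16 := by
        refine le_trans ?_ hDk
        exact_mod_cast h1.trans hPd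
      have h3 := union_geH S L2 fun κ hκ => (hL κ (Finset.mem_filter.mp hκ).1).1.1
      have h4 : (∑ κ ∈ L2, (rich S (hyp κ) : ℝ)) ≤ n + (L2.card : ℝ) ^ 2 := by
        rw [hn]
        exact_mod_cast h3
      have h5 : (L2.card : ℝ) * k ≤ ∑ κ ∈ L2, (rich S (hyp κ) : ℝ) := by
        rw [← nsmul_eq_mul]
        exact Finset.card_nsmul_le_sum _ _ _ fun κ hκ => (hL κ (Finset.mem_filter.mp hκ).1).2
      have h6 : (L2.card : ℝ) ^ 2 ≤ (L2.card : ℝ) * (k / 16) := by
        rw [sq]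
        exact mul_le_mul_of_nonneg_left h2 (Nat.cast_nonneg _)
      rw [← mul_div_assoc, le_div_iff₀ hk0]
      have h7 : (0 : ℝ) ≤ (L2.card : ℝ) * k := by positivity
      nlinarith
    have hclose : (((S ×ˢ S).filter (fun z => sameCl f (v2 z.1) (v2 z.2))).card : ℝ) * 2 ^ t ≤
        n ^ 2 := by
      have h1 : ((S ×ˢ S).filter (fun z => sameCl f (v2 z.1) (v2 z.2))).card =
          ∑ x ∈ S, (S.filter (fun a => sameCl f (v2 x) (v2 a))).card := by
        rw [Finset.card_filter, Finset.sum_product]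
        exact Finset.sum_congr rfl fun x _ => (Finset.card_filter _ _).symm
      have h2 : ((S ×ˢ S).filter (fun z => sameCl f (v2 z.1) (v2 z.2))).card * 2 ^ t ≤
          S.card ^ 2 := by
        rw [h1, Finset.sum_mul, sq]
        have h3 := Finset.sum_le_card_nsmul S
          (fun x => (S.filter (fun a => sameCl f (v2 x) (v2 a))).card * 2 ^ t) S.card
          (fun x _ => by rw [mul_comm]; exact hfc (v2 x))
        rwa [smul_eq_mul] at h3
      rw [hn]
      exact_mod_cast h2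
    have ha : (L1.card : ℝ) ≤ 768 * C1 ^ 2 * (n ^ 2 / k ^ 3) := by
      have hline : ∀ κ ∈ L1, 2 * k ≤ (((S ×ˢ S).filter (fun z => z.1 ≠ z.2 ∧ z.1 ∈ hyp κ ∧
          z.2 ∈ hyp κ ∧ sameCl f (v2 z.1) (v2 z.2))).card : ℝ) := by
        intro κ hκ
        rw [hL1, Finset.mem_filter] at hκ
        obtain ⟨hκL, hnot⟩ := hκ
        have hx := (hL κ hκL).1.1
        have hrich := (hL κ hκL).2
        set T := S.filter (fun x => x ∈ hyp κ ∧ eval (v2 x) P ≠ 0) with hT
        set T0 := S.filter (fun x => x ∈ hyp κ ∧ eval (v2 x) P = 0) with hT0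
        have hTc : rich S (hyp κ) ≤ T.card + T0.card := by
          unfold rich
          refine le_trans (Finset.card_le_card ?_) (Finset.card_union_le T T0)
          intro x hx
          rw [Finset.mem_filter] at hx
          rw [Finset.mem_union, hT, hT0, Finset.mem_filter, Finset.mem_filter]
          by_cases h : eval (v2 x) P = 0
          · exact Or.inr ⟨hx.1, hx.2, h⟩
          · exact Or.inl ⟨hx.1, hx.2, h⟩
        have hT0c : T0.card ≤ 2 * P.totalDegree := zerosH_le P hx hnot T0 fun x hx => by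
          rw [hT0, Finset.mem_filter] at hx
          exact hx.2
        have hTk : 7 / 8 * k ≤ (T.card : ℝ) := by
          have h1 : (rich S (hyp κ) : ℝ) ≤ T.card + 2 * D := by
            have := hTc.trans (Nat.add_le_add_left (hT0c.trans (Nat.mul_le_mul_left 2 hPd)) _)
            exact_mod_cast this
          linarith
        have hpairs := pairsH_ge f hx T (fun x hx => (Finset.mem_filter.mp hx).2.1)
          (fun x hx => hPev _ (Finset.mem_filter.mp hx).2.2)
        rw [← hD] at hpairs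
        have hsplit : ((T ×ˢ T).filter (fun z => sameCl f (v2 z.1) (v2 z.2))).card ≤
            T.card + ((S ×ˢ S).filter (fun z => z.1 ≠ z.2 ∧ z.1 ∈ hyp κ ∧
              z.2 ∈ hyp κ ∧ sameCl f (v2 z.1) (v2 z.2))).card := by
          have h1 : ((T ×ˢ T).filter (fun z => sameCl f (v2 z.1) (v2 z.2))) ⊆
              T.image (fun x => (x, x)) ∪ ((S ×ˢ S).filter (fun z => z.1 ≠ z.2 ∧ z.1 ∈ hyp κ ∧
              z.2 ∈ hyp κ ∧ sameCl f (v2 z.1) (v2 z.2))) := by
            rintro ⟨x, y⟩ hz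
            rw [Finset.mem_filter, Finset.mem_product] at hz
            obtain ⟨⟨hx, hy⟩, hs⟩ := hz
            rw [Finset.mem_union]
            by_cases hxy : x = y
            · left
              rw [Finset.mem_image]
              exact ⟨x, hx, by rw [← hxy]⟩
            · right
              rw [Finset.mem_filter, Finset.mem_product]
              rw [hT, Finset.mem_filter] at hx hy
              exact ⟨⟨hx.1, hy.1⟩, hxy, hx.2.1, hy.2.1, hs⟩
          refine (Finset.card_le_card h1).trans ((Finset.card_union_le _ _).trans ?_)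
          exact Nat.add_le_add_right Finset.card_image_le _
        set A : ℝ := (((S ×ˢ S).filter (fun z => z.1 ≠ z.2 ∧ z.1 ∈ hyp κ ∧
              z.2 ∈ hyp κ ∧ sameCl f (v2 z.1) (v2 z.2))).card : ℝ) with hA
        have h5 : (T.card : ℝ) ^ 2 ≤ (2 * D + 2) * (T.card + A) := by
          have h6 := hpairs.trans (Nat.mul_le_mul_left _ hsplit)
          rw [hA]
          exact_mod_cast h6
        have h7 : 2 * (D : ℝ) + 2 ≤ k / 4 := by linarith
        have hA0 : 0 ≤ A := Nat.cast_nonneg _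
        have hT00 : (0 : ℝ) ≤ (T.card : ℝ) := Nat.cast_nonneg _
        have h8 : (T.card : ℝ) ^ 2 ≤ k / 4 * (T.card + A) :=
          h5.trans (mul_le_mul_of_nonneg_right h7 (by positivity))
        nlinarith
      have h1 := sum_pairsH hγ S (fun x y => sameCl f (v2 x) (v2 y)) L1
        fun κ hκ => (hL κ (Finset.mem_filter.mp hκ).1).1
      have h2 : (L1.card : ℝ) * (2 * k) ≤
          3 * (((S ×ˢ S).filter (fun z => sameCl f (v2 z.1) (v2 z.2))).card : ℝ) := by
        rw [← nsmul_eq_mul]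
        refine (Finset.card_nsmul_le_sum _ _ _ hline).trans ?_
        exact_mod_cast h1
      have h3 : (L1.card : ℝ) * (2 * k) * 2 ^ t ≤ 3 * n ^ 2 := by
        have := mul_le_mul_of_nonneg_right h2 (by positivity : (0 : ℝ) ≤ 2 ^ t)
        linarith
      have h4 : k ^ 2 ≤ 512 * C1 ^ 2 * 2 ^ t := by
        have h5 : (k / (16 * C1)) ^ 2 < 2 ^ t * 2 := by rwa [pow_succ] at ht2
        rw [div_pow, div_lt_iff₀ (by positivity)] at h5
        nlinarith
      rw [← mul_div_assoc, le_div_iff₀ (by positivity)]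
      have h6 : (0 : ℝ) ≤ (L1.card : ℝ) * k := by positivity
      calc (L1.card : ℝ) * k ^ 3 = (L1.card : ℝ) * k * k ^ 2 := by ring
        _ ≤ (L1.card : ℝ) * k * (512 * C1 ^ 2 * 2 ^ t) := mul_le_mul_of_nonneg_left h4 h6
        _ = 256 * C1 ^ 2 * ((L1.card : ℝ) * (2 * k) * 2 ^ t) := by ring
        _ ≤ 256 * C1 ^ 2 * (3 * n ^ 2) := mul_le_mul_of_nonneg_left h3 (by positivity)
        _ = 768 * C1 ^ 2 * n ^ 2 := by ring
    have h9 : (L.card : ℝ) = L2.card + L1.card := by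
      rw [hcard]
      push_cast
      rfl
    rw [h9]
    have h10 : 0 ≤ (3 * K0 ^ 3 + 2) * (n ^ 2 / k ^ 3) := by positivity
    have h11 : 0 ≤ (3 * K0 ^ 3 + 768 * C1 ^ 2) * (n / k) := by positivity
    linarith

end Pool.Agent.Work.MP_916cc8_co.FL
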