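import Pool.Agent.Work.MP_916cc8_co.FL.Cls
import Pool.Agent.Work.MP_916cc8_co.Final13

/-! Sets on few parallel lines: the main theorem. -/

set_option autoImplicit false

namespace Pool.Agent.Work.MP_916cc8_co.FL

open Pool.Agent.Work.MP_916cc8_co

theorem log_aux (h : ℕ) (hh : 1 ≤ h) :
    ((Nat.log 2 (2 * h) : ℝ) + 1) * (1 + Real.log h) ≤ 2 * (1 + Real.log h) ^ 2 := by
  have hh' : (1 : ℝ) ≤ (h : ℝ) := by exact_mod_cast hh
  have hl0 : 0 ≤ Real.log h := Real.log_nonneg hh'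
  have h1 : (Nat.log 2 (2 * h) : ℝ) ≤ 1 + 2 * Real.log h := by
    have e : Nat.log 2 (2 * h) = Nat.log 2 h + 1 := by
      rw [mul_comm]
      exact Nat.log_mul_base (by norm_num) (by omega)
    rw [e]
    push_cast
    have h2 := Real.natLog_le_logb h 2
    have h3 : Real.logb 2 h ≤ 2 * Real.log h := by
      rw [Real.logb, div_le_iff₀ (Real.log_pos (by norm_num))]
      have h4 : (0.6931471803 : ℝ) < Real.log 2 := Real.log_two_gt_d9
      nlinarith
    push_cast at h2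
    linarith
  nlinarith

open scoped Classical in
theorem nonhor_le : ∃ C : ℝ, 0 < C ∧ ∀ (S : Finset Pt) (s : ℝ), 0 < S.card → 0 < s →
    s ^ 3 = ((Yy S).card : ℝ) → ((Yy S).card : ℝ) ^ 2 ≤ S.card →
    (∑ g ∈ FF S, (dd S g : ℝ) * (rich S g.2 : ℝ)) ≤
      C * (s * (S.card : ℝ) ^ 2 * (1 + Real.log ((Yy S).card : ℝ)) ^ 2) := by
  obtain ⟨C, hC, hK⟩ := classK
  refine ⟨2 * C, by positivity, fun S s hS hs hsh hh2 => ?_⟩
  have hh1 : 1 ≤ (Yy S).card := by
    rw [Nat.one_le_iff_ne_zero, ← Nat.pos_iff_ne_zero, Finset.card_pos]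
    unfold Yy
    exact (Finset.card_pos.1 hS).image _
  obtain ⟨h, hhd⟩ : ∃ h : ℕ, h = (Yy S).card := ⟨_, rfl⟩
  rw [← hhd] at hh1
  have hpt : ∀ g ∈ FF S, (dd S g : ℝ) * (rich S g.2 : ℝ) ≤
      ∑ a ∈ Finset.range (Nat.log 2 (2 * h) + 1), ∑ r ∈ Finset.Icc 1 h,
        if (2 : ℝ) ^ a ≤ W S g.1 ∧ W S g.1 < 2 ^ (a + 1) ∧ r ≤ dd S g then (rich S g.2 : ℝ) else 0 := by
    intro g hg
    have hd1 : 1 ≤ dd S g := by
      unfold FF at hg
      rw [Finset.mem_image] at hg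
      obtain ⟨x, hx, hxg⟩ := hg
      unfold dd
      rw [Nat.one_le_iff_ne_zero, ← Nat.pos_iff_ne_zero, Finset.card_pos]
      exact ⟨x, Finset.mem_filter.2 ⟨hx, hxg⟩⟩
    have hdJ := dd_le S g
    have hW := card_le_W S g.1
    have hW2 := W_le S g.1
    have hdh : dd S g ≤ h := by
      rw [hhd]
      refine le_trans hdJ ?_
      unfold Jz
      exact Finset.card_filter_le _ _
    have hW1 : 1 ≤ W S g.1 := by
      have : (1 : ℝ) ≤ ((Jz S g.1).card : ℝ) := by exact_mod_cast le_trans hd1 hdJ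
      linarith
    obtain ⟨a, ha1, ha2⟩ := exists_nat_pow_near hW1 (by norm_num : (1 : ℝ) < 2)
    have ha : a ∈ Finset.range (Nat.log 2 (2 * h) + 1) := by
      rw [Finset.mem_range, Nat.lt_succ_iff]
      refine Nat.le_log_of_pow_le (by norm_num) ?_
      have : (2 : ℝ) ^ a ≤ 2 * (h : ℝ) := by
        rw [hhd]
        linarith
      exact_mod_cast this
    refine le_trans ?_ (Finset.single_le_sum (f := fun a => ∑ r ∈ Finset.Icc 1 h,
        if (2 : ℝ) ^ a ≤ W S g.1 ∧ W S g.1 < 2 ^ (a + 1) ∧ r ≤ dd S g then (rich S g.2 : ℝ) else 0)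
        (fun i _ => Finset.sum_nonneg fun r _ => by split_ifs <;> positivity) ha)
    have e1 : ∀ r ∈ Finset.Icc 1 h, (if (2 : ℝ) ^ a ≤ W S g.1 ∧ W S g.1 < 2 ^ (a + 1) ∧ r ≤ dd S g
        then (rich S g.2 : ℝ) else 0) = if r ≤ dd S g then (rich S g.2 : ℝ) else 0 := by
      intro r _
      by_cases c : r ≤ dd S g
      · rw [if_pos c, if_pos ⟨ha1, ha2, c⟩]
      · rw [if_neg c, if_neg (fun x => c x.2.2)]
    rw [Finset.sum_congr rfl e1, ← Finset.sum_filter, Finset.sum_const, nsmul_eq_mul]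
    refine mul_le_mul_of_nonneg_right ?_ (Nat.cast_nonneg _)
    have e2 : (Finset.Icc 1 h).filter (fun r => r ≤ dd S g) = Finset.Icc 1 (dd S g) := by
      ext r
      simp only [Finset.mem_filter, Finset.mem_Icc]
      omega
    rw [e2, Nat.card_Icc]
    simp
  have hswap : (∑ g ∈ FF S, ∑ a ∈ Finset.range (Nat.log 2 (2 * h) + 1), ∑ r ∈ Finset.Icc 1 h,
        if (2 : ℝ) ^ a ≤ W S g.1 ∧ W S g.1 < 2 ^ (a + 1) ∧ r ≤ dd S g then (rich S g.2 : ℝ) else 0) =
      ∑ a ∈ Finset.range (Nat.log 2 (2 * h) + 1), ∑ r ∈ Finset.Icc 1 h,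
        ∑ g ∈ GG S a r, (rich S g.2 : ℝ) := by
    rw [Finset.sum_comm]
    refine Finset.sum_congr rfl fun a _ => ?_
    rw [Finset.sum_comm]
    refine Finset.sum_congr rfl fun r _ => ?_
    unfold GG
    rw [Finset.sum_filter]
  refine le_trans (Finset.sum_le_sum hpt) ?_
  rw [hswap]
  have hcl : ∀ a ∈ Finset.range (Nat.log 2 (2 * h) + 1), (∑ r ∈ Finset.Icc 1 h,
        ∑ g ∈ GG S a r, (rich S g.2 : ℝ)) ≤ C * (s * (S.card : ℝ) ^ 2) * (1 + Real.log h) := by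
    intro a _
    have h1 : ∀ r ∈ Finset.Icc 1 h, (∑ g ∈ GG S a r, (rich S g.2 : ℝ)) ≤
        C * (s * (S.card : ℝ) ^ 2) * ((r : ℝ))⁻¹ := by
      intro r hr
      rw [Finset.mem_Icc] at hr
      have := hK S a r s hS hs hsh hh2 hr.1
      rw [div_eq_mul_inv] at this
      linarith
    refine le_trans (Finset.sum_le_sum h1) ?_
    rw [← Finset.mul_sum]
    refine mul_le_mul_of_nonneg_left ?_ (by positivity)
    have h2 := harmonic_le_one_add_log h
    rw [harmonic_eq_sum_Icc] at h2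
    push_cast at h2
    exact h2
  refine le_trans (Finset.sum_le_sum hcl) ?_
  rw [Finset.sum_const, nsmul_eq_mul, Finset.card_range, ← hhd]
  push_cast
  have h3 := log_aux h hh1
  have h4 : 0 ≤ C * (s * (S.card : ℝ) ^ 2) := by positivity
  calc ((Nat.log 2 (2 * h) : ℝ) + 1) * (C * (s * (S.card : ℝ) ^ 2) * (1 + Real.log h)) =
      C * (s * (S.card : ℝ) ^ 2) * (((Nat.log 2 (2 * h) : ℝ) + 1) * (1 + Real.log h)) := by ring
    _ ≤ C * (s * (S.card : ℝ) ^ 2) * (2 * (1 + Real.log h) ^ 2) :=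
      mul_le_mul_of_nonneg_left h3 h4
    _ = _ := by ring

end Pool.Agent.Work.MP_916cc8_co.FL
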