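import Pool.Agent.Work.MP_916cc8_co.FL.Geo

/-! Sets on few parallel lines: the second moment over pencils. -/

set_option autoImplicit false

namespace Pool.Agent.Work.MP_916cc8_co.FL

open Pool.Agent.Work.MP_916cc8_co

/-- the line of pairs (first coordinates of the targets on rows `j`, `k`) of the pencil at `z` -/
def lk (j k : ℝ) (z : Pt) : Set Pt :=
  {x | (k - z.2) * x.1 + (-(j - z.2)) * x.2 = (k - z.2) * (src z j).1 - (j - z.2) * (src z k).1}

theorem lk_isLine {j k : ℝ} {z : Pt} (h : j ≠ z.2) : IsLine (lk j k z) :=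
  ⟨k - z.2, -(j - z.2), (k - z.2) * (src z j).1 - (j - z.2) * (src z k).1,
    Or.inr (neg_ne_zero.mpr (sub_ne_zero.mpr h)), rfl⟩

theorem lk_inj {j k : ℝ} {z w : Pt} (hjk : j ≠ k) (h : lk j k z = lk j k w) : z = w := by
  have h0 : ((src z j).1, (src z k).1) ∈ lk j k w := by
    rw [← h]
    show (k - z.2) * (src z j).1 + (-(j - z.2)) * (src z k).1 = _
    ring
  have h1 : ((src z j).1 + (j - z.2), (src z k).1 + (k - z.2)) ∈ lk j k w := by
    rw [← h]
    show (k - z.2) * ((src z j).1 + (j - z.2)) + (-(j - z.2)) * ((src z k).1 + (k - z.2)) = _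
    ring
  have h0' : (k - w.2) * (src z j).1 + (-(j - w.2)) * (src z k).1 =
    (k - w.2) * (src w j).1 - (j - w.2) * (src w k).1 := h0
  have h1' : (k - w.2) * ((src z j).1 + (j - z.2)) + (-(j - w.2)) * ((src z k).1 + (k - z.2)) =
    (k - w.2) * (src w j).1 - (j - w.2) * (src w k).1 := h1
  have h2 : (j - k) * (z.2 - w.2) = 0 := by linarith
  have h3 : z.2 = w.2 := by
    rcases mul_eq_zero.1 h2 with h | h
    · exact absurd (sub_eq_zero.1 h) hjk
    · exact sub_eq_zero.1 h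
  have e1 : ∀ i : ℝ, (src z i).1 - (src w i).1 = z.1 - w.1 := by
    intro i
    unfold src
    simp only [h3]
    ring
  have h4 : (k - j) * (z.1 - w.1) = 0 := by
    have e2 := e1 j
    have e3 := e1 k
    have h5 : (k - w.2) * ((src z j).1 - (src w j).1) = (j - w.2) * ((src z k).1 - (src w k).1) := by
      linarith
    rw [e2, e3] at h5
    linarith
  have h5 : z.1 = w.1 := by
    rcases mul_eq_zero.1 h4 with h | h
    · exact absurd (sub_eq_zero.1 h).symm hjk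
    · exact sub_eq_zero.1 h
  exact Prod.ext h5 h3

theorem mem_lk {x y : Pt × Pt} (hx : x.1.2 ≠ x.2.2) (h : fl x = fl y) :
    (x.2.1, y.2.1) ∈ lk x.2.2 y.2.2 (zz x.1 x.2.2) := by
  unfold fl at h
  rw [Prod.mk.injEq] at h
  obtain ⟨hz, ht⟩ := h
  have hy1 : src (zz x.1 x.2.2) y.2.2 = y.1 := by rw [hz, src_zz]
  have hrow : x.1.2 = y.1.2 := by
    have := congrArg Prod.snd hz
    exact this
  have h1 : zz x.1 x.2.2 ∈ top x.1 x.2 := zz_mem_top hx
  have h2 : zz x.1 x.2.2 ∈ top y.1 y.2 := by rw [← ht]; exact h1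
  have h3 : zz x.1 x.2.2 + (x.2 - x.1) ∈ top y.1 y.2 := by
    rw [← ht]
    have h1' : cr (x.2 - x.1) (zz x.1 x.2.2 - x.1) = 2 := h1
    show cr (x.2 - x.1) (zz x.1 x.2.2 + (x.2 - x.1) - x.1) = 2
    unfold cr at h1' ⊢
    simp only [Prod.fst_sub, Prod.snd_sub, Prod.fst_add, Prod.snd_add] at h1' ⊢
    linarith
  have h2' : cr (y.2 - y.1) (zz x.1 x.2.2 - y.1) = 2 := h2
  have h3' : cr (y.2 - y.1) (zz x.1 x.2.2 + (x.2 - x.1) - y.1) = 2 := h3
  have h4 : (y.2.1 - y.1.1) * (x.2.2 - x.1.2) = (y.2.2 - y.1.2) * (x.2.1 - x.1.1) := by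
    unfold cr at h2' h3'
    simp only [Prod.fst_sub, Prod.snd_sub, Prod.fst_add, Prod.snd_add] at h2' h3'
    linarith
  show (y.2.2 - x.1.2) * x.2.1 + (-(x.2.2 - x.1.2)) * y.2.1 =
    (y.2.2 - x.1.2) * (src (zz x.1 x.2.2) x.2.2).1 - (x.2.2 - x.1.2) * (src (zz x.1 x.2.2) y.2.2).1
  rw [src_zz, hy1]
  rw [← hrow] at h4
  linarith

section
open scoped Classical

/-- pairs of pairs with the same flag -/
noncomputable def RR (S Z : Finset Pt) (j k : ℝ) : Finset ((Pt × Pt) × (Pt × Pt)) :=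
  (BB S ×ˢ BB S).filter (fun w => fl w.1 = fl w.2 ∧ (fl w.1).1 ∈ Z ∧ w.1.2.2 = j ∧ w.2.2.2 = k)

noncomputable def Zjk (S Z : Finset Pt) (j k : ℝ) : Finset Pt :=
  Z.filter (fun z => j ∈ Jz S z ∧ k ∈ Jz S z)

noncomputable def Gjk (S : Finset Pt) (j k : ℝ) : Finset Pt :=
  ((row S j).image Prod.fst) ×ˢ ((row S k).image Prod.fst)

theorem card_Gjk (S : Finset Pt) (j k : ℝ) : (Gjk S j k).card = (row S j).card * (row S k).card := by
  have h : ∀ i : ℝ, ((row S i).image Prod.fst).card = (row S i).card := by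
    intro i
    refine Finset.card_image_of_injOn ?_
    intro a ha b hb hab
    have ha' := (Finset.mem_filter.1 (Finset.mem_coe.1 ha)).2
    have hb' := (Finset.mem_filter.1 (Finset.mem_coe.1 hb)).2
    exact Prod.ext hab (ha'.trans hb'.symm)
  unfold Gjk
  rw [Finset.card_product, h, h]

theorem RR_le (S Z : Finset Pt) {j k : ℝ} (hjk : j ≠ k) :
    (RR S Z j k).card ≤ ∑ ℓ ∈ (Zjk S Z j k).image (lk j k), rich (Gjk S j k) ℓ := by
  rw [Finset.sum_image (fun z _ w _ h => lk_inj hjk h)]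
  have h1 : ∑ z ∈ Zjk S Z j k, rich (Gjk S j k) (lk j k z) =
      ((Zjk S Z j k ×ˢ Gjk S j k).filter (fun a => a.2 ∈ lk j k a.1)).card := by
    unfold rich
    rw [Finset.card_filter, Finset.sum_product]
    refine Finset.sum_congr rfl fun z _ => ?_
    rw [Finset.card_filter]
  rw [h1]
  refine Finset.card_le_card_of_injOn (fun w => (zz w.1.1 w.1.2.2, (w.1.2.1, w.2.2.1))) ?_ ?_
  · intro w hw
    have hw' := Finset.mem_filter.1 (Finset.mem_coe.1 hw)
    obtain ⟨hB, hf, hZ, rfl, rfl⟩ := hw'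
    rw [Finset.mem_product] at hB
    have b1 := mem_BB.1 hB.1
    have b2 := mem_BB.1 hB.2
    have hz : zz w.1.1 w.1.2.2 = zz w.2.1 w.2.2.2 := congrArg Prod.fst hf
    rw [Finset.mem_coe, Finset.mem_filter, Finset.mem_product]
    refine ⟨⟨?_, ?_⟩, mem_lk b1.2.2 hf⟩
    · unfold Zjk
      rw [Finset.mem_filter]
      refine ⟨hZ, mem_Jz_of_BB hB.1, ?_⟩
      show w.2.2.2 ∈ Jz S (zz w.1.1 w.1.2.2)
      rw [hz]
      exact mem_Jz_of_BB hB.2
    · unfold Gjk
      rw [Finset.mem_product]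
      refine ⟨Finset.mem_image.2 ⟨w.1.2, ?_, rfl⟩, Finset.mem_image.2 ⟨w.2.2, ?_, rfl⟩⟩
      · unfold row
        rw [Finset.mem_filter]
        exact ⟨b1.2.1, rfl⟩
      · unfold row
        rw [Finset.mem_filter]
        exact ⟨b2.2.1, rfl⟩
  · intro w hw v hv he
    have hw' := Finset.mem_filter.1 (Finset.mem_coe.1 hw)
    have hv' := Finset.mem_filter.1 (Finset.mem_coe.1 hv)
    obtain ⟨_, hf, _, hj, hk⟩ := hw'
    obtain ⟨_, hf', _, hj', hk'⟩ := hv'
    simp only [Prod.mk.injEq] at he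
    obtain ⟨e1, e2, e3⟩ := he
    have hz : zz w.1.1 w.1.2.2 = zz w.2.1 w.2.2.2 := congrArg Prod.fst hf
    have hz' : zz v.1.1 v.1.2.2 = zz v.2.1 v.2.2.2 := congrArg Prod.fst hf'
    have a1 : w.1.1 = v.1.1 := by
      rw [← src_zz w.1.1 w.1.2.2, e1, hj, ← hj', src_zz]
    have a2 : w.1.2 = v.1.2 := Prod.ext e2 (hj.trans hj'.symm)
    have a3 : w.2.1 = v.2.1 := by
      rw [← src_zz w.2.1 w.2.2.2, ← hz, e1, hz', hk, ← hk', src_zz]
    have a4 : w.2.2 = v.2.2 := Prod.ext e3 (hk.trans hk'.symm)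
    exact Prod.ext (Prod.ext a1 a2) (Prod.ext a3 a4)

theorem sum_sq_eq (S Z : Finset Pt) :
    ∑ g ∈ (FF S).filter (fun g => g.1 ∈ Z), (dd S g) ^ 2 =
      ((BB S ×ˢ BB S).filter (fun w => fl w.1 = fl w.2 ∧ (fl w.1).1 ∈ Z)).card := by
  have h1 : ((BB S ×ˢ BB S).filter (fun w => fl w.1 = fl w.2 ∧ (fl w.1).1 ∈ Z)) =
      ((FF S).filter (fun g => g.1 ∈ Z)).biUnion (fun g =>
        ((BB S).filter (fun x => fl x = g)) ×ˢ ((BB S).filter (fun x => fl x = g))) := by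
    ext w
    simp only [Finset.mem_filter, Finset.mem_product, Finset.mem_biUnion]
    constructor
    · rintro ⟨⟨a, b⟩, c, d⟩
      exact ⟨fl w.1, ⟨Finset.mem_image_of_mem _ a, d⟩, ⟨a, rfl⟩, b, c.symm⟩
    · rintro ⟨g, ⟨_, d⟩, ⟨a, e⟩, b, f⟩
      exact ⟨⟨a, b⟩, e.trans f.symm, by rw [e]; exact d⟩
  rw [h1, Finset.card_biUnion]
  · refine Finset.sum_congr rfl fun g _ => ?_
    rw [Finset.card_product, pow_two]
    rfl
  · intro g _ g' _ hgg
    rw [Function.onFun, Finset.disjoint_left]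
    intro w hw hw'
    rw [Finset.mem_product, Finset.mem_filter, Finset.mem_filter] at hw hw'
    exact hgg (hw.1.2.symm.trans hw'.1.2)

theorem sum_sq_le (S Z : Finset Pt) :
    ∑ g ∈ (FF S).filter (fun g => g.1 ∈ Z), (dd S g) ^ 2 ≤ (BB S).card +
      ∑ j ∈ Yy S, ∑ k ∈ Yy S, if j ≠ k then (RR S Z j k).card else 0 := by
  rw [sum_sq_eq]
  set A := (BB S ×ˢ BB S).filter (fun w => fl w.1 = fl w.2 ∧ (fl w.1).1 ∈ Z) with hA
  have h1 : A ⊆ ((BB S).image (fun x => (x, x))) ∪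
      ((Yy S ×ˢ Yy S).filter (fun c => c.1 ≠ c.2)).biUnion (fun c => RR S Z c.1 c.2) := by
    intro w hw
    rw [hA, Finset.mem_filter, Finset.mem_product] at hw
    obtain ⟨⟨a, b⟩, c, d⟩ := hw
    rw [Finset.mem_union]
    by_cases e : w.1.2.2 = w.2.2.2
    · left
      rw [Finset.mem_image]
      refine ⟨w.1, a, ?_⟩
      have := fl_inj (ne_of_BB a) c e
      exact Prod.ext rfl this
    · right
      rw [Finset.mem_biUnion]
      refine ⟨(w.1.2.2, w.2.2.2), ?_, ?_⟩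
      · rw [Finset.mem_filter, Finset.mem_product]
        have c1 : w.1.2.2 ∈ Yy S := mem_Yy (mem_BB.1 a).2.1
        have c2 : w.2.2.2 ∈ Yy S := mem_Yy (mem_BB.1 b).2.1
        exact ⟨⟨c1, c2⟩, e⟩
      · unfold RR
        rw [Finset.mem_filter, Finset.mem_product]
        exact ⟨⟨a, b⟩, c, d, rfl, rfl⟩
  refine le_trans (Finset.card_le_card h1) (le_trans (Finset.card_union_le _ _) ?_)
  refine Nat.add_le_add Finset.card_image_le ?_
  refine le_trans Finset.card_biUnion_le ?_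
  rw [Finset.sum_filter, Finset.sum_product]

end

end Pool.Agent.Work.MP_916cc8_co.FL
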